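import Mathlib

set_option autoImplicit false

namespace Pool.Agent.helper83.BC

open Finset

/-- generalised binomial coefficient, zero for negative lower index -/
def bz (m q : ℤ) : ℤ := if 0 ≤ q then Ring.choose m q.toNat else 0

lemma bz_neg (m q : ℤ) (h : q < 0) : bz m q = 0 := by
  unfold bz; rw [if_neg (by omega)]

lemma bz_nat (m q : ℕ) : bz (m : ℤ) (q : ℤ) = Nat.choose m q := by
  unfold bz
  rw [if_pos (by omega), Int.toNat_natCast]
  exact Ring.choose_natCast m q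

lemma bz_zero_right (m : ℤ) : bz m 0 = 1 := by
  unfold bz
  rw [if_pos le_rfl]
  exact Ring.choose_zero_right m

lemma bz_pascal (m q : ℤ) : bz (m + 1) q = bz m q + bz m (q - 1) := by
  rcases lt_trichotomy q 0 with h | h | h
  · rw [bz_neg _ _ h, bz_neg _ _ h, bz_neg _ _ (by omega)]; rfl
  · subst h
    rw [bz_zero_right, bz_zero_right, bz_neg _ _ (by omega)]; rfl
  · obtain ⟨k, rfl⟩ : ∃ k : ℕ, q = k + 1 := ⟨(q - 1).toNat, by omega⟩
    unfold bz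
    rw [if_pos (by omega), if_pos (by omega), if_pos (by omega)]
    have e1 : ((k : ℤ) + 1).toNat = k + 1 := by omega
    have e2 : ((k : ℤ) + 1 - 1).toNat = k := by omega
    rw [e1, e2, Ring.choose_succ_succ]
    ring

lemma bz_zero_left (q : ℤ) (h : 0 < q) : bz 0 q = 0 := by
  obtain ⟨k, rfl⟩ : ∃ k : ℕ, q = ((k + 1 : ℕ) : ℤ) := ⟨(q - 1).toNat, by omega⟩
  have := bz_nat 0 (k + 1)
  rw [Nat.cast_zero] at this
  rw [this]; simp

/-- coefficients of the moments -/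
def muc (w0 : ℚ) (a b i : ℕ) : ℚ :=
  (-1) ^ a * (w0 * bz ((b : ℤ) - i - 1) ((a : ℤ) + b - 3 * i)
    + bz ((b : ℤ) - i - 1) ((a : ℤ) + b - 3 * i - 1))

lemma muc_zero (w0 : ℚ) (a b i : ℕ) (h : a + b < 3 * i) : muc w0 a b i = 0 := by
  unfold muc
  rw [bz_neg _ _ (by omega), bz_neg _ _ (by omega)]; simp

lemma muc_succ (w0 : ℚ) (a b i : ℕ) : muc w0 a (b + 1) i = muc w0 a b i - muc w0 (a + 1) b i := by
  unfold muc
  have h1 := bz_pascal ((b : ℤ) - i - 1) ((a : ℤ) + b - 3 * i + 1)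
  have h2 := bz_pascal ((b : ℤ) - i - 1) ((a : ℤ) + b - 3 * i)
  have e1 : (b : ℤ) - i - 1 + 1 = (b + 1 : ℕ) - i - 1 := by push_cast; ring
  have e2 : (a : ℤ) + b - 3 * i + 1 = (a : ℤ) + (b + 1 : ℕ) - 3 * i := by push_cast; ring
  have e3 : (a : ℤ) + b - 3 * i + 1 = ((a + 1 : ℕ) : ℤ) + b - 3 * i := by push_cast; ring
  have e4 : (a : ℤ) + b - 3 * i = (a : ℤ) + (b + 1 : ℕ) - 3 * i - 1 := by push_cast; ring
  have e5 : (a : ℤ) + b - 3 * i = ((a + 1 : ℕ) : ℤ) + b - 3 * i - 1 := by push_cast; ring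
  have e6 : (a : ℤ) + b - 3 * i + 1 - 1 = (a : ℤ) + b - 3 * i := by ring
  rw [e6] at h1
  rw [← e2, ← e3, e6, ← e1, h1, h2]
  push_cast
  ring_nf

lemma muc_base (w0 : ℚ) (a i : ℕ) :
    muc w0 (a + 3) 0 (i + 1) = muc w0 (a + 2) 0 (i + 1) - muc w0 a 0 i := by
  unfold muc
  have h1 := bz_pascal (-(i : ℤ) - 2) ((a : ℤ) - 3 * i)
  have h2 := bz_pascal (-(i : ℤ) - 2) ((a : ℤ) - 3 * i - 1)
  have e1 : ((0 : ℕ) : ℤ) - ((i + 1 : ℕ) : ℤ) - 1 = -(i : ℤ) - 2 := by push_cast; ring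
  have e2 : ((a + 3 : ℕ) : ℤ) + ((0 : ℕ) : ℤ) - 3 * ((i + 1 : ℕ) : ℤ) = (a : ℤ) - 3 * i := by
    push_cast; ring
  have e3 : ((a + 2 : ℕ) : ℤ) + ((0 : ℕ) : ℤ) - 3 * ((i + 1 : ℕ) : ℤ) = (a : ℤ) - 3 * i - 1 := by
    push_cast; ring
  have e4 : ((0 : ℕ) : ℤ) - (i : ℤ) - 1 = -(i : ℤ) - 2 + 1 := by push_cast; ring
  have e5 : (a : ℤ) + ((0 : ℕ) : ℤ) - 3 * i = (a : ℤ) - 3 * i := by push_cast; ring
  rw [e1, e2, e3, e4, e5, h1, h2]
  push_cast
  ring_nf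

lemma muc_base0 (w0 : ℚ) (a : ℕ) : muc w0 (a + 3) 0 0 = muc w0 (a + 2) 0 0 := by
  unfold muc
  have h1 := bz_pascal (-1) ((a : ℤ) + 3)
  have h2 := bz_pascal (-1) ((a : ℤ) + 2)
  have h3 := bz_zero_left ((a : ℤ) + 3) (by omega)
  have h4 := bz_zero_left ((a : ℤ) + 2) (by omega)
  have e0 : (-1 : ℤ) + 1 = 0 := by norm_num
  rw [e0, h3] at h1
  rw [e0, h4] at h2
  have e1 : ((0 : ℕ) : ℤ) - ((0 : ℕ) : ℤ) - 1 = -1 := by norm_num
  have e2 : ((a + 3 : ℕ) : ℤ) + ((0 : ℕ) : ℤ) - 3 * ((0 : ℕ) : ℤ) = (a : ℤ) + 3 := by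
    push_cast; ring
  have e3 : ((a + 2 : ℕ) : ℤ) + ((0 : ℕ) : ℤ) - 3 * ((0 : ℕ) : ℤ) = (a : ℤ) + 2 := by
    push_cast; ring
  have e4 : (a : ℤ) + 3 - 1 = a + 2 := by ring
  rw [e1, e2, e3, e4]
  rw [e4] at h1
  have h5 : bz (-1) ((a : ℤ) + 3) = - bz (-1) ((a : ℤ) + 2) := by linarith
  have h6 : bz (-1) ((a : ℤ) + 2) = - bz (-1) ((a : ℤ) + 2 - 1) := by linarith
  rw [h5]
  have h7 : bz (-1) ((a : ℤ) + 2 - 1) = - bz (-1) ((a : ℤ) + 2) := by linarith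
  rw [h7]
  push_cast
  ring_nf

section moments

variable {K : Type*} [Field K] [CharZero K]

/-- the expansion of a moment -/
def RHS (w0 : ℚ) (E v : K) (N a b : ℕ) : K :=
  ∑ i ∈ range N, (muc w0 a b i : K) * E ^ (a + b - 3 * i) * v ^ i

lemma RHS_succ (w0 : ℚ) (E v : K) (N a b : ℕ) :
    RHS w0 E v N a (b + 1) = E * RHS w0 E v N a b - RHS w0 E v N (a + 1) b := by
  unfold RHS
  rw [mul_sum, ← sum_sub_distrib]
  apply sum_congr rfl
  intro i _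
  rw [muc_succ]
  have e : a + 1 + b - 3 * i = a + (b + 1) - 3 * i := by congr 1; ring
  rw [e]
  by_cases h : 3 * i ≤ a + b
  · have e2 : a + (b + 1) - 3 * i = (a + b - 3 * i) + 1 := by omega
    rw [e2, pow_succ]; push_cast; ring
  · rw [muc_zero w0 a b i (by omega)]; push_cast; ring

lemma RHS_base (w0 : ℚ) (E v : K) (N a : ℕ) (hN : a + 3 < 3 * N) :
    RHS w0 E v N (a + 3) 0 = E * RHS w0 E v N (a + 2) 0 - v * RHS w0 E v N a 0 := by
  obtain ⟨M, rfl⟩ : ∃ M, N = M + 1 := ⟨N - 1, by omega⟩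
  unfold RHS
  have h1 : ∑ i ∈ range (M + 1), (muc w0 a 0 i : K) * E ^ (a + 0 - 3 * i) * v ^ i
      = ∑ i ∈ range M, (muc w0 a 0 i : K) * E ^ (a + 0 - 3 * i) * v ^ i := by
    rw [sum_range_succ, muc_zero w0 a 0 M (by omega)]; push_cast; ring
  rw [h1, sum_range_succ', sum_range_succ', mul_add, mul_sum, mul_sum, muc_base0]
  have h2 : E * ((muc w0 (a + 2) 0 0 : K) * E ^ (a + 2 + 0 - 3 * 0) * v ^ 0)
      = (muc w0 (a + 2) 0 0 : K) * E ^ (a + 3 + 0 - 3 * 0) * v ^ 0 := by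
    have e : a + 3 + 0 - 3 * 0 = (a + 2 + 0 - 3 * 0) + 1 := by omega
    rw [e, pow_succ]; ring
  rw [h2]
  have h3 : ∀ i ∈ range M, (muc w0 (a + 3) 0 (i + 1) : K) * E ^ (a + 3 + 0 - 3 * (i + 1))
      * v ^ (i + 1) = E * ((muc w0 (a + 2) 0 (i + 1) : K) * E ^ (a + 2 + 0 - 3 * (i + 1))
        * v ^ (i + 1)) - v * ((muc w0 a 0 i : K) * E ^ (a + 0 - 3 * i) * v ^ i) := by
    intro i _
    rw [muc_base]
    have e1 : a + 3 + 0 - 3 * (i + 1) = a + 0 - 3 * i := by omega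
    rw [e1]
    by_cases h : 3 * (i + 1) ≤ a + 2
    · have e2 : a + 0 - 3 * i = (a + 2 + 0 - 3 * (i + 1)) + 1 := by omega
      rw [e2, pow_succ, pow_succ]; push_cast; ring
    · rw [muc_zero w0 (a + 2) 0 (i + 1) (by omega), pow_succ]; push_cast; ring
  rw [sum_congr rfl h3, sum_sub_distrib]
  ring

lemma bz_neg_one_one : bz (-1) 1 = -1 := by
  have := bz_pascal (-1) 1
  rw [show (-1 : ℤ) + 1 = 0 by norm_num, show (1 : ℤ) - 1 = 0 by norm_num, bz_zero_right,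
    bz_zero_left 1 (by norm_num)] at this
  omega

lemma bz_neg_one_two : bz (-1) 2 = 1 := by
  have := bz_pascal (-1) 2
  rw [show (-1 : ℤ) + 1 = 0 by norm_num, show (2 : ℤ) - 1 = 1 by norm_num, bz_neg_one_one,
    bz_zero_left 2 (by norm_num)] at this
  omega

omit [CharZero K] in
lemma RHS_00 (w0 : ℚ) (E v : K) (M : ℕ) : RHS w0 E v (M + 1) 0 0 = w0 := by
  unfold RHS
  rw [sum_range_succ', sum_eq_zero (fun i _ => by
    rw [muc_zero w0 0 0 (i + 1) (by omega)]; push_cast; ring)]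
  have : muc w0 0 0 0 = w0 := by
    unfold muc
    rw [bz_neg _ _ (show ((0 : ℕ) : ℤ) + ((0 : ℕ) : ℤ) - 3 * ((0 : ℕ) : ℤ) - 1 < 0 by norm_num)]
    have : ((0 : ℕ) : ℤ) + ((0 : ℕ) : ℤ) - 3 * ((0 : ℕ) : ℤ) = 0 := by norm_num
    rw [this, bz_zero_right]
    push_cast; ring
  rw [this]; simp

lemma RHS_10 (w0 : ℚ) (E v : K) (M : ℕ) : RHS w0 E v (M + 1) 1 0 = ((w0 - 1 : ℚ) : K) * E := by
  unfold RHS
  rw [sum_range_succ', sum_eq_zero (fun i _ => by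
    rw [muc_zero w0 1 0 (i + 1) (by omega)]; push_cast; ring)]
  have : muc w0 1 0 0 = w0 - 1 := by
    unfold muc
    have e1 : ((0 : ℕ) : ℤ) - ((0 : ℕ) : ℤ) - 1 = -1 := by norm_num
    have e2 : ((1 : ℕ) : ℤ) + ((0 : ℕ) : ℤ) - 3 * ((0 : ℕ) : ℤ) = 1 := by norm_num
    rw [e1, e2, bz_neg_one_one, show (1 : ℤ) - 1 = 0 by norm_num, bz_zero_right]
    push_cast; ring
  rw [this]; simp

lemma RHS_20 (w0 : ℚ) (E v : K) (M : ℕ) : RHS w0 E v (M + 1) 2 0 = ((w0 - 1 : ℚ) : K) * E ^ 2 := by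
  unfold RHS
  rw [sum_range_succ', sum_eq_zero (fun i _ => by
    rw [muc_zero w0 2 0 (i + 1) (by omega)]; push_cast; ring)]
  have : muc w0 2 0 0 = w0 - 1 := by
    unfold muc
    have e1 : ((0 : ℕ) : ℤ) - ((0 : ℕ) : ℤ) - 1 = -1 := by norm_num
    have e2 : ((2 : ℕ) : ℤ) + ((0 : ℕ) : ℤ) - 3 * ((0 : ℕ) : ℤ) = 2 := by norm_num
    rw [e1, e2, bz_neg_one_two, show (2 : ℤ) - 1 = 1 by norm_num, bz_neg_one_one]
    push_cast; ring
  rw [this]; simp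

/-- **the moment formula** -/
theorem moments (w0 : ℚ) (E v e : K) (c y : Fin 3 → K)
    (hy : ∀ i, y i ^ 2 * (E - y i) = v)
    (h0 : ∑ i, c i = e * w0) (h1 : ∑ i, c i * y i = e * (((w0 - 1 : ℚ) : K) * E))
    (h2 : ∑ i, c i * y i ^ 2 = e * (((w0 - 1 : ℚ) : K) * E ^ 2)) :
    ∀ N a b : ℕ, a + b < 3 * N →
      ∑ i, c i * (y i ^ a * (E - y i) ^ b) = e * RHS w0 E v N a b := by
  intro N a b
  induction b generalizing a with
  | zero =>
    intro hN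
    rw [add_zero] at hN
    simp only [pow_zero, mul_one]
    induction a using Nat.strong_induction_on with
    | _ a ih =>
      obtain ⟨M, rfl⟩ : ∃ M, N = M + 1 := ⟨N - 1, by omega⟩
      rcases a with _ | _ | _ | a
      · rw [RHS_00, ← h0]; simp
      · rw [zero_add, RHS_10, ← h1]; simp
      · rw [zero_add, RHS_20, ← h2]
      · have e1 := ih (a + 2) (by omega) (by omega)
        have e2 := ih a (by omega) (by omega)
        rw [show a + 1 + 1 + 1 = a + 3 from rfl, RHS_base w0 E v (M + 1) a (by omega)]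
        have e3 : ∑ i, c i * y i ^ (a + 3) = E * ∑ i, c i * y i ^ (a + 2)
            - v * ∑ i, c i * y i ^ a := by
          rw [mul_sum, mul_sum, ← sum_sub_distrib]
          apply sum_congr rfl
          intro i _
          have := hy i
          linear_combination (-(c i * y i ^ a)) * this
        rw [e3, e1, e2]; ring
  | succ b ih =>
    intro hN
    rw [RHS_succ, mul_sub, mul_left_comm, ← ih a (by omega), ← ih (a + 1) (by omega), mul_sum,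
      ← sum_sub_distrib]
    apply sum_congr rfl
    intro i _
    ring

end moments

end Pool.Agent.helper83.BC
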