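import Pool.Agent.helper83.BCMain3
import Pool.Agent.helper83.BCAlg1

set_option autoImplicit false

namespace Pool.Agent.helper83.BC

open Finset Matrix Polynomial

lemma fct_ne (n : ℕ) : ((n.factorial : ℕ) : ℚ) ≠ 0 := by
  exact_mod_cast Nat.factorial_ne_zero n

/-- descending products -/
lemma PD (m n : ℕ) (h : n < m) :
    ∏ r ∈ Icc 1 n, ((m : ℚ) - r) = ((m - 1).factorial : ℕ) / ((m - 1 - n).factorial : ℕ) := by
  induction n with
  | zero => simp [div_self (fct_ne (m - 1))]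
  | succ n ih =>
    rw [prod_Icc_succ_top (by omega), ih (by omega)]
    have e : m - 1 - n = (m - 1 - (n + 1)) + 1 := by omega
    have h1 := fct_ne (m - 1 - (n + 1))
    have h2 : (m : ℚ) - ((n + 1 : ℕ) : ℚ) = ((m - 1 - (n + 1) + 1 : ℕ) : ℚ) := by
      have : m - 1 - (n + 1) + 1 = m - (n + 1) := by omega
      rw [this, Nat.cast_sub (by omega)]
    have h3 : ((m - 1 - (n + 1) + 1 : ℕ) : ℚ) ≠ 0 := by
      exact_mod_cast Nat.succ_ne_zero (m - 1 - (n + 1))
    rw [h2, e, Nat.factorial_succ]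
    rw [Nat.cast_mul]
    field_simp

lemma ch1 (n k j : ℕ) (h : k + j = n + 1) :
    ((bz (n : ℤ) (k : ℤ) : ℤ) : ℚ)
      = j * ((n.factorial : ℕ) / ((k.factorial : ℕ) * (j.factorial : ℕ))) := by
  rw [bz_nat]
  rcases j with _ | j
  · rw [Nat.choose_eq_zero_of_lt (by omega)]; simp
  · have hk : k ≤ n := by omega
    have e : n - k = j := by omega
    have h1 := fct_ne k
    have h2 := fct_ne j
    have h3 : ((j + 1 : ℕ) : ℚ) ≠ 0 := by exact_mod_cast Nat.succ_ne_zero j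
    push_cast
    rw [Nat.cast_choose ℚ hk, e, Nat.factorial_succ]
    push_cast at h3 ⊢
    field_simp

lemma ch2 (n k j : ℕ) (h : k + j = n + 1) :
    ((bz (n : ℤ) ((k : ℤ) - 1) : ℤ) : ℚ)
      = k * ((n.factorial : ℕ) / ((k.factorial : ℕ) * (j.factorial : ℕ))) := by
  rcases k with _ | k
  · rw [bz_neg _ _ (by norm_num)]; simp
  · have e0 : ((k + 1 : ℕ) : ℤ) - 1 = (k : ℤ) := by push_cast; ring
    rw [e0, bz_nat]
    have hk : k ≤ n := by omega
    have e : n - k = j := by omega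
    have h1 := fct_ne k
    have h2 := fct_ne j
    have h3 : ((k + 1 : ℕ) : ℚ) ≠ 0 := by exact_mod_cast Nat.succ_ne_zero k
    push_cast
    rw [Nat.cast_choose ℚ hk, e, Nat.factorial_succ]
    push_cast at h3 ⊢
    field_simp

lemma num_eq (t s : ℕ) (hs1 : 1 ≤ s) (hst : s ≤ t) :
    num t s = ((s - 1).factorial : ℕ) * ((-1) ^ (t - s) * ((t - s).factorial : ℕ)) := by
  obtain ⟨m, rfl⟩ := Nat.exists_eq_add_of_le hst
  induction m with
  | zero =>
    rw [add_zero]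
    unfold num
    have hIcc : (Icc 1 s).erase s = Icc 1 (s - 1) := by
      ext x; simp only [mem_erase, mem_Icc]; omega
    rw [hIcc, PD s (s - 1) (by omega)]
    simp
  | succ m ih =>
    have ih := ih (by omega)
    have h1 : num (s + (m + 1)) s = ((s : ℚ) - ((s + m + 1 : ℕ) : ℚ)) * num (s + m) s := by
      unfold num
      have hIcc : Icc 1 (s + (m + 1)) = insert (s + m + 1) (Icc 1 (s + m)) := by
        ext x; simp only [mem_Icc, mem_insert]; omega
      rw [hIcc, erase_insert_of_ne (by omega), prod_insert (by simp)]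
    rw [h1, ih]
    have e1 : s + m - s = m := by omega
    have e2 : s + (m + 1) - s = m + 1 := by omega
    rw [e1, e2, Nat.factorial_succ, pow_succ]
    push_cast
    ring

namespace Par

variable (p : Par)

/-- the coefficients (after the shift) -/
def gg (t i : ℕ) : ℚ := (-1) ^ t * (if p.ρ = 1 then
    (3 / 2) * (bz ((p.κ : ℤ) - t - i - 1) ((p.κ : ℤ) - 3 * i) : ℚ)
      + (bz ((p.κ : ℤ) - t - i - 1) ((p.κ : ℤ) - 3 * i - 1) : ℚ)
    else (bz ((p.κ : ℤ) - t - i - 1) ((p.κ : ℤ) - 1 - 3 * i) : ℚ))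

def ww (t : ℕ) : ℚ := if p.ρ = 1 then (2 * p.κ - 3 * t) / 2 else 1

def RR (s t : ℕ) : ℤ := if p.ρ = 1 then
    bz (2 * (p.κ : ℤ) - 3 * s - 1) ((t : ℤ) - s)
      - 2 * bz (2 * (p.κ : ℤ) - 3 * s - 1) ((t : ℤ) - s - 1)
    else bz (2 * (p.κ : ℤ) - 3 * s) ((t : ℤ) - s)

def Nc (l j : ℕ) : ℤ := if p.ρ = 1 then bz ((p.κ : ℤ) - 3 * j) l
    else bz ((p.κ : ℤ) - 1 - 3 * j) l - 2 * bz ((p.κ : ℤ) - 1 - 3 * j) ((l : ℤ) - 1)

lemma closed_form (t i : ℕ) (ht1 : 1 ≤ t) (ht2 : t ≤ p.L) (hi1 : 1 ≤ i) (hi2 : i ≤ p.d) :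
    4 ^ (t + i) * p.gg t i = p.phi i * ((-1) ^ t * 4 ^ t * p.ww t *
      ((∏ r ∈ Icc 1 (t - 1), (2 * (i : ℚ) - r)) / ∏ s ∈ Icc 1 t, ((p.κ : ℚ) - i - s))) := by
  have g1 := p.hd1
  have g1' := p.hd2
  have g2 := p.hρ
  have g3 := p.hL1
  have g3' := p.hL2
  have hden : ∏ s ∈ Icc 1 t, ((p.κ : ℚ) - i - s)
      = ((p.κ - 1 - i).factorial : ℕ) / ((p.κ - 1 - i - t).factorial : ℕ) := by
    have h := PD (p.κ - i) t (by omega)
    have e1 : p.κ - i - 1 = p.κ - 1 - i := by omega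
    rw [e1] at h
    rw [← h]
    apply prod_congr rfl
    intro s _
    rw [Nat.cast_sub (by omega)]
  have hA := fct_ne (p.κ - 1 - i)
  have hAt := fct_ne (p.κ - 1 - i - t)
  have hB := fct_ne (2 * i - 1)
  have hC := fct_ne (p.κ + p.ρ - 1 - 3 * i)
  have hD := fct_ne (2 * i - t)
  rw [hden]
  rcases le_or_gt t (2 * i) with hti | hti
  · have hnum : ∏ r ∈ Icc 1 (t - 1), (2 * (i : ℚ) - r)
        = ((2 * i - 1).factorial : ℕ) / ((2 * i - t).factorial : ℕ) := by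
      have h := PD (2 * i) (t - 1) (by omega)
      have e1 : 2 * i - 1 - (t - 1) = 2 * i - t := by omega
      rw [e1] at h
      rw [← h]
      apply prod_congr rfl
      intro s _
      push_cast; ring
    rw [hnum]
    have key : (if p.ρ = 1 then
        (3 / 2) * (bz ((p.κ : ℤ) - t - i - 1) ((p.κ : ℤ) - 3 * i) : ℚ)
          + bz ((p.κ : ℤ) - t - i - 1) ((p.κ : ℤ) - 3 * i - 1)
        else (bz ((p.κ : ℤ) - t - i - 1) ((p.κ : ℤ) - 1 - 3 * i) : ℚ))
        = p.ww t * (((p.κ - 1 - i - t).factorial : ℕ) /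
          (((p.κ + p.ρ - 1 - 3 * i).factorial : ℕ) * ((2 * i - t).factorial : ℕ))) := by
      unfold ww
      interval_cases hr : p.ρ
      · simp only [zero_ne_one, if_false]
        have e1 : (p.κ : ℤ) - t - i - 1 = ((p.κ - 1 - i - t : ℕ) : ℤ) := by omega
        have e2 : (p.κ : ℤ) - 1 - 3 * i = ((p.κ - 1 - 3 * i : ℕ) : ℤ) := by omega
        rw [e1, e2, bz_nat]
        have e3 : p.κ + 0 - 1 - 3 * i = p.κ - 1 - 3 * i := by omega
        rw [e3]
        push_cast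
        rw [Nat.cast_choose ℚ (by omega), one_mul]
        have e4 : p.κ - 1 - i - t - (p.κ - 1 - 3 * i) = 2 * i - t := by omega
        rw [e4]
      · simp only [if_true]
        have e1 : (p.κ : ℤ) - t - i - 1 = ((p.κ - 1 - i - t : ℕ) : ℤ) := by omega
        have e2 : (p.κ : ℤ) - 3 * i = ((p.κ - 3 * i : ℕ) : ℤ) := by omega
        rw [e1, e2, ch1 (p.κ - 1 - i - t) (p.κ - 3 * i) (2 * i - t) (by omega),
          ch2 (p.κ - 1 - i - t) (p.κ - 3 * i) (2 * i - t) (by omega)]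
        have e3 : p.κ + 1 - 1 - 3 * i = p.κ - 3 * i := by omega
        rw [e3, Nat.cast_sub (by omega : 3 * i ≤ p.κ), Nat.cast_sub hti]
        push_cast
        ring
    unfold gg
    rw [key]
    unfold phi
    rw [pow_add]
    field_simp
  · -- both sides vanish
    have hnum : ∏ r ∈ Icc 1 (t - 1), (2 * (i : ℚ) - r) = 0 := by
      apply prod_eq_zero (i := 2 * i)
      · rw [mem_Icc]; omega
      · push_cast; ring
    rw [hnum]
    have h0 : p.gg t i = 0 := by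
      unfold gg
      interval_cases hr : p.ρ
      · simp only [zero_ne_one, if_false]
        have e1 : (p.κ : ℤ) - t - i - 1 = ((p.κ - 1 - i - t : ℕ) : ℤ) := by omega
        have e2 : (p.κ : ℤ) - 1 - 3 * i = ((p.κ - 1 - 3 * i : ℕ) : ℤ) := by omega
        rw [e1, e2, bz_nat, Nat.choose_eq_zero_of_lt (by omega)]; simp
      · simp only [if_true]
        have e1 : (p.κ : ℤ) - t - i - 1 = ((p.κ - 1 - i - t : ℕ) : ℤ) := by omega
        have e2 : (p.κ : ℤ) - 3 * i = ((p.κ - 3 * i : ℕ) : ℤ) := by omega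
        rw [e1, e2, bz_nat, Nat.choose_eq_zero_of_lt (by omega)]
        have h2 : bz ((p.κ - 1 - i - t : ℕ) : ℤ) (((p.κ - 3 * i : ℕ) : ℤ) - 1) = 0 := by
          rcases Nat.eq_zero_or_pos (p.κ - 3 * i) with h | h
          · rw [h, bz_neg _ _ (by norm_num)]
          · have e3 : ((p.κ - 3 * i : ℕ) : ℤ) - 1 = ((p.κ - 3 * i - 1 : ℕ) : ℤ) := by omega
            rw [e3, bz_nat, Nat.choose_eq_zero_of_lt (by omega)]; rfl
        rw [h2]; simp
    rw [h0]; simp

lemma psi_RR (s t : ℕ) (hs1 : 1 ≤ s) (hst : s ≤ t) (ht2 : t ≤ p.L) :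
    p.psi s * (4 ^ (t - s) * (p.RR s t : ℚ)) = (-1) ^ t * 4 ^ t * p.ww t *
      ((∏ r ∈ Icc 1 (t - 1), (2 * ((p.κ : ℚ) - s) - r)) / num t s) := by
  have g3 := p.hL1
  have g2 := p.hρ
  have hnum : ∏ r ∈ Icc 1 (t - 1), (2 * ((p.κ : ℚ) - s) - r)
      = ((2 * p.κ - 2 * s - 1).factorial : ℕ) / ((2 * p.κ - 2 * s - t).factorial : ℕ) := by
    have h := PD (2 * p.κ - 2 * s) (t - 1) (by omega)
    have e1 : 2 * p.κ - 2 * s - 1 - (t - 1) = 2 * p.κ - 2 * s - t := by omega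
    rw [e1] at h
    rw [← h]
    apply prod_congr rfl
    intro r _
    rw [Nat.cast_sub (by omega)]
    push_cast; ring
  rw [hnum, num_eq t s hs1 hst]
  have hA := fct_ne (2 * p.κ - 2 * s - 1)
  have hB := fct_ne (2 * p.κ - 2 * s - t)
  have hC := fct_ne (t - s)
  have hD := fct_ne (s - 1)
  have hE := fct_ne (2 * p.κ - p.ρ - 3 * s)
  have hpow : (-1 : ℚ) ^ t = (-1) ^ s * (-1) ^ (t - s) := by
    rw [← pow_add]; congr 1; omega
  have hpow4 : (4 : ℚ) ^ t = 4 ^ s * 4 ^ (t - s) := by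
    rw [← pow_add]; congr 1; omega
  have hm1 : ((-1 : ℚ) ^ (t - s)) ≠ 0 := pow_ne_zero _ (by norm_num)
  have key : (p.RR s t : ℚ) = 2 ^ p.ρ * p.ww t * (((2 * p.κ - p.ρ - 3 * s).factorial : ℕ) /
      (((t - s).factorial : ℕ) * ((2 * p.κ - 2 * s - t).factorial : ℕ))) := by
    unfold RR ww
    interval_cases hr : p.ρ
    · simp only [zero_ne_one, if_false]
      have e1 : 2 * (p.κ : ℤ) - 3 * s = ((2 * p.κ - 3 * s : ℕ) : ℤ) := by omega
      have e2 : (t : ℤ) - s = ((t - s : ℕ) : ℤ) := by omega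
      rw [e1, e2, bz_nat]
      have e3 : 2 * p.κ - 0 - 3 * s = 2 * p.κ - 3 * s := by omega
      rw [e3]
      push_cast
      rw [Nat.cast_choose ℚ (by omega)]
      have e4 : 2 * p.κ - 3 * s - (t - s) = 2 * p.κ - 2 * s - t := by omega
      rw [e4]; ring
    · simp only [if_true]
      have e1 : 2 * (p.κ : ℤ) - 3 * s - 1 = ((2 * p.κ - 1 - 3 * s : ℕ) : ℤ) := by omega
      have e2 : (t : ℤ) - s = ((t - s : ℕ) : ℤ) := by omega
      rw [e1, e2]
      push_cast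
      have h1 := ch1 (2 * p.κ - 1 - 3 * s) (t - s) (2 * p.κ - 2 * s - t) (by omega)
      have h2 := ch2 (2 * p.κ - 1 - 3 * s) (t - s) (2 * p.κ - 2 * s - t) (by omega)
      push_cast at h1 h2
      rw [h1, h2]
      rw [Nat.cast_sub hst, Nat.cast_sub (by omega : t ≤ 2 * p.κ - 2 * s),
        Nat.cast_sub (by omega : 2 * s ≤ 2 * p.κ)]
      push_cast
      ring
  rw [key, hpow, hpow4]
  unfold psi
  have h2 : ((2 : ℚ) ^ p.ρ) ≠ 0 := pow_ne_zero _ (by norm_num)
  field_simp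

/-- the basic expansion of the coefficients in the Cauchy matrix -/
theorem gg_eq (t i : ℕ) (ht1 : 1 ≤ t) (ht2 : t ≤ p.L) (hi1 : 1 ≤ i) (hi2 : i ≤ p.d) :
    4 ^ (t + i) * p.gg t i
      = ∑ s ∈ Icc 1 t, Om p.phi p.psi p.κ i s * (4 ^ (t - s) * (p.RR s t : ℚ)) := by
  have g1 := p.hd1
  have g1' := p.hd2
  have g2 := p.hρ
  have g3 := p.hL1
  have g3' := p.hL2
  rw [p.closed_form t i ht1 ht2 hi1 hi2]
  have hdeg : (∏ r ∈ Icc 1 (t - 1), (2 * X - C (r : ℚ)) : ℚ[X]).degree < #(Icc 1 t) := by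
    rw [degree_prod]
    have : ∀ r ∈ Icc 1 (t - 1), (2 * X - C (r : ℚ) : ℚ[X]).degree = 1 := by
      intro r _
      have e : (2 * X - C (r : ℚ) : ℚ[X]) = C 2 * X + C (-(r : ℚ)) := by
        rw [C_neg, sub_eq_add_neg]; rfl
      rw [e]
      exact degree_linear (by norm_num)
    rw [sum_congr rfl this]
    simp only [sum_const, Nat.card_Icc]
    have e2 : t - 1 + 1 - 1 = t - 1 := by omega
    rw [e2, nsmul_one]
    exact_mod_cast (by omega : t - 1 < t + 1 - 1)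
  have heval : ∀ x : ℚ, (∏ r ∈ Icc 1 (t - 1), (2 * X - C (r : ℚ)) : ℚ[X]).eval x
      = ∏ r ∈ Icc 1 (t - 1), (2 * x - r) := by
    intro x
    rw [eval_prod]
    apply prod_congr rfl
    intro r _
    simp
  have hPF := PFk (Icc 1 t) p.κ i (∏ r ∈ Icc 1 (t - 1), (2 * X - C (r : ℚ))) hdeg
    (fun s hs => p.sub_ne i s (by rw [mem_Icc] at hs; omega))
  rw [heval] at hPF
  rw [hPF, mul_sum, mul_sum]
  apply sum_congr rfl
  intro s hs
  rw [mem_Icc] at hs
  have h1 := p.psi_RR s t hs.1 hs.2 ht2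
  have h2 := p.sub_ne i s (by omega)
  have h3 : num t s ≠ 0 := num_ne_zero t s
  rw [heval]
  unfold Om
  have h4 : p.phi i * p.psi s / ((p.κ : ℚ) - i - s) * (4 ^ (t - s) * (p.RR s t : ℚ))
      = p.phi i / ((p.κ : ℚ) - i - s) * (p.psi s * (4 ^ (t - s) * (p.RR s t : ℚ))) := by ring
  rw [h4, h1]
  have h5 : (∏ s' ∈ (Icc 1 t).erase s, ((s : ℚ) - s')) = num t s := rfl
  rw [h5]
  field_simp

lemma RR_diag (s : ℕ) : p.RR s s = 1 := by
  unfold RR
  split_ifs
  · rw [sub_self, bz_zero_right, bz_neg _ _ (by norm_num)]; rfl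
  · rw [sub_self, bz_zero_right]

lemma Nc_zero (j : ℕ) : p.Nc 0 j = 1 := by
  unfold Nc
  split_ifs
  · rw [Nat.cast_zero, bz_zero_right]
  · rw [Nat.cast_zero, bz_zero_right, bz_neg _ _ (by norm_num)]; rfl

/-- the scaled matrix of `T_2` -/
def TT (i j : ℕ) : ℚ := ∑ t ∈ Icc j (2 * p.κ), ((4 ^ (t - j) * p.Nc (t - j) j : ℤ) : ℚ)
  * (4 ^ (t + i) * p.gg t i)

def QQ (s j : ℕ) : ℤ := ∑ t ∈ Icc 1 p.L, if s ≤ t ∧ j ≤ t then
  (4 ^ (t - s) * p.RR s t) * (4 ^ (t - j) * p.Nc (t - j) j) else 0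

def EE (i j : ℕ) : ℚ := ∑ t ∈ Icc (p.L + 1) (2 * p.κ), ((4 ^ (t - j) * p.Nc (t - j) j : ℤ) : ℚ)
  * (4 ^ (t + i) * p.gg t i)

lemma two_gg (t i : ℕ) : ∃ z : ℤ, (2 : ℚ) ^ p.ρ * p.gg t i = z := by
  unfold gg
  have g2 := p.hρ
  interval_cases hr : p.ρ
  · simp only [zero_ne_one, if_false]
    exact ⟨(-1) ^ t * bz ((p.κ : ℤ) - t - i - 1) ((p.κ : ℤ) - 1 - 3 * i), by push_cast; ring⟩
  · simp only [if_true]
    exact ⟨(-1) ^ t * (3 * bz ((p.κ : ℤ) - t - i - 1) ((p.κ : ℤ) - 3 * i)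
      + 2 * bz ((p.κ : ℤ) - t - i - 1) ((p.κ : ℤ) - 3 * i - 1)), by push_cast; ring⟩

lemma vq_ge_of_eq {q : ℚ} (e : ℕ) (z : ℤ) (h : q = 2 ^ e * z) : q = 0 ∨ (e : ℤ) ≤ vq q := by
  by_cases hz : z = 0
  · left; rw [h, hz]; simp
  · right
    have hz' : (z : ℚ) ≠ 0 := by exact_mod_cast hz
    rw [h, vq_mul (pow_ne_zero _ (by norm_num)) hz', vq_two_pow, vq_int]
    have : 0 ≤ vz z := by unfold vz vv; positivity
    omega

/-- the matrix data -/
def md : p.MD where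
  Tf := p.TT
  Qt := p.QQ
  E := p.EE
  hT := by
    intro i hi j hj
    rw [mem_Icc] at hi hj
    have g1 := p.hd1
    have g1' := p.hd2
    have g2 := p.hρ
    have g3 := p.hL1
    have g3' := p.hL2
    have hsplit : Icc j (2 * p.κ) = Icc j p.L ∪ Icc (p.L + 1) (2 * p.κ) := by
      ext x; simp only [mem_Icc, mem_union]; omega
    have hdisj : Disjoint (Icc j p.L) (Icc (p.L + 1) (2 * p.κ)) := by
      rw [Finset.disjoint_left]; intro x; simp only [mem_Icc]; omega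
    unfold TT EE
    rw [hsplit, sum_union hdisj]
    congr 1
    have h1 : ∀ t ∈ Icc j p.L, ((4 ^ (t - j) * p.Nc (t - j) j : ℤ) : ℚ)
        * (4 ^ (t + i) * p.gg t i) = ∑ s ∈ Icc 1 p.L, Om p.phi p.psi p.κ i s *
          (if s ≤ t ∧ j ≤ t then ((4 : ℚ) ^ (t - s) * (p.RR s t : ℚ)) *
            ((4 ^ (t - j) * p.Nc (t - j) j : ℤ) : ℚ) else 0) := by
      intro t ht
      rw [mem_Icc] at ht
      rw [p.gg_eq t i (by omega) ht.2 hi.1 hi.2, mul_sum]
      have h2 : ∑ s ∈ Icc 1 t, ((4 ^ (t - j) * p.Nc (t - j) j : ℤ) : ℚ) *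
          (Om p.phi p.psi p.κ i s * (4 ^ (t - s) * (p.RR s t : ℚ)))
          = ∑ s ∈ Icc 1 t, Om p.phi p.psi p.κ i s *
          (if s ≤ t ∧ j ≤ t then ((4 : ℚ) ^ (t - s) * (p.RR s t : ℚ)) *
            ((4 ^ (t - j) * p.Nc (t - j) j : ℤ) : ℚ) else 0) := by
        apply sum_congr rfl
        intro s hs
        rw [mem_Icc] at hs
        rw [if_pos ⟨hs.2, ht.1⟩]; ring
      rw [h2]
      apply sum_subset
      · intro x; simp only [mem_Icc]; omega
      · intro s hs hs'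
        rw [mem_Icc] at hs hs'
        rw [if_neg (by omega), mul_zero]
    rw [sum_congr rfl h1]
    have h3 : ∑ t ∈ Icc j p.L, ∑ s ∈ Icc 1 p.L, Om p.phi p.psi p.κ i s *
          (if s ≤ t ∧ j ≤ t then ((4 : ℚ) ^ (t - s) * (p.RR s t : ℚ)) *
            ((4 ^ (t - j) * p.Nc (t - j) j : ℤ) : ℚ) else 0)
        = ∑ t ∈ Icc 1 p.L, ∑ s ∈ Icc 1 p.L, Om p.phi p.psi p.κ i s *
          (if s ≤ t ∧ j ≤ t then ((4 : ℚ) ^ (t - s) * (p.RR s t : ℚ)) *
            ((4 ^ (t - j) * p.Nc (t - j) j : ℤ) : ℚ) else 0) := by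
      apply sum_subset
      · intro x; simp only [mem_Icc]; omega
      · intro t ht ht'
        rw [mem_Icc] at ht ht'
        apply sum_eq_zero
        intro s _
        rw [if_neg (by omega), mul_zero]
    rw [h3, sum_comm]
    apply sum_congr rfl
    intro s _
    rw [← mul_sum]
    congr 1
    unfold QQ
    push_cast
    apply sum_congr rfl
    intro t _
    split_ifs <;> simp
  hQ := by
    intro s hs j hj
    rw [mem_Icc] at hs hj
    unfold QQ
    push_cast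
    have h4 : (4 : ZMod 2) = 0 := by decide
    have h1 : ∀ t ∈ Icc 1 p.L, (if s ≤ t ∧ j ≤ t then
        ((4 : ZMod 2) ^ (t - s) * (p.RR s t : ZMod 2)) * (4 ^ (t - j) * (p.Nc (t - j) j : ZMod 2))
          else 0) = if t = s then (if s = j then 1 else 0) else 0 := by
      intro t _
      by_cases h : s ≤ t ∧ j ≤ t
      · rw [if_pos h]
        by_cases h2 : t = s
        · subst h2
          rw [if_pos rfl, p.RR_diag]
          by_cases h3 : t = j
          · subst h3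
            rw [if_pos rfl, Nat.sub_self, p.Nc_zero]; simp
          · rw [if_neg h3]
            obtain ⟨m, hm⟩ : ∃ m, t - j = m + 1 := ⟨t - j - 1, by omega⟩
            rw [hm, pow_succ, h4]; ring
        · rw [if_neg h2]
          obtain ⟨m, hm⟩ : ∃ m, t - s = m + 1 := ⟨t - s - 1, by omega⟩
          rw [hm, pow_succ, h4]; ring
      · rw [if_neg h]
        by_cases h2 : t = s
        · rw [if_pos h2, if_neg (by omega)]
        · rw [if_neg h2]
    have h2 : (∑ t ∈ Icc 1 p.L, ((if s ≤ t ∧ j ≤ t then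
        (4 ^ (t - s) * p.RR s t) * (4 ^ (t - j) * p.Nc (t - j) j) else 0 : ℤ) : ZMod 2))
        = ∑ t ∈ Icc 1 p.L, if t = s then (if s = j then 1 else 0) else 0 := by
      apply sum_congr rfl
      intro t ht
      rw [← h1 t ht]
      split_ifs <;> push_cast <;> rfl
    first
    | rw [h2]
    | (push_cast at h2; rw [h2])
    rw [sum_ite_eq' (Icc 1 p.L) s, if_pos (mem_Icc.2 hs)]
  hE := by
    intro i hi j hj
    rw [mem_Icc] at hi hj
    have g1 := p.hd1
    have g1' := p.hd2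
    have g2 := p.hρ
    have g3 := p.hL1
    have g3' := p.hL2
    have hz : ∃ z : ℤ, p.EE i j = 2 ^ (2 * p.κ + 1) * z := by
      unfold EE
      have : ∀ t ∈ Icc (p.L + 1) (2 * p.κ), ∃ z : ℤ, ((4 ^ (t - j) * p.Nc (t - j) j : ℤ) : ℚ)
          * (4 ^ (t + i) * p.gg t i) = 2 ^ (2 * p.κ + 1) * z := by
        intro t ht
        rw [mem_Icc] at ht
        obtain ⟨z, hz⟩ := p.two_gg t i
        have e : (4 : ℚ) ^ (t - j) * 4 ^ (t + i)
            = 2 ^ (2 * p.κ + 1) * 2 ^ (2 * (t - j) + 2 * (t + i) - (2 * p.κ + 1) - p.ρ) * 2 ^ p.ρ := by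
          rw [← pow_add, ← pow_add, ← pow_add]
          have : (4 : ℚ) = 2 ^ 2 := by norm_num
          rw [this, ← pow_mul]
          congr 1
          omega
        refine ⟨2 ^ (2 * (t - j) + 2 * (t + i) - (2 * p.κ + 1) - p.ρ) * p.Nc (t - j) j * z, ?_⟩
        have : ((4 ^ (t - j) * p.Nc (t - j) j : ℤ) : ℚ) * (4 ^ (t + i) * p.gg t i)
            = (4 : ℚ) ^ (t - j) * 4 ^ (t + i) * p.Nc (t - j) j * p.gg t i := by push_cast; ring
        rw [this, e]
        push_cast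
        rw [← hz]
        ring
      choose! f hf using this
      refine ⟨∑ t ∈ Icc (p.L + 1) (2 * p.κ), f t, ?_⟩
      rw [sum_congr rfl hf]
      push_cast
      rw [mul_sum]
    obtain ⟨z, hz⟩ := hz
    have := vq_ge_of_eq _ _ hz
    rcases this with h | h
    · left; exact h
    · right; push_cast at h; exact h

/-- positivity of the partial sums of the slopes -/
theorem F_pos (P : ℕ) (hP1 : 1 ≤ P) (hP2 : P ≤ p.d) : 0 < p.F P := by
  have g1 := p.hd1
  have g1' := p.hd2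
  have g2 := p.hρ
  have g3 := p.hL1
  have g3' := p.hL2
  have hdL := dL p (by omega)
  obtain ⟨h1, h2⟩ := p.det_O11 P hP2
  -- the matrix of coefficients
  set U : Matrix (Fin P) (Fin P) ℚ := fun a b =>
    if a ≤ b then 4 ^ ((b : ℕ) - a) * (p.RR (a + 1) (b + 1) : ℚ) else 0 with hU
  have hUdet : U.det = 1 := by
    rw [det_of_isUpperTriangular (M := U)]
    · apply prod_eq_one
      intro a _
      rw [hU]; simp [p.RR_diag]
    · intro a b hab
      rw [hU]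
      simp only [id] at hab
      simp [not_le.2 hab]
  have hGz : ∀ a b : Fin P, ∃ z : ℤ, (4 : ℚ) ^ ((b : ℕ) + 1 + (a + 1)) * p.gg (b + 1) (a + 1)
      = 2 * z := by
    intro a b
    obtain ⟨z, hz⟩ := p.two_gg (b + 1) (a + 1)
    refine ⟨2 ^ (2 * ((b : ℕ) + 1 + (a + 1)) - 1 - p.ρ) * z, ?_⟩
    have e : (4 : ℚ) ^ ((b : ℕ) + 1 + (a + 1))
        = 2 * 2 ^ (2 * ((b : ℕ) + 1 + (a + 1)) - 1 - p.ρ) * 2 ^ p.ρ := by
      rw [← pow_succ', ← pow_add]
      have : (4 : ℚ) = 2 ^ 2 := by norm_num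
      rw [this, ← pow_mul]
      congr 1
      omega
    rw [e]; push_cast; rw [← hz]; ring
  choose Z hZ using hGz
  set Zm : Matrix (Fin P) (Fin P) ℤ := fun a b => Z a b with hZm
  have hprod : p.O11 P * U = (2 : ℚ) • Zm.map (Int.castRingHom ℚ) := by
    ext a b
    rw [Matrix.mul_apply, Matrix.smul_apply, Matrix.map_apply]
    have h3 : (Int.castRingHom ℚ) (Zm a b) = (Z a b : ℚ) := rfl
    rw [h3, smul_eq_mul, ← hZ a b, p.gg_eq (b + 1) (a + 1) (by omega) (by omega) (by omega)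
      (by omega)]
    unfold O11
    have h4 : ∀ s : Fin P, Om p.phi p.psi p.κ (a + 1) (s + 1) * U s b
        = (fun s' : ℕ => Om p.phi p.psi p.κ (a + 1) s' *
          (if s' ≤ (b : ℕ) + 1 then 4 ^ ((b : ℕ) + 1 - s') * (p.RR s' (b + 1) : ℚ) else 0))
            (s + 1) := by
      intro s
      rw [hU]
      simp only
      congr 1
      have e2 : (b : ℕ) + 1 - (s + 1) = b - s := by omega
      rw [e2]
      by_cases hsb : s ≤ b
      · rw [if_pos hsb, if_pos (by have : (s : ℕ) ≤ b := hsb; omega)]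
      · rw [if_neg hsb, if_neg (by
          have : ¬ (s : ℕ) ≤ b := hsb
          omega)]
    rw [sum_congr rfl (fun s _ => h4 s), sum_Fin_Icc P (fun s' : ℕ => Om p.phi p.psi p.κ (a + 1) s' *
          (if s' ≤ (b : ℕ) + 1 then 4 ^ ((b : ℕ) + 1 - s') * (p.RR s' (b + 1) : ℚ) else 0))]
    symm
    have h5 : ∑ s ∈ Icc 1 ((b : ℕ) + 1), Om p.phi p.psi p.κ ((a + 1 : ℕ) : ℕ) s *
        (4 ^ ((b : ℕ) + 1 - s) * (p.RR s (b + 1) : ℚ))
        = ∑ s ∈ Icc 1 ((b : ℕ) + 1), Om p.phi p.psi p.κ (a + 1) s *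
          (if s ≤ (b : ℕ) + 1 then 4 ^ ((b : ℕ) + 1 - s) * (p.RR s (b + 1) : ℚ) else 0) := by
      apply sum_congr rfl
      intro s hs
      rw [mem_Icc] at hs
      rw [if_pos hs.2]
    rw [h5]
    apply sum_subset
    · intro x; simp only [mem_Icc]; omega
    · intro s hs hs'
      rw [mem_Icc] at hs hs'
      rw [if_neg (by omega), mul_zero]
  have hdet : (p.O11 P).det = 2 ^ P * ((Zm.det : ℤ) : ℚ) := by
    have h6 := congrArg det hprod
    rw [det_mul, hUdet, mul_one, det_smul, Fintype.card_fin] at h6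
    rw [h6]
    congr 1
    have := RingHom.map_det (Int.castRingHom ℚ) Zm
    rw [RingHom.mapMatrix_apply] at this
    rw [← this]; rfl
  have := vq_ge_of_eq P _ hdet
  rcases this with h | h
  · exact absurd h h2
  · rw [h1] at h; omega

end Par

end Pool.Agent.helper83.BC
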