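import Pool.Agent.helper83.BCPoly

set_option autoImplicit false

namespace Pool.Agent.helper83.BC

open Finset

lemma sum_Icc_shift {M : Type*} [AddCommMonoid M] (j K : ℕ) (f : ℕ → M) :
    ∑ t ∈ Icc j K, f t = ∑ l ∈ range (K + 1 - j), f (j + l) := by
  refine sum_bij' (fun t _ => t - j) (fun l _ => j + l) ?_ ?_ ?_ ?_ ?_
  · intro a ha; rw [mem_Icc] at ha; rw [mem_range]; omega
  · intro a ha; rw [mem_range] at ha; rw [mem_Icc]; omega
  · intro a ha; rw [mem_Icc] at ha; omega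
  · intro a ha; omega
  · intro a ha
    rw [mem_Icc] at ha
    congr 1; omega

namespace Par

variable (p : Par)

/-- `κ' = κ + ρ - 1` -/
def kk : ℕ := p.κ + p.ρ - 1

def w0 : ℚ := if p.ρ = 1 then 3 / 2 else 33

/-- the matrix as it comes from the modular forms -/
def MM (i j : ℕ) : ℚ := 4 ^ (i + j) * ∑ l ∈ range (p.kk - 3 * j + 1),
  ((p.kk - 3 * j).choose l : ℚ) * 16 ^ l * muc p.w0 (j + l) (p.kk - (j + l)) i

lemma muc_even (hr : p.ρ = 1) (t i : ℕ) (ht : t ≤ p.kk) :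
    muc p.w0 t (p.kk - t) i = p.gg t i := by
  have hk : p.kk = p.κ := by unfold kk; omega
  unfold muc gg w0
  rw [if_pos hr, if_pos hr, hk]
  rw [hk] at ht
  have e1 : ((p.κ - t : ℕ) : ℤ) - i - 1 = (p.κ : ℤ) - t - i - 1 := by omega
  have e2 : (t : ℤ) + ((p.κ - t : ℕ) : ℤ) - 3 * i = (p.κ : ℤ) - 3 * i := by omega
  rw [e1, e2]

lemma muc_odd (hκ : 1 ≤ p.κ) (hr : p.ρ = 0) (t i : ℕ) (ht : t ≤ p.kk) :
    muc p.w0 t (p.kk - t) i = p.gg t i - 32 * p.gg (t + 1) i := by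
  have hk : p.kk = p.κ - 1 := by unfold kk; omega
  unfold muc gg w0
  rw [hr]
  simp only [zero_ne_one, if_false]
  rw [hk] at ht ⊢
  have e1 : ((p.κ - 1 - t : ℕ) : ℤ) - i - 1 = (p.κ : ℤ) - t - i - 2 := by omega
  have e2 : (t : ℤ) + ((p.κ - 1 - t : ℕ) : ℤ) - 3 * i = (p.κ : ℤ) - 1 - 3 * i := by omega
  have e3 : (p.κ : ℤ) - t - i - 1 = ((p.κ : ℤ) - t - i - 2) + 1 := by ring
  have e4 : (p.κ : ℤ) - ((t + 1 : ℕ) : ℤ) - i - 1 = (p.κ : ℤ) - t - i - 2 := by push_cast; ring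
  rw [e1, e2, e3, e4, bz_pascal, pow_succ]
  push_cast
  ring

lemma TT_shift (i j : ℕ) : p.TT i j = ∑ l ∈ range (2 * p.κ + 1 - j),
    (p.Nc l j : ℚ) * (4 ^ (i + j) * 16 ^ l * p.gg (j + l) i) := by
  unfold TT
  rw [sum_Icc_shift]
  apply sum_congr rfl
  intro l _
  have e : j + l - j = l := by omega
  have e2 : (16 : ℚ) ^ l = 4 ^ l * 4 ^ l := by rw [← mul_pow]; norm_num
  rw [e, e2]
  push_cast
  rw [show j + l + i = (i + j) + l by ring, pow_add (4 : ℚ) (i + j) l]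
  ring

theorem MM_eq (i j : ℕ) (hi1 : 1 ≤ i) (hi : i ≤ p.d) (hj1 : 1 ≤ j) (hj : j ≤ p.d) :
    p.MM i j = p.TT i j := by
  have g1 := p.hd1
  have g2 := p.hρ
  rw [TT_shift]
  unfold MM
  rw [mul_sum]
  interval_cases hr : p.ρ
  · -- odd case
    have hk : p.kk = p.κ - 1 := by unfold kk; omega
    have hn : (p.κ : ℤ) - 1 - 3 * j = ((p.kk - 3 * j : ℕ) : ℤ) := by omega
    set n := p.kk - 3 * j with hndef
    have hNc : ∀ l : ℕ, (p.Nc l j : ℚ) = (n.choose l : ℚ)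
        - 2 * (bz (n : ℤ) ((l : ℤ) - 1) : ℚ) := by
      intro l
      unfold Nc
      rw [hr]
      simp only [zero_ne_one, if_false]
      rw [hn, bz_nat]; push_cast; ring
    have h1 : ∑ l ∈ range (2 * p.κ + 1 - j), (p.Nc l j : ℚ) *
        (4 ^ (i + j) * 16 ^ l * p.gg (j + l) i)
        = ∑ l ∈ range (2 * p.κ + 1 - j), (n.choose l : ℚ) *
          (4 ^ (i + j) * 16 ^ l * p.gg (j + l) i)
        - 2 * ∑ l ∈ range (2 * p.κ + 1 - j), (bz (n : ℤ) ((l : ℤ) - 1) : ℚ) *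
          (4 ^ (i + j) * 16 ^ l * p.gg (j + l) i) := by
      rw [mul_sum, ← sum_sub_distrib]
      apply sum_congr rfl
      intro l _
      rw [hNc]; ring
    rw [h1]
    have h2 : ∑ l ∈ range (2 * p.κ + 1 - j), (n.choose l : ℚ) *
          (4 ^ (i + j) * 16 ^ l * p.gg (j + l) i)
        = ∑ l ∈ range (n + 1), (n.choose l : ℚ) *
          (4 ^ (i + j) * 16 ^ l * p.gg (j + l) i) := by
      symm
      apply sum_subset
      · intro x; simp only [mem_range]; omega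
      · intro l _ hl
        rw [mem_range] at hl
        rw [Nat.choose_eq_zero_of_lt (by omega)]; simp
    have h3 : ∑ l ∈ range (2 * p.κ + 1 - j), (bz (n : ℤ) ((l : ℤ) - 1) : ℚ) *
          (4 ^ (i + j) * 16 ^ l * p.gg (j + l) i)
        = ∑ l ∈ range (n + 1), (n.choose l : ℚ) *
          (4 ^ (i + j) * 16 ^ (l + 1) * p.gg (j + l + 1) i) := by
      have h4 : ∑ l ∈ range (2 * p.κ + 1 - j), (bz (n : ℤ) ((l : ℤ) - 1) : ℚ) *
          (4 ^ (i + j) * 16 ^ l * p.gg (j + l) i)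
          = ∑ l ∈ range (n + 1 + 1), (bz (n : ℤ) ((l : ℤ) - 1) : ℚ) *
          (4 ^ (i + j) * 16 ^ l * p.gg (j + l) i) := by
        symm
        apply sum_subset
        · intro x; simp only [mem_range]; omega
        · intro l _ hl
          rw [mem_range] at hl
          have e : (l : ℤ) - 1 = ((l - 1 : ℕ) : ℤ) := by omega
          rw [e, bz_nat, Nat.choose_eq_zero_of_lt (by omega)]; simp
      rw [h4, sum_range_succ']
      rw [bz_neg _ _ (by norm_num)]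
      have h5 : ∀ l ∈ range (n + 1), (bz (n : ℤ) (((l + 1 : ℕ) : ℤ) - 1) : ℚ) *
          (4 ^ (i + j) * 16 ^ (l + 1) * p.gg (j + (l + 1)) i)
          = (n.choose l : ℚ) * (4 ^ (i + j) * 16 ^ (l + 1) * p.gg (j + l + 1) i) := by
        intro l _
        have e : ((l + 1 : ℕ) : ℤ) - 1 = (l : ℤ) := by push_cast; ring
        rw [e, bz_nat]; rfl
      rw [sum_congr rfl h5]; simp
    rw [h2, h3, mul_sum, ← sum_sub_distrib]
    apply sum_congr rfl
    intro l hl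
    rw [mem_range] at hl
    rw [p.muc_odd (by omega) hr (j + l) i (by omega), pow_succ]
    ring
  · -- even case
    have hk : p.kk = p.κ := by unfold kk; omega
    have hn : (p.κ : ℤ) - 3 * j = ((p.kk - 3 * j : ℕ) : ℤ) := by omega
    set n := p.kk - 3 * j with hndef
    have hNc : ∀ l : ℕ, (p.Nc l j : ℚ) = (n.choose l : ℚ) := by
      intro l
      unfold Nc
      rw [hr]
      simp only [if_true]
      rw [hn, bz_nat]; push_cast; rfl
    have h2 : ∑ l ∈ range (2 * p.κ + 1 - j), (p.Nc l j : ℚ) *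
          (4 ^ (i + j) * 16 ^ l * p.gg (j + l) i)
        = ∑ l ∈ range (n + 1), (p.Nc l j : ℚ) *
          (4 ^ (i + j) * 16 ^ l * p.gg (j + l) i) := by
      symm
      apply sum_subset
      · intro x; simp only [mem_range]; omega
      · intro l _ hl
        rw [mem_range] at hl
        rw [hNc, Nat.choose_eq_zero_of_lt (by omega)]; simp
    rw [h2]
    apply sum_congr rfl
    intro l hl
    rw [mem_range] at hl
    rw [hNc, p.muc_even hr (j + l) i (by omega)]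
    ring

theorem MM_zero (j : ℕ) (hj1 : 1 ≤ j) (hj : j ≤ p.d) : p.MM 0 j = 0 := by
  have g1 := p.hd1
  have g2 := p.hρ
  unfold MM
  rw [sum_eq_zero, mul_zero]
  intro l hl
  rw [mem_range] at hl
  have hk : p.kk = p.κ + p.ρ - 1 := rfl
  have : muc p.w0 (j + l) (p.kk - (j + l)) 0 = 0 := by
    unfold muc
    have e1 : ((p.kk - (j + l) : ℕ) : ℤ) - ((0 : ℕ) : ℤ) - 1 = ((p.kk - (j + l) - 1 : ℕ) : ℤ) := by
      omega
    have e2 : ((j + l : ℕ) : ℤ) + ((p.kk - (j + l) : ℕ) : ℤ) - 3 * ((0 : ℕ) : ℤ)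
        = ((p.kk : ℕ) : ℤ) := by omega
    have e3 : ((p.kk : ℕ) : ℤ) - 1 = ((p.kk - 1 : ℕ) : ℤ) := by omega
    rw [e1, e2, e3, bz_nat, bz_nat, Nat.choose_eq_zero_of_lt (by omega),
      Nat.choose_eq_zero_of_lt (by omega)]
    simp
  rw [this, mul_zero]

end Par

end Pool.Agent.helper83.BC
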