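import Mathlib

set_option autoImplicit false

namespace Pool.Agent.helper83.BC

open Polynomial Finset

/-- partial fractions -/
lemma PFk (S : Finset ℕ) (k x : ℚ) (P : ℚ[X]) (hdeg : P.degree < #S)
    (hx : ∀ t ∈ S, k - x - t ≠ 0) :
    P.eval x / ∏ t ∈ S, (k - x - t) =
      ∑ t ∈ S, P.eval (k - t) / ((∏ s ∈ S.erase t, ((t : ℚ) - s)) * (k - x - t)) := by
  have hinj : Set.InjOn (fun t : ℕ => k - (t : ℚ)) S := by
    intro a _ b _ hab
    have : (a : ℚ) = b := by simpa using hab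
    exact_mod_cast this
  have h1 := Lagrange.eq_interpolate (v := fun t : ℕ => k - (t : ℚ)) hinj hdeg
  have h2 := Lagrange.eval_interpolate_not_at_node (s := S) (v := fun t : ℕ => k - (t : ℚ))
    (fun i => P.eval (k - (i : ℚ))) (x := x) (by
      intro i hi h
      apply hx i hi
      rw [h]; ring)
  rw [← h1] at h2
  rw [h2, Lagrange.eval_nodal]
  have h3 : ∏ i ∈ S, (x - (k - (i : ℚ))) = (-1) ^ #S * ∏ t ∈ S, (k - x - t) := by
    rw [← prod_const, ← prod_mul_distrib]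
    apply prod_congr rfl
    intro i _; ring
  rw [h3]
  have hne : ∏ t ∈ S, (k - x - (t : ℚ)) ≠ 0 := prod_ne_zero_iff.2 hx
  rw [mul_comm, ← mul_assoc, mul_div_assoc, div_self hne, mul_one, Finset.sum_mul]
  apply sum_congr rfl
  intro t ht
  unfold Lagrange.nodalWeight
  have h4 : ∏ j ∈ S.erase t, ((k - (t : ℚ)) - (k - (j : ℚ)))⁻¹
      = (-1) ^ (#S - 1) * (∏ s ∈ S.erase t, ((t : ℚ) - s))⁻¹ := by
    rw [← card_erase_of_mem ht, ← prod_const, ← prod_inv_distrib, ← prod_mul_distrib]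
    apply prod_congr rfl
    intro i _
    have : (k - (t : ℚ)) - (k - (i : ℚ)) = -((t : ℚ) - i) := by ring
    rw [this, inv_neg]; ring
  simp only
  rw [h4]
  have h5 : x - (k - (t : ℚ)) = -(k - x - t) := by ring
  rw [h5, inv_neg]
  have hcard : 1 ≤ #S := card_pos.2 ⟨t, ht⟩
  obtain ⟨m, hm⟩ := Nat.exists_eq_add_of_le hcard
  rw [hm, Nat.add_sub_cancel_left, pow_add, pow_one]
  have h6 : ((-1 : ℚ) ^ m) * (-1) ^ m = 1 := by
    rw [← mul_pow]; simp
  have h7 : ∏ s ∈ S.erase t, ((t : ℚ) - s) ≠ 0 := by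
    apply prod_ne_zero_iff.2
    intro s hs h
    have : (t : ℚ) = s := by linarith
    have : t = s := by exact_mod_cast this
    exact (mem_erase.1 hs).1 this.symm
  have h8 := hx t ht
  field_simp
  linear_combination (P.eval (k - (t : ℚ))) * h6

/-- product of differences -/
def num (n i : ℕ) : ℚ := ∏ s ∈ (Icc 1 n).erase i, ((i : ℚ) - s)
def den (k : ℚ) (n i : ℕ) : ℚ := ∏ s ∈ Icc 1 n, (k - i - s)

lemma num_ne_zero (n i : ℕ) : num n i ≠ 0 := by
  apply prod_ne_zero_iff.2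
  intro s hs h
  have : (i : ℚ) = s := by linarith
  have : i = s := by exact_mod_cast this
  exact (mem_erase.1 hs).1 this.symm

section

variable (φ ψ : ℕ → ℚ) (k : ℚ)

def Om (i t : ℕ) : ℚ := φ i * ψ t / (k - i - t)
def Ra (n i : ℕ) : ℚ := φ i * num n i / den k n i

lemma eval_prod_X_sub (S : Finset ℕ) (x : ℚ) :
    (∏ s ∈ S, (X - C (s : ℚ))).eval x = ∏ s ∈ S, (x - s) := by
  rw [eval_prod]; simp

lemma degree_prod_X_sub (S : Finset ℕ) :
    (∏ s ∈ S, (X - C (s : ℚ))).degree = ((#S : ℕ) : WithBot ℕ) := by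
  rw [degree_prod]
  have : ∀ s ∈ S, (X - C (s : ℚ)).degree = 1 := fun s _ => degree_X_sub_C _
  rw [sum_congr rfl this]; simp

/-- the basic identity for the inverse of a Cauchy matrix -/
lemma cauchy_inv (n i i' : ℕ) (hi' : i' ∈ Icc 1 n)
    (hφ' : φ i' ≠ 0) (hψ : ∀ t ∈ Icc 1 n, ψ t ≠ 0)
    (h1 : ∀ t ∈ Icc 1 n, k - i - t ≠ 0) (h2 : ∀ s ∈ Icc 1 n, ∀ t ∈ Icc 1 n, k - s - t ≠ 0) :
    ∑ t ∈ Icc 1 n, Om φ ψ k i t * (1 / (Ra φ k n i' * Ra ψ k n t * (k - i' - t)))
      = if i = i' then 1 else if i ∈ Icc 1 n then 0 else Ra φ k n i / ((i - i') * Ra φ k n i') := by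
  have hn : 1 ≤ n := by rw [mem_Icc] at hi'; omega
  have hP := PFk (Icc 1 n) k i (∏ s ∈ (Icc 1 n).erase i', (X - C (s : ℚ))) (by
    rw [degree_prod_X_sub, card_erase_of_mem hi']
    simp only [Nat.card_Icc]
    norm_cast
    omega) h1
  rw [eval_prod_X_sub] at hP
  have hden : ∀ i₀ : ℕ, (∀ t ∈ Icc 1 n, k - i₀ - t ≠ 0) → den k n i₀ ≠ 0 := by
    intro i₀ h; exact prod_ne_zero_iff.2 h
  have hden' := hden i' (h2 i' hi')
  have hterm : ∀ t ∈ Icc 1 n, Om φ ψ k i t * (1 / (Ra φ k n i' * Ra ψ k n t * (k - i' - t)))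
      = (φ i / Ra φ k n i') * (eval (k - (t : ℚ)) (∏ s ∈ (Icc 1 n).erase i', (X - C (s : ℚ))) /
        ((∏ s ∈ (Icc 1 n).erase t, ((t : ℚ) - s)) * (k - i - t))) := by
    intro t ht
    rw [eval_prod_X_sub]
    have e1 : den k n t = (k - i' - t) * ∏ s ∈ (Icc 1 n).erase i', (k - t - (s : ℚ)) := by
      unfold den
      rw [← mul_prod_erase _ _ hi']
      congr 1; ring
    have e2 : ∏ s ∈ (Icc 1 n).erase t, ((t : ℚ) - s) = num n t := rfl
    rw [e2]
    have g1 := hψ t ht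
    have g2 := h1 t ht
    have g3 := h2 i' hi' t ht
    have g4 : ∏ s ∈ (Icc 1 n).erase i', (k - t - (s : ℚ)) ≠ 0 := by
      apply prod_ne_zero_iff.2
      intro s hs
      exact h2 t ht s (mem_of_mem_erase hs)
    have g5 := num_ne_zero n t
    have g6 := num_ne_zero n i'
    unfold Om Ra
    rw [e1]
    field_simp
  rw [sum_congr rfl hterm, ← mul_sum, ← hP]
  have g6 := num_ne_zero n i'
  split_ifs with hc1 hc2
  · subst hc1
    unfold Ra
    have e3 : ∏ s ∈ (Icc 1 n).erase i, ((i : ℚ) - s) = num n i := rfl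
    have e4 : ∏ t ∈ Icc 1 n, (k - (i : ℚ) - t) = den k n i := rfl
    rw [e3, e4]
    field_simp
  · have : ∏ s ∈ (Icc 1 n).erase i', ((i : ℚ) - s) = 0 := by
      apply prod_eq_zero (mem_erase.2 ⟨hc1, hc2⟩)
      simp
    rw [this]; simp
  · have e5 : num n i = ((i : ℚ) - i') * ∏ s ∈ (Icc 1 n).erase i', ((i : ℚ) - s) := by
      unfold num
      rw [erase_eq_of_notMem hc2, ← mul_prod_erase _ _ hi']
    have e4 : ∏ t ∈ Icc 1 n, (k - (i : ℚ) - t) = den k n i := rfl
    rw [e4]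
    have g7 : ((i : ℚ) - i') ≠ 0 := by
      intro h
      apply hc1
      have : (i : ℚ) = i' := by linarith
      exact_mod_cast this
    have g8 := hden i h1
    unfold Ra
    rw [e5]
    field_simp

/-- the Schur complement of a Cauchy matrix -/
lemma cauchy_schur (n i t : ℕ) (hi : i ∉ Icc 1 n) (ht : t ∉ Icc 1 n)
    (hφ' : ∀ s ∈ Icc 1 n, φ s ≠ 0)
    (h0 : k - i - t ≠ 0)
    (h1 : ∀ s ∈ Icc 1 n, k - i - s ≠ 0) (h1' : ∀ s ∈ Icc 1 n, k - t - s ≠ 0)
    (h2 : ∀ s ∈ Icc 1 n, ∀ t ∈ Icc 1 n, k - s - t ≠ 0) :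
    Om φ ψ k i t = (∑ s ∈ Icc 1 n, Ra φ k n i / ((i - s) * Ra φ k n s) * Om φ ψ k s t)
      + Ra φ k n i * Ra ψ k n t / (k - i - t) := by
  have hP := PFk (insert i (Icc 1 n)) k t (∏ s ∈ (Icc 1 n), (X - C (s : ℚ))) (by
    rw [degree_prod_X_sub, card_insert_of_notMem hi]
    norm_cast
    omega) (by
      intro s hs
      rcases mem_insert.1 hs with rfl | hs
      · intro h; apply h0; linarith
      · exact h1' s hs)
  rw [eval_prod_X_sub, sum_insert hi, prod_insert hi, eval_prod_X_sub, erase_insert hi] at hP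
  have hdi : den k n i ≠ 0 := prod_ne_zero_iff.2 h1
  have hdt : den k n t ≠ 0 := prod_ne_zero_iff.2 h1'
  have e1 : ∏ s ∈ Icc 1 n, (k - (i : ℚ) - s) = den k n i := rfl
  have e2 : ∏ s ∈ Icc 1 n, ((i : ℚ) - s) = num n i := by
    unfold num; rw [erase_eq_of_notMem hi]
  have e3 : ∏ s ∈ Icc 1 n, ((t : ℚ) - s) = num n t := by
    unfold num; rw [erase_eq_of_notMem ht]
  have e4 : ∏ s ∈ Icc 1 n, (k - (t : ℚ) - s) = den k n t := rfl
  rw [e1, e2, e3, e4] at hP
  have hterm : ∀ s ∈ Icc 1 n, eval (k - (s : ℚ)) (∏ s ∈ (Icc 1 n), (X - C (s : ℚ))) /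
        ((∏ r ∈ (insert i (Icc 1 n)).erase s, ((s : ℚ) - r)) * (k - t - s))
      = - (den k n s / ((i - s) * num n s * (k - t - s))) := by
    intro s hs
    have hne : i ≠ s := fun h => hi (h ▸ hs)
    rw [eval_prod_X_sub, erase_insert_of_ne hne, prod_insert (fun h => hi (mem_of_mem_erase h))]
    have e5 : ∏ r ∈ Icc 1 n, (k - (s : ℚ) - r) = den k n s := rfl
    have e6 : ∏ r ∈ (Icc 1 n).erase s, ((s : ℚ) - r) = num n s := rfl
    rw [e5, e6]
    have g7 : ((i : ℚ) - s) ≠ 0 := by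
      intro h
      apply hne
      have : (i : ℚ) = s := by linarith
      exact_mod_cast this
    have g8 : ((s : ℚ) - i) ≠ 0 := by
      intro h
      apply g7; linarith
    have g9 := num_ne_zero n s
    have g10 := h1' s hs
    have e7 : ((s : ℚ) - i) = -((i : ℚ) - s) := by ring
    rw [e7]
    field_simp
  rw [sum_congr rfl hterm, sum_neg_distrib] at hP
  have hterm2 : ∀ s ∈ Icc 1 n, Ra φ k n i / ((i - s) * Ra φ k n s) * Om φ ψ k s t
      = (φ i * ψ t * num n i / den k n i) * (den k n s / ((i - s) * num n s * (k - t - s))) := by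
    intro s hs
    have hne : i ≠ s := fun h => hi (h ▸ hs)
    have g7 : ((i : ℚ) - s) ≠ 0 := by
      intro h
      apply hne
      have : (i : ℚ) = s := by linarith
      exact_mod_cast this
    have g9 := num_ne_zero n s
    have g10 := h1' s hs
    have g11 : k - s - t ≠ 0 := by intro h; apply g10; linarith
    have g12 := hφ' s hs
    have g13 : den k n s ≠ 0 := prod_ne_zero_iff.2 (h2 s hs)
    have e8 : k - s - t = k - t - s := by ring
    unfold Ra Om
    rw [e8]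
    field_simp
  rw [sum_congr rfl hterm2, ← mul_sum]
  set SS := ∑ s ∈ Icc 1 n, (den k n s / (((i : ℚ) - s) * num n s * (k - t - s))) with hSS
  have g1 := num_ne_zero n i
  have g2 := num_ne_zero n t
  have g3 : k - t - i ≠ 0 := by intro h; apply h0; linarith
  have e9 : k - i - t = k - t - i := by ring
  unfold Om Ra
  rw [e9]
  have hSS2 : SS = den k n i / (num n i * (k - t - i)) - num n t / ((k - t - i) * den k n t) := by
    linarith
  rw [hSS2]
  field_simp
  ring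

end

end Pool.Agent.helper83.BC
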