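import Pool.Agent.helper83.BCVal

set_option autoImplicit false

namespace Pool.Agent.helper83.BC

open Finset

/-- valuation of `x!` for a nonnegative integer `x` -/
def H (x : ℤ) : ℤ := hh x.toNat

/-- 2-adic valuation of an integer (as an integer) -/
def vz (x : ℤ) : ℤ := vv x.natAbs

lemma vz_nonneg (x : ℤ) : 0 ≤ vz x := vv_nonneg _
lemma vz_neg (x : ℤ) : vz (-x) = vz x := by simp [vz]
lemma vz_one : vz 1 = 0 := by simp [vz]

lemma vz_le (x : ℤ) (h : 1 ≤ x) : 2 * vz x ≤ x := by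
  rcases eq_or_ne x 1 with rfl | h1
  · rw [vz_one]; norm_num
  · have := vv_le_half x.natAbs (by omega)
    unfold vz
    omega

lemma H_nonneg (x : ℤ) : 0 ≤ H x := hh_nonneg _
lemma H_zero : H 0 = 0 := by simp [H]

lemma H_lower (x : ℤ) (h : 0 ≤ x) : x ≤ 2 * H x + 1 := by
  have := hh_lower x.toNat; unfold H; omega

lemma H_le (x : ℤ) (h : 0 ≤ x) : H x ≤ x := by
  have := hh_le x.toNat; unfold H; omega

lemma H_upper (x : ℤ) (h : 1 ≤ x) : H x ≤ x - 1 := by
  have := hh_upper x.toNat (by omega); unfold H; omega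

lemma H_add (x y : ℤ) (hx : 0 ≤ x) (hy : 0 ≤ y) : H x + H y ≤ H (x + y) := by
  have := hh_add x.toNat y.toNat
  unfold H
  have e : (x + y).toNat = x.toNat + y.toNat := by omega
  rw [e]; exact this

lemma H_three (x : ℤ) (h : 0 ≤ x) : 2 * H x + x ≤ H (3 * x) := by
  have := hh_three x.toNat
  unfold H
  have e : (3 * x).toNat = 3 * x.toNat := by omega
  rw [e]; omega

lemma H_choose (x y : ℤ) (hx : 0 ≤ x) (hy : 0 ≤ y) : 2 * (H (x + y) - H x - H y) ≤ x + y + 1 := by
  have := hh_choose x.toNat y.toNat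
  unfold H
  have e : (x + y).toNat = x.toNat + y.toNat := by omega
  rw [e]; omega

lemma H_pred (x : ℤ) (h : 1 ≤ x) : H x = H (x - 1) + vz x := by
  have := hh_succ (x - 1).toNat
  unfold H vz
  have e : x.toNat = (x - 1).toNat + 1 := by omega
  have e2 : x.natAbs = (x - 1).toNat + 1 := by omega
  rw [e, e2]; exact this

lemma H_mono (x y : ℤ) (h : x ≤ y) : H x ≤ H y := by
  unfold H; apply hh_mono; omega

lemma Vs_pos (p : ℤ) (h : 1 ≤ p) : Vs p = H (p - 1) := by
  unfold Vs H; rw [if_pos h]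

lemma Vs_nonpos (p : ℤ) (h : p ≤ 0) : Vs p = - H (-p) := by
  unfold Vs H; rw [if_neg (by omega)]

section W'

variable (B : ℕ)

lemma W_lower' (x y : ℤ) (hxy : x ≤ y) (hs : y - x < 2 ^ B) : H (y - x) ≤ W B y - W B x := by
  obtain ⟨n, hn⟩ := Int.eq_ofNat_of_zero_le (by omega : 0 ≤ y - x)
  have hy : y = x + n := by omega
  subst hy
  have h1 : (n : ℤ) < 2 ^ B := by omega
  have := W_lower B x n (by exact_mod_cast h1)
  unfold H
  have e : (x + n - x).toNat = n := by omega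
  rw [e]; exact this

/-- crude lower bound for a block containing a spike of height `≥ w` -/
lemma W_spike' (x t y : ℤ) (hx : x ≤ t) (hy : t < y) (hs : y - x < 2 ^ B) (w : ℕ)
    (hw : w ≤ vB B t) : 2 * (w : ℤ) + (y - x) - 3 ≤ 2 * (W B y - W B x) := by
  have h1 := W_lower' B x t hx (by omega)
  have h2 := W_succ B t
  have h3 := W_lower' B (t + 1) y (by omega) (by omega)
  have h4 := H_lower (t - x) (by omega)
  have h5 := H_lower (y - (t + 1)) (by omega)
  have : (w : ℤ) ≤ vB B t := by exact_mod_cast hw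
  omega

lemma W_upper' (z x y : ℤ) (hxy : x ≤ y) (h : ∀ t, x ≤ t → t < y → vB B t ≤ vB B z) :
    W B y - W B x ≤ Vs (y - z) - Vs (x - z) + (if x ≤ z ∧ z < y then (vB B z : ℤ) else 0) := by
  obtain ⟨n, hn⟩ := Int.eq_ofNat_of_zero_le (by omega : 0 ≤ y - x)
  have hy : y = x + n := by omega
  subst hy
  have := W_upper B z (x - z) n (fun i hi => h _ (by omega) (by omega))
  have e1 : z + (x - z + n) = x + n := by ring
  have e2 : z + (x - z) = x := by ring
  have e3 : x - z + n = x + n - z := by ring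
  rw [e1, e2, e3] at this
  have e4 : (if x - z ≤ 0 ∧ 0 < x + n - z then (vB B z : ℤ) else 0)
      = (if x ≤ z ∧ z < x + n then (vB B z : ℤ) else 0) := by
    congr 1; apply propext; constructor <;> (rintro ⟨a, b⟩; constructor <;> omega)
  rw [e4] at this
  exact this

/-- exact values of `W` near a spike -/
lemma W_exact' (z k : ℤ) (h : -2 ^ (vB B z) < k ∧ k ≤ 2 ^ (vB B z)) :
    W B (z + k) = W B z + Vs k + (if 1 ≤ k then (vB B z : ℤ) else 0) := by
  rcases le_or_gt 1 k with hk | hk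
  · obtain ⟨n, hn⟩ := Int.eq_ofNat_of_zero_le (by omega : 0 ≤ k)
    have hn : k = n := by simpa using hn
    subst hn
    have h' : (n : ℤ) ≤ 2 ^ (vB B z) := h.2
    have := W_exact B z 0 n (fun i hi => by
      have : i < 2 ^ (vB B z) := by
        have : n ≤ 2 ^ (vB B z) := by exact_mod_cast h'
        omega
      simpa using this)
    simp only [zero_add, add_zero, Vs_zero] at this
    rw [if_pos (by omega)] at this
    rw [if_pos hk]
    omega
  · obtain ⟨n, hn⟩ := Int.eq_ofNat_of_zero_le (by omega : 0 ≤ -k)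
    have hn : k = -(n : ℤ) := by omega
    subst hn
    have h' : (n : ℤ) < 2 ^ (vB B z) := by
      have := h.1; omega
    have := W_exact B z (-(n : ℤ)) n (fun i hi => by
      have h3 : n < 2 ^ (vB B z) := by exact_mod_cast h'
      have h4 : (-(n : ℤ) + (i : ℤ)).natAbs ≤ n := by omega
      omega)
    simp only [neg_add_cancel, add_zero, Vs_zero] at this
    rw [if_neg (by omega)] at this
    rw [if_neg (by omega)]
    omega

end W'

/-- the combinatorial data -/
structure Dat where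
  mu : ℤ
  al : ℤ
  be : ℤ
  c : ℤ
  hsum : al + be = 3 * mu

namespace Dat

variable (B : ℕ) (D : Dat)

def fa (p : ℤ) : ℤ := p - Vs p + W B (D.mu + 1 - p) - W B (D.al + 2 - 3 * p)
def fb (q : ℤ) : ℤ := q - Vs q + W B (D.mu + 1 - q) - W B (D.be + 2 - 3 * q)
def u (m : ℤ) : ℕ := vB B (D.mu + 1 - m)
def Tp (p q : ℤ) : ℤ := D.fa B p + D.fb B q + D.c - D.u B (p + q)
def Tm (p q : ℤ) : ℤ := D.fa B p + D.fb B q + D.c + D.u B (p + q)
def Xa (p p' : ℤ) : ℤ := D.fa B p - D.fa B p' - vz (p - p')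
def lam (j : ℤ) : ℤ := D.c + 2 * j + W B (D.mu + 2 - 2 * j) + W B (D.mu + 1 - 2 * j)
  - W B (D.al + 2 - 3 * j) - W B (D.be + 2 - 3 * j)
def Ap (P : ℕ) : ℤ := ∑ j ∈ range P, D.lam B ((j : ℤ) + 1)
def Bm (P : ℕ) : ℤ := ∑ j ∈ range P, D.lam B (-(j : ℤ))

/-- tail-freeness at level `w` for the steps `k₁ ≤ j < k₂`. -/
def TF (w : ℕ) (k₁ k₂ : ℤ) : Prop :=
  ∀ y : ℤ, D.al + 2 - 3 * k₂ ≤ y → y ≤ D.al + 1 - 3 * k₁ → vB B y < w

def swap : Dat := ⟨D.mu, D.be, D.al, D.c, by have := D.hsum; omega⟩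
def refl : Dat := ⟨-D.mu, -D.al, -D.be, -D.c - 2, by have := D.hsum; omega⟩

lemma swap_fa (p : ℤ) : D.swap.fa B p = D.fb B p := rfl
lemma swap_fb (p : ℤ) : D.swap.fb B p = D.fa B p := rfl
lemma swap_u (p : ℤ) : D.swap.u B p = D.u B p := rfl
lemma swap_Tp (p q : ℤ) : D.swap.Tp B p q = D.Tp B q p := by
  unfold Tp; rw [swap_fa, swap_fb, swap_u, add_comm p q]; simp only [swap]; ring
lemma swap_Tm (p q : ℤ) : D.swap.Tm B p q = D.Tm B q p := by
  unfold Tm; rw [swap_fa, swap_fb, swap_u, add_comm p q]; simp only [swap]; ring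
lemma swap_lam (p : ℤ) : D.swap.lam B p = D.lam B p := by
  unfold lam; simp only [swap]; ring
lemma swap_Ap (P : ℕ) : D.swap.Ap B P = D.Ap B P := by
  unfold Ap; simp only [swap_lam]
lemma swap_Bm (P : ℕ) : D.swap.Bm B P = D.Bm B P := by
  unfold Bm; simp only [swap_lam]

lemma refl_fa (p : ℤ) : D.refl.fa B p = 1 - D.fa B (1 - p) := by
  unfold fa
  simp only [refl]
  have h1 := W_one_sub B (D.mu + 1 - (1 - p))
  have h2 := W_one_sub B (D.al + 2 - 3 * (1 - p))
  have e1 : 1 - (D.mu + 1 - (1 - p)) = -D.mu + 1 - p := by ring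
  have e2 : 1 - (D.al + 2 - 3 * (1 - p)) = -D.al + 2 - 3 * p := by ring
  rw [e1] at h1
  rw [e2] at h2
  rw [h1, h2, Vs_one_sub]; ring

lemma refl_fb (p : ℤ) : D.refl.fb B p = 1 - D.fb B (1 - p) := by
  unfold fb
  simp only [refl]
  have h1 := W_one_sub B (D.mu + 1 - (1 - p))
  have h2 := W_one_sub B (D.be + 2 - 3 * (1 - p))
  have e1 : 1 - (D.mu + 1 - (1 - p)) = -D.mu + 1 - p := by ring
  have e2 : 1 - (D.be + 2 - 3 * (1 - p)) = -D.be + 2 - 3 * p := by ring
  rw [e1] at h1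
  rw [e2] at h2
  rw [h1, h2, Vs_one_sub]; ring

lemma refl_u (m : ℤ) : D.refl.u B m = D.u B (2 - m) := by
  unfold u
  simp only [refl]
  rw [← vB_neg]; congr 1; ring

lemma refl_Tp (p q : ℤ) : D.refl.Tp B p q = - D.Tm B (1 - p) (1 - q) := by
  unfold Tp Tm
  rw [refl_fa, refl_fb, refl_u]
  have : 1 - p + (1 - q) = 2 - (p + q) := by ring
  rw [this]; simp only [refl]; ring

lemma refl_Tm (p q : ℤ) : D.refl.Tm B p q = - D.Tp B (1 - p) (1 - q) := by
  unfold Tp Tm
  rw [refl_fa, refl_fb, refl_u]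
  have : 1 - p + (1 - q) = 2 - (p + q) := by ring
  rw [this]; simp only [refl]; ring

lemma refl_Xa (p p' : ℤ) : D.refl.Xa B p p' = D.Xa B (1 - p') (1 - p) := by
  unfold Xa
  rw [refl_fa, refl_fa]
  have : 1 - p' - (1 - p) = p - p' := by ring
  rw [this]; ring

lemma refl_lam (j : ℤ) : D.refl.lam B j = - D.lam B (1 - j) := by
  unfold lam
  simp only [refl]
  have h1 := W_one_sub B (D.mu + 2 - 2 * (1 - j))
  have h2 := W_one_sub B (D.mu + 1 - 2 * (1 - j))
  have h3 := W_one_sub B (D.al + 2 - 3 * (1 - j))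
  have h4 := W_one_sub B (D.be + 2 - 3 * (1 - j))
  have e1 : 1 - (D.mu + 2 - 2 * (1 - j)) = -D.mu + 1 - 2 * j := by ring
  have e2 : 1 - (D.mu + 1 - 2 * (1 - j)) = -D.mu + 2 - 2 * j := by ring
  have e3 : 1 - (D.al + 2 - 3 * (1 - j)) = -D.al + 2 - 3 * j := by ring
  have e4 : 1 - (D.be + 2 - 3 * (1 - j)) = -D.be + 2 - 3 * j := by ring
  rw [e1] at h1; rw [e2] at h2; rw [e3] at h3; rw [e4] at h4
  rw [h1, h2, h3, h4]; ring

lemma refl_Ap (P : ℕ) : D.refl.Ap B P = - D.Bm B P := by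
  unfold Ap Bm
  rw [← sum_neg_distrib]
  apply sum_congr rfl
  intro j _
  rw [refl_lam]; congr 2; ring

lemma refl_Bm (P : ℕ) : D.refl.Bm B P = - D.Ap B P := by
  unfold Ap Bm
  rw [← sum_neg_distrib]
  apply sum_congr rfl
  intro j _
  rw [refl_lam]; congr 2; ring

lemma refl_TF (w : ℕ) (k₁ k₂ : ℤ) : D.refl.TF B w k₁ k₂ ↔ D.TF B w (1 - k₂) (1 - k₁) := by
  unfold TF
  simp only [refl]
  constructor
  · intro h y h1 h2
    have := h (-y) (by omega) (by omega)
    rwa [vB_neg] at this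
  · intro h y h1 h2
    have := h (-y) (by omega) (by omega)
    rwa [vB_neg] at this

/-- the pairing between the tail numbers of rows and columns -/
lemma swap_TF (m : ℤ) (w : ℕ) (hw : w ≤ D.u B m) (k₁ k₂ : ℤ) :
    D.swap.TF B w k₁ k₂ ↔ D.TF B w (m - k₂) (m - k₁) := by
  have hs := D.hsum
  have hwB : w ≤ B := hw.trans (vB_le B _)
  have hz : (2:ℤ) ^ w ∣ D.mu + 1 - m := dvd_of_le_vB B hw
  have hz3 : (2:ℤ) ^ w ∣ 3 * (D.mu + 1 - m) := Dvd.dvd.mul_left hz 3
  have key : ∀ y, vB B y < w ↔ vB B (3 * (D.mu + 1 - m) - y) < w := by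
    intro y
    constructor
    · intro h
      have := vB_eq_of_dvd_sub B (x := y) (y := 3 * (D.mu + 1 - m) - y) (w := w)
        (by simpa using hz3) h hwB
      omega
    · intro h
      have := vB_eq_of_dvd_sub B (x := 3 * (D.mu + 1 - m) - y) (y := y) (w := w)
        (by simpa using hz3) h hwB
      omega
  unfold TF
  simp only [swap]
  constructor
  · intro h y h1 h2
    rw [key]
    exact h _ (by omega) (by omega)
  · intro h y h1 h2
    rw [key]
    exact h _ (by omega) (by omega)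

end Dat

end Pool.Agent.helper83.BC
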