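import Pool.Agent.helper83.BCLoc

set_option autoImplicit false

namespace Pool.Agent.helper83.BC

open Finset

/-- the least point where a function on an integer interval is maximal -/
lemma exists_argmax (f : ℤ → ℕ) (a b : ℤ) (hab : a ≤ b) :
    ∃ m, a ≤ m ∧ m ≤ b ∧ (∀ x, a ≤ x → x ≤ b → f x ≤ f m) ∧ (∀ x, a ≤ x → x < m → f x < f m) := by
  obtain ⟨n, hn⟩ := Int.eq_ofNat_of_zero_le (by omega : 0 ≤ b - a)
  have hb : b = a + n := by omega
  subst hb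
  clear hn hab
  induction n with
  | zero =>
    refine ⟨a, le_refl _, by simp, ?_, ?_⟩
    · intro x h1 h2
      have : x = a := by simp at h2; omega
      rw [this]
    · intro x h1 h2; omega
  | succ k ih =>
    obtain ⟨m, h1, h2, h3, h4⟩ := ih
    rcases le_or_gt (f (a + (k + 1 : ℕ))) (f m) with h | h
    · refine ⟨m, h1, by push_cast; omega, ?_, h4⟩
      intro x hx1 hx2
      rcases eq_or_ne x (a + (k + 1 : ℕ)) with rfl | hne
      · exact h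
      · exact h3 x hx1 (by push_cast at hx2 hne; omega)
    · refine ⟨a + (k + 1 : ℕ), by push_cast; omega, le_refl _, ?_, ?_⟩
      · intro x hx1 hx2
        rcases eq_or_ne x (a + (k + 1 : ℕ)) with rfl | hne
        · exact le_refl _
        · exact (h3 x hx1 (by push_cast at hx2 hne; omega)).trans h.le
      · intro x hx1 hx2
        exact lt_of_le_of_lt (h3 x hx1 (by push_cast at hx2; omega)) h

namespace Dat

variable (B : ℕ) (D : Dat)

lemma fa_sub (p₁ p₂ : ℤ) : D.fa B p₂ - D.fa B p₁ = (p₂ - p₁) - (Vs p₂ - Vs p₁)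
    - (W B (D.mu + 1 - p₁) - W B (D.mu + 1 - p₂))
    + (W B (D.al + 2 - 3 * p₁) - W B (D.al + 2 - 3 * p₂)) := by
  unfold fa; ring

/-- block of `u` not containing the spike, to the left of the spike index -/
lemma blk_out (m p₁ p₂ : ℤ) (h12 : p₁ ≤ p₂) (hm : p₂ < m)
    (hu : ∀ x, p₁ + 1 ≤ x → x ≤ p₂ → D.u B x ≤ D.u B m) :
    W B (D.mu + 1 - p₁) - W B (D.mu + 1 - p₂) ≤ H (m - p₁ - 1) - H (m - p₂ - 1) := by
  have h := W_upper' B (D.mu + 1 - m) (D.mu + 1 - p₂) (D.mu + 1 - p₁) (by omega) (by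
    intro t ht1 ht2
    have := hu (D.mu + 1 - t) (by omega) (by omega)
    unfold u at this
    have e : D.mu + 1 - (D.mu + 1 - t) = t := by ring
    rwa [e] at this)
  rw [if_neg (by omega)] at h
  have e1 : D.mu + 1 - p₁ - (D.mu + 1 - m) = m - p₁ := by ring
  have e2 : D.mu + 1 - p₂ - (D.mu + 1 - m) = m - p₂ := by ring
  rw [e1, e2, Vs_pos _ (by omega), Vs_pos _ (by omega)] at h
  omega

/-- block of `u` containing the spike -/
lemma blk_in (m p₁ p₂ : ℤ) (h1 : p₁ < m) (h2 : m ≤ p₂)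
    (hu : ∀ x, p₁ + 1 ≤ x → x ≤ p₂ → D.u B x ≤ D.u B m) :
    W B (D.mu + 1 - p₁) - W B (D.mu + 1 - p₂) ≤ H (m - p₁ - 1) + H (p₂ - m) + D.u B m := by
  have h := W_upper' B (D.mu + 1 - m) (D.mu + 1 - p₂) (D.mu + 1 - p₁) (by omega) (by
    intro t ht1 ht2
    have := hu (D.mu + 1 - t) (by omega) (by omega)
    unfold u at this
    have e : D.mu + 1 - (D.mu + 1 - t) = t := by ring
    rwa [e] at this)
  rw [if_pos (by omega)] at h
  have e1 : D.mu + 1 - p₁ - (D.mu + 1 - m) = m - p₁ := by ring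
  have e2 : D.mu + 1 - p₂ - (D.mu + 1 - m) = m - p₂ := by ring
  rw [e1, e2, Vs_pos _ (by omega), Vs_nonpos _ (by omega)] at h
  have e3 : -(m - p₂) = p₂ - m := by ring
  rw [e3] at h
  unfold u
  omega

lemma tail_low (p₁ p₂ : ℤ) (h12 : p₁ ≤ p₂) (hB : 3 * (p₂ - p₁) < 2 ^ B) :
    2 * H (p₂ - p₁) + (p₂ - p₁) ≤ W B (D.al + 2 - 3 * p₁) - W B (D.al + 2 - 3 * p₂) := by
  have h := W_lower' B (D.al + 2 - 3 * p₂) (D.al + 2 - 3 * p₁) (by omega) (by omega)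
  have e : D.al + 2 - 3 * p₁ - (D.al + 2 - 3 * p₂) = 3 * (p₂ - p₁) := by ring
  rw [e] at h
  have := H_three (p₂ - p₁) (by omega)
  omega

lemma tail_spike (p₁ p₂ y : ℤ) (w : ℕ) (h1 : D.al + 2 - 3 * p₂ ≤ y) (h2 : y ≤ D.al + 1 - 3 * p₁)
    (hw : w ≤ vB B y) (hB : 3 * (p₂ - p₁) < 2 ^ B) :
    2 * (w : ℤ) + 3 * (p₂ - p₁) - 3 ≤
      2 * (W B (D.al + 2 - 3 * p₁) - W B (D.al + 2 - 3 * p₂)) := by
  have h := W_spike' B (D.al + 2 - 3 * p₂) y (D.al + 2 - 3 * p₁) (by omega) (by omega) (by omega)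
    w hw
  omega

lemma u_le (m x : ℤ) (hne : x ≠ m) (hu : D.u B x ≤ D.u B m) :
    (D.u B x : ℤ) ≤ vz (x - m) := by
  unfold u at hu ⊢
  have h := vB_add_le B (z := D.mu + 1 - m) (i := m - x) (by omega) (by
    have e : D.mu + 1 - m + (m - x) = D.mu + 1 - x := by ring
    rw [e]; exact hu)
  have e : D.mu + 1 - m + (m - x) = D.mu + 1 - x := by ring
  rw [e] at h
  rw [← vz_neg]
  unfold vz
  have e2 : -(x - m) = m - x := by ring
  rw [e2]; exact h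

lemma u_eq (m x : ℤ) (hne : x ≠ m) (hu : |x - m| < 2 ^ (D.u B m)) :
    (D.u B x : ℤ) = vz (x - m) := by
  unfold u at hu ⊢
  have h := vB_add_eq B (z := D.mu + 1 - m) (i := m - x) (w := vB B (D.mu + 1 - m))
    (by omega) (le_refl _) (by
    rw [abs_lt] at hu
    have h3 : ((m - x).natAbs : ℤ) < 2 ^ vB B (D.mu + 1 - m) := by
      rw [Int.natCast_natAbs, abs_lt]; constructor <;> omega
    exact_mod_cast h3)
  have e : D.mu + 1 - m + (m - x) = D.mu + 1 - x := by ring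
  rw [e] at h
  rw [← vz_neg]
  unfold vz
  have e2 : -(x - m) = m - x := by ring
  rw [e2]; exact h

/-- reflection of spikes in tails between rows and columns -/
lemma spike_swap (m y : ℤ) (w : ℕ) (hw : w ≤ D.u B m) (hy : w ≤ vB B y) :
    w ≤ vB B (3 * (D.mu + 1 - m) - y) := by
  have hwB : w ≤ B := hw.trans (vB_le B _)
  apply le_vB B hwB
  apply dvd_sub
  · exact Dvd.dvd.mul_left (dvd_of_le_vB B hw) 3
  · exact dvd_of_le_vB B hy

/-- Case I -/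
lemma caseI (p q m : ℤ) (hp : 1 ≤ p) (hq : 1 ≤ q) (hpm : p < m) (hqm : q < m) (hm : m < p + q)
    (hu : ∀ x, 2 ≤ x → x ≤ p + q → D.u B x ≤ D.u B m) (hB : 3 * (p + q) < 2 ^ B) :
    D.Tp B 1 1 ≤ D.Tp B p q := by
  have h1 := D.fa_sub B 1 p
  have h2 := D.swap.fa_sub B 1 q
  rw [swap_fa, swap_fa] at h2
  have b1 := D.blk_out B m 1 p hp hpm (fun x hx1 hx2 => hu x (by omega) (by omega))
  have b2 := D.swap.blk_out B m 1 q hq hqm (fun x hx1 hx2 => by
    rw [swap_u, swap_u]; exact hu x (by omega) (by omega))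
  have t1 := D.tail_low B 1 p hp (by omega)
  have t2 := D.swap.tail_low B 1 q hq (by omega)
  have u1 := D.u_le B m (p + q) (by omega) (hu _ (by omega) (le_refl _))
  have v1 := vz_le (p + q - m) (by omega)
  have c1 := H_choose (p - 1) (m - p - 1) (by omega) (by omega)
  have c2 := H_choose (q - 1) (m - q - 1) (by omega) (by omega)
  rw [Vs_pos p hp, Vs_one] at h1
  rw [Vs_pos q hq, Vs_one] at h2
  have e1 : p - 1 + (m - p - 1) = m - 2 := by ring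
  have e2 : q - 1 + (m - q - 1) = m - 2 := by ring
  have e3 : m - 1 - 1 = m - 2 := by ring
  rw [e1] at c1
  rw [e2] at c2
  rw [e3] at b1 b2
  unfold Tp
  have : (0 : ℤ) ≤ D.u B (1 + 1) := Int.natCast_nonneg _
  omega

/-- Case II, with a spike in the tail of the rows -/
lemma caseIIb (p q y : ℤ) (hp : 1 ≤ p) (hq : 1 ≤ q) (hK : 3 ≤ p + q)
    (hu : ∀ x, 2 ≤ x → x ≤ p + q → D.u B x ≤ D.u B (p + q)) (hB : 3 * (p + q) < 2 ^ B)
    (hy1 : D.al + 2 - 3 * p ≤ y) (hy2 : y ≤ D.al + 1 - 3 * 1)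
    (hy : D.u B (p + q) ≤ vB B y) :
    D.Tp B 1 1 ≤ D.Tp B p q := by
  have h1 := D.fa_sub B 1 p
  have h2 := D.swap.fa_sub B 1 q
  rw [swap_fa, swap_fa] at h2
  have b1 := D.blk_out B (p + q) 1 p hp (by omega) (fun x hx1 hx2 => hu x (by omega) (by omega))
  have b2 := D.swap.blk_out B (p + q) 1 q hq (by omega) (fun x hx1 hx2 => by
    rw [swap_u, swap_u]; exact hu x (by omega) (by omega))
  have t1 := D.tail_spike B 1 p y _ hy1 hy2 hy (by omega)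
  have t2 := D.swap.tail_low B 1 q hq (by omega)
  rw [Vs_pos p hp, Vs_one] at h1
  rw [Vs_pos q hq, Vs_one] at h2
  have c1 := H_lower (q - 1) (by omega)
  have c2 := H_upper (p + q - 2) (by omega)
  have e1 : p + q - 1 - 1 = p + q - 2 := by ring
  have e2 : p + q - p - 1 = q - 1 := by ring
  have e3 : p + q - q - 1 = p - 1 := by ring
  rw [e1, e2] at b1
  rw [e1, e3] at b2
  unfold Tp
  have : (0 : ℤ) ≤ D.u B (1 + 1) := Int.natCast_nonneg _
  omega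

/-- `Phi`-lemma -/
lemma phi (m p₁ p₂ : ℤ) (h12 : p₁ ≤ p₂) (hTF : D.TF B (D.u B m) p₁ p₂)
    (h1 : -2 ^ (D.u B m) < m - p₁ ∧ m - p₁ ≤ 2 ^ (D.u B m))
    (h2 : -2 ^ (D.u B m) < m - p₂ ∧ m - p₂ ≤ 2 ^ (D.u B m))
    (h3 : -2 ^ (D.u B m) < p₁ ∧ p₁ ≤ 2 ^ (D.u B m))
    (h4 : -2 ^ (D.u B m) < p₂ ∧ p₂ ≤ 2 ^ (D.u B m)) :
    D.fa B p₂ + D.fb B (m - p₂) = D.fa B p₁ + D.fb B (m - p₁)
      + D.u B m * ((if 1 ≤ p₂ then 1 else 0) + (if p₂ ≤ m - 1 then 1 else 0)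
        - (if 1 ≤ p₁ then 1 else 0) - (if p₁ ≤ m - 1 then 1 else 0)) := by
  have hs := D.hsum
  -- the tails
  have key : ∀ n : ℕ, (n : ℤ) ≤ 3 * (p₂ - p₁) →
      W B (D.al + 2 - 3 * p₂ + n) + W B (3 * (D.mu + 1 - m) + 1 - (D.al + 2 - 3 * p₂ + n))
      = W B (D.al + 2 - 3 * p₂) + W B (3 * (D.mu + 1 - m) + 1 - (D.al + 2 - 3 * p₂)) := by
    intro n
    induction n with
    | zero => intro _; simp
    | succ k ih =>
      intro hk
      rw [← ih (by push_cast at hk; omega)]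
      have e1 : D.al + 2 - 3 * p₂ + ((k + 1 : ℕ) : ℤ) = (D.al + 2 - 3 * p₂ + k) + 1 := by
        push_cast; ring
      have e2 : 3 * (D.mu + 1 - m) + 1 - (D.al + 2 - 3 * p₂ + k)
        = 3 * (D.mu + 1 - m) - (D.al + 2 - 3 * p₂ + k) + 1 := by ring
      have e3 : 3 * (D.mu + 1 - m) + 1 - ((D.al + 2 - 3 * p₂ + k) + 1)
        = 3 * (D.mu + 1 - m) - (D.al + 2 - 3 * p₂ + k) := by ring
      rw [e1, W_succ, e3, e2, W_succ]
      have h := hTF (D.al + 2 - 3 * p₂ + k) (by omega) (by push_cast at hk; omega)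
      have hz : (2:ℤ) ^ (D.u B m) ∣ D.mu + 1 - m := dvd_of_le_vB B (le_refl _)
      have hz3 : (2:ℤ) ^ (D.u B m) ∣ 3 * (D.mu + 1 - m) := Dvd.dvd.mul_left hz 3
      have := vB_eq_of_dvd_sub B (x := D.al + 2 - 3 * p₂ + k)
        (y := 3 * (D.mu + 1 - m) - (D.al + 2 - 3 * p₂ + k)) (w := D.u B m)
        (by simpa using hz3) h (vB_le B _)
      omega
  have k1 := key (3 * (p₂ - p₁)).toNat (by omega)
  have e0 : (((3 * (p₂ - p₁)).toNat : ℕ) : ℤ) = 3 * (p₂ - p₁) := by omega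
  rw [e0] at k1
  have e1 : D.al + 2 - 3 * p₂ + 3 * (p₂ - p₁) = D.al + 2 - 3 * p₁ := by ring
  have e2 : 3 * (D.mu + 1 - m) + 1 - (D.al + 2 - 3 * p₁) = D.be + 2 - 3 * (m - p₁) := by
    linarith
  have e3 : 3 * (D.mu + 1 - m) + 1 - (D.al + 2 - 3 * p₂) = D.be + 2 - 3 * (m - p₂) := by
    linarith
  rw [e1, e2, e3] at k1
  have w1 := W_exact' B (D.mu + 1 - m) (m - p₁) h1
  have w2 := W_exact' B (D.mu + 1 - m) (m - p₂) h2
  have w3 := W_exact' B (D.mu + 1 - m) p₁ h3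
  have w4 := W_exact' B (D.mu + 1 - m) p₂ h4
  have f1 : D.mu + 1 - m + (m - p₁) = D.mu + 1 - p₁ := by ring
  have f2 : D.mu + 1 - m + (m - p₂) = D.mu + 1 - p₂ := by ring
  have f3 : D.mu + 1 - m + p₁ = D.mu + 1 - (m - p₁) := by ring
  have f4 : D.mu + 1 - m + p₂ = D.mu + 1 - (m - p₂) := by ring
  rw [f1] at w1
  rw [f2] at w2
  rw [f3] at w3
  rw [f4] at w4
  unfold fa fb
  rw [w1, w2, w3, w4]
  have g1 : (if 1 ≤ m - p₁ then ((vB B (D.mu + 1 - m) : ℕ) : ℤ) else 0)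
      = D.u B m * (if p₁ ≤ m - 1 then 1 else 0) := by
    unfold u; split_ifs <;> first | omega | simp
  have g2 : (if 1 ≤ m - p₂ then ((vB B (D.mu + 1 - m) : ℕ) : ℤ) else 0)
      = D.u B m * (if p₂ ≤ m - 1 then 1 else 0) := by
    unfold u; split_ifs <;> first | omega | simp
  have g3 : (if 1 ≤ p₁ then ((vB B (D.mu + 1 - m) : ℕ) : ℤ) else 0)
      = D.u B m * (if 1 ≤ p₁ then 1 else 0) := by
    unfold u; split_ifs <;> simp
  have g4 : (if 1 ≤ p₂ then ((vB B (D.mu + 1 - m) : ℕ) : ℤ) else 0)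
      = D.u B m * (if 1 ≤ p₂ then 1 else 0) := by
    unfold u; split_ifs <;> simp
  rw [g1, g2, g3, g4]
  linarith

end Dat

end Pool.Agent.helper83.BC
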