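import Pool.Agent.helper83.BCLoc2

set_option autoImplicit false

namespace Pool.Agent.helper83.BC

open Finset

lemma lt_two_pow_of (K : ℤ) (w : ℕ) (h : 3 * K ≤ 4 * (w : ℤ)) : K < 2 ^ w := by
  rcases Nat.lt_or_ge w 2 with hw | hw
  · interval_cases w <;> norm_num <;> omega
  · have : ∀ n : ℕ, 2 ≤ n → 4 * (n : ℤ) ≤ 2 * 2 ^ n := by
      intro n hn
      induction n, hn using Nat.le_induction with
      | base => norm_num
      | succ k hk ih => rw [pow_succ]; push_cast; omega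
    have := this w hw
    have h2 : (0 : ℤ) < 2 ^ w := by positivity
    omega

namespace Dat

variable (B : ℕ) (D : Dat)

/-- Case III, weak spike -/
lemma caseIIIweak (p q m : ℤ) (hp : 1 ≤ p) (hpm : p < m) (hmq : m ≤ q)
    (hu : ∀ x, 2 ≤ x → x ≤ p + q → D.u B x ≤ D.u B m) (hB : 3 * (p + q) < 2 ^ B)
    (hw : (D.u B m : ℤ) ≤ 2 * (p + q - 2) - (H (m - 2) - H (p - 1) - H (m - p - 1))
      - vz (p + q - m)) :
    D.Tp B 1 1 ≤ D.Tp B p q := by
  have h1 := D.fa_sub B 1 p
  have h2 := D.swap.fa_sub B 1 q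
  rw [swap_fa, swap_fa] at h2
  have b1 := D.blk_out B m 1 p hp hpm (fun x hx1 hx2 => hu x (by omega) (by omega))
  have b2 := D.swap.blk_in B m 1 q (by omega) hmq (fun x hx1 hx2 => by
    rw [swap_u, swap_u]; exact hu x (by omega) (by omega))
  have t1 := D.tail_low B 1 p hp (by omega)
  have t2 := D.swap.tail_low B 1 q (by omega) (by omega)
  have u1 := D.u_le B m (p + q) (by omega) (hu _ (by omega) (le_refl _))
  rw [Vs_pos p hp, Vs_one] at h1
  rw [Vs_pos q (by omega), Vs_one] at h2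
  have c1 := H_add (m - 2) (q - m) (by omega) (by omega)
  have e1 : m - 2 + (q - m) = q - 2 := by ring
  rw [e1] at c1
  have c2 := H_mono (q - 2) (q - 1) (by omega)
  have e3 : m - 1 - 1 = m - 2 := by ring
  rw [e3] at b1 b2
  rw [swap_u] at b2
  unfold Tp
  have : (0 : ℤ) ≤ D.u B (1 + 1) := Int.natCast_nonneg _
  omega

/-- Case III, strong spike with a tail spike -/
lemma caseIIIspike (p q m y : ℤ) (hp : 1 ≤ p) (hpm : p < m) (hmq : m ≤ q)
    (hu : ∀ x, 2 ≤ x → x ≤ p + q → D.u B x ≤ D.u B m) (hB : 3 * (p + q) < 2 ^ B)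
    (hw : 2 * (p + q - 2) - (H (m - 2) - H (p - 1) - H (m - p - 1))
      - vz (p + q - m) < (D.u B m : ℤ))
    (hy1 : D.al + 2 - 3 * p ≤ y) (hy2 : y ≤ D.al + 1 - 3 * (m - q))
    (hy : D.u B m ≤ vB B y) :
    D.Tp B p (m - p) ≤ D.Tp B p q := by
  have hs := D.hsum
  have h2 := D.swap.fa_sub B (m - p) q
  rw [swap_fa, swap_fa] at h2
  have b2 := D.swap.blk_in B m (m - p) q (by omega) hmq (fun x hx1 hx2 => by
    rw [swap_u, swap_u]; exact hu x (by omega) (by omega))
  have hy' := D.spike_swap B m y _ (le_refl _) hy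
  have t2 := D.swap.tail_spike B (m - p) q (3 * (D.mu + 1 - m) - y) _
    (by simp only [swap]; omega) (by simp only [swap]; omega) hy' (by omega)
  have u1 := D.u_le B m (p + q) (by omega) (hu _ (by omega) (le_refl _))
  rw [Vs_pos (m - p) (by omega), Vs_pos q (by omega)] at h2
  have v1 := vz_le (p + q - m) (by omega)
  have c1 := H_upper (q - 1) (by omega)
  have c2 := H_le (q - m) (by omega)
  have c3 := H_le (m - 2) (by omega)
  have c4 := H_nonneg (m - p - 1)
  have e1 : m - (m - p) - 1 = p - 1 := by ring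
  rw [e1] at b2
  rw [swap_u] at b2
  unfold Tp
  have e2 : p + (m - p) = m := by ring
  rw [e2]
  omega

/-- Case III, strong spike, tail-free -/
lemma caseIIItf (p q m : ℤ) (hp : 1 ≤ p) (hpm : p < m) (hmq : m ≤ q)
    (hK : p + q - 1 < 2 ^ (D.u B m)) (hTF : D.TF B (D.u B m) (m - q) p) :
    D.Tp B p q = D.Tp B p (m - p) + D.Xa B p (m - q) := by
  have h := D.phi B m (m - q) p (by omega) hTF (by omega) (by omega)
    (by omega) (by omega)
  rw [if_pos (by omega), if_pos (by omega), if_neg (by omega), if_pos (by omega)] at h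
  have u1 := D.u_eq B m (p + q) (by omega) (by rw [abs_lt]; omega)
  have e1 : m - (m - q) = q := by ring
  rw [e1] at h
  unfold Tp Xa
  have e2 : p + (m - p) = m := by ring
  have e3 : p - (m - q) = p + q - m := by ring
  rw [e2, e3]
  linarith

/-- Case IV, weak spike -/
lemma caseIVweak (p q m : ℤ) (hm2 : 2 ≤ m) (hmp : m ≤ p) (hmq : m ≤ q)
    (hu : ∀ x, 2 ≤ x → x ≤ p + q → D.u B x ≤ D.u B m) (hB : 3 * (p + q) < 2 ^ B)
    (hw : 2 * (D.u B m : ℤ) ≤ 2 * (p + q - 2) - vz (p + q - m) + D.u B 2) :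
    D.Tp B 1 1 ≤ D.Tp B p q := by
  have h1 := D.fa_sub B 1 p
  have h2 := D.swap.fa_sub B 1 q
  rw [swap_fa, swap_fa] at h2
  have b1 := D.blk_in B m 1 p (by omega) hmp (fun x hx1 hx2 => hu x (by omega) (by omega))
  have b2 := D.swap.blk_in B m 1 q (by omega) hmq (fun x hx1 hx2 => by
    rw [swap_u, swap_u]; exact hu x (by omega) (by omega))
  have t1 := D.tail_low B 1 p (by omega) (by omega)
  have t2 := D.swap.tail_low B 1 q (by omega) (by omega)
  have u1 := D.u_le B m (p + q) (by omega) (hu _ (by omega) (le_refl _))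
  rw [Vs_pos p (by omega), Vs_one] at h1
  rw [Vs_pos q (by omega), Vs_one] at h2
  have c1 := H_add (m - 2) (q - m) (by omega) (by omega)
  have e1 : m - 2 + (q - m) = q - 2 := by ring
  rw [e1] at c1
  have c2 := H_mono (q - 2) (q - 1) (by omega)
  have c3 := H_add (m - 2) (p - m) (by omega) (by omega)
  have e2 : m - 2 + (p - m) = p - 2 := by ring
  rw [e2] at c3
  have c4 := H_mono (p - 2) (p - 1) (by omega)
  have e3 : m - 1 - 1 = m - 2 := by ring
  rw [e3] at b1 b2
  rw [swap_u] at b2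
  unfold Tp
  have e5 : (1:ℤ) + 1 = 2 := by norm_num
  rw [e5]
  omega

/-- Case IV, tail spike in the upper row steps -/
lemma caseIVspike1 (p q m y : ℤ) (hm2 : 2 ≤ m) (hmp : m ≤ p) (hmq : m ≤ q)
    (hu : ∀ x, 2 ≤ x → x ≤ p + q → D.u B x ≤ D.u B m) (hB : 3 * (p + q) < 2 ^ B)
    (hy1 : D.al + 2 - 3 * p ≤ y) (hy2 : y ≤ D.al + 1 - 3 * (m - 1))
    (hy : D.u B m ≤ vB B y) :
    D.Tp B (m - 1) 1 ≤ D.Tp B p q := by
  have h1 := D.fa_sub B (m - 1) p
  have h2 := D.swap.fa_sub B 1 q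
  rw [swap_fa, swap_fa] at h2
  have b1 := D.blk_in B m (m - 1) p (by omega) hmp (fun x hx1 hx2 => hu x (by omega) (by omega))
  have b2 := D.swap.blk_in B m 1 q (by omega) hmq (fun x hx1 hx2 => by
    rw [swap_u, swap_u]; exact hu x (by omega) (by omega))
  have t1 := D.tail_spike B (m - 1) p y _ hy1 hy2 hy (by omega)
  have t2 := D.swap.tail_low B 1 q (by omega) (by omega)
  have u1 := D.u_le B m (p + q) (by omega) (hu _ (by omega) (le_refl _))
  rw [Vs_pos p (by omega), Vs_pos (m - 1) (by omega)] at h1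
  rw [Vs_pos q (by omega), Vs_one] at h2
  have v1 := vz_le (p + q - m) (by omega)
  have c1 := H_upper (p - 1) (by omega)
  have c2 := H_le (p - m) (by omega)
  have c3 := H_le (q - m) (by omega)
  have c4 := H_lower (q - 1) (by omega)
  have e1 : m - (m - 1) - 1 = 0 := by ring
  have e2 : m - 1 - 1 = m - 2 := by ring
  rw [e1, H_zero] at b1
  rw [e2] at b2 h1
  rw [swap_u] at b2
  unfold Tp
  have e4 : m - 1 + 1 = m := by ring
  rw [e4]
  omega

/-- Case IV, tail spike in the common steps -/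
lemma caseIVspike2 (p q m y : ℤ) (hm2 : 3 ≤ m) (hmp : m ≤ p) (hmq : m ≤ q)
    (hu : ∀ x, 2 ≤ x → x ≤ p + q → D.u B x ≤ D.u B m) (hB : 3 * (p + q) < 2 ^ B)
    (hy1 : D.al + 2 - 3 * (m - 1) ≤ y) (hy2 : y ≤ D.al + 1 - 3 * 1)
    (hy : D.u B m ≤ vB B y) :
    D.Tp B 1 1 ≤ D.Tp B p q := by
  have hs := D.hsum
  have h1 := D.fa_sub B 1 p
  have h2 := D.swap.fa_sub B 1 q
  rw [swap_fa, swap_fa] at h2
  have b1 := D.blk_in B m 1 p (by omega) hmp (fun x hx1 hx2 => hu x (by omega) (by omega))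
  have b2 := D.swap.blk_in B m 1 q (by omega) hmq (fun x hx1 hx2 => by
    rw [swap_u, swap_u]; exact hu x (by omega) (by omega))
  have t1 := D.tail_spike B 1 p y _ (by omega) hy2 hy (by omega)
  have hy' := D.spike_swap B m y _ (le_refl _) hy
  have t2 := D.swap.tail_spike B 1 q (3 * (D.mu + 1 - m) - y) _
    (by simp only [swap]; omega) (by simp only [swap]; omega) hy' (by omega)
  have u1 := D.u_le B m (p + q) (by omega) (hu _ (by omega) (le_refl _))
  rw [Vs_pos p (by omega), Vs_one] at h1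
  rw [Vs_pos q (by omega), Vs_one] at h2
  have v1 := vz_le (p + q - m) (by omega)
  have c1 := H_upper (p - 1) (by omega)
  have c2 := H_le (p - m) (by omega)
  have c3 := H_le (q - m) (by omega)
  have c4 := H_upper (q - 1) (by omega)
  have c5 := H_upper (m - 2) (by omega)
  have e2 : m - 1 - 1 = m - 2 := by ring
  rw [e2] at b1 b2
  rw [swap_u] at b2
  unfold Tp
  have : (0 : ℤ) ≤ D.u B (1 + 1) := Int.natCast_nonneg _
  omega

/-- Case IV, strong spike, tail-free -/
lemma caseIVtf (p q m : ℤ) (hm2 : 2 ≤ m) (hmp : m ≤ p) (hmq : m ≤ q)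
    (hK : p + q - 2 < 2 ^ (D.u B m)) (hTF : D.TF B (D.u B m) (m - q) p) :
    D.Tp B p q = 2 * D.Tp B (m - 1) 1 - D.Tm B (m - q) (m - p) := by
  have h := D.phi B m (m - q) (m - 1) (by omega)
    (fun y h1 h2 => hTF y (by omega) h2) (by omega) (by omega)
    (by omega) (by omega)
  rw [if_pos (by omega), if_pos (by omega), if_neg (by omega), if_pos (by omega)] at h
  have h' := D.phi B m (m - 1) p (by omega)
    (fun y h1 h2 => hTF y h1 (by omega)) (by omega) (by omega)
    (by omega) (by omega)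
  rw [if_pos (by omega), if_neg (by omega), if_pos (by omega), if_pos (by omega)] at h'
  have u1 := D.u_eq B m (p + q) (by omega) (by rw [abs_lt]; omega)
  have u2 := D.u_eq B m (m - q + (m - p)) (by omega) (by rw [abs_lt]; omega)
  have e1 : m - (m - q) = q := by ring
  have e0 : m - (m - 1) = 1 := by ring
  rw [e0] at h h'
  rw [e1] at h
  have e3 : m - q + (m - p) - m = -(p + q - m) := by ring
  rw [e3, vz_neg] at u2
  unfold Tp Tm
  have e4 : m - 1 + 1 = m := by ring
  rw [e4]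
  linarith

/-- `(a)`, weak spike -/
lemma caseAweak (p p' m : ℤ) (hp : 1 ≤ p) (hp' : p' ≤ 0) (hm1 : p' < m) (hm2 : m ≤ p)
    (hu : ∀ x, p' + 1 ≤ x → x ≤ p → D.u B x ≤ D.u B m) (hB : 3 * (p - p') < 2 ^ B)
    (hw : (D.u B m : ℤ) < 2 * (p - p') + vz (p - p')) :
    0 < D.Xa B p p' := by
  have h1 := D.fa_sub B p' p
  have b1 := D.blk_in B m p' p hm1 hm2 hu
  have t1 := D.tail_low B p' p (by omega) (by omega)
  rw [Vs_pos p hp, Vs_nonpos p' hp'] at h1
  have c0 := H_pred (p - p') (by omega)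
  have c1 := H_add (p - 1) (-p') (by omega) (by omega)
  have c2 := H_add (m - p' - 1) (p - m) (by omega) (by omega)
  have e1 : p - 1 + (-p') = p - p' - 1 := by ring
  have e2 : m - p' - 1 + (p - m) = p - p' - 1 := by ring
  rw [e1] at c1
  rw [e2] at c2
  unfold Xa
  omega

/-- `(a)`, tail spike -/
lemma caseAspike (p p' m y : ℤ) (hp : 1 ≤ p) (hp' : p' ≤ 0) (hm1 : p' < m) (hm2 : m ≤ p)
    (hu : ∀ x, p' + 1 ≤ x → x ≤ p → D.u B x ≤ D.u B m) (hB : 3 * (p - p') < 2 ^ B)
    (hy1 : D.al + 2 - 3 * p ≤ y) (hy2 : y ≤ D.al + 1 - 3 * p')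
    (hy : D.u B m ≤ vB B y) :
    0 < D.Xa B p p' := by
  have h1 := D.fa_sub B p' p
  have b1 := D.blk_in B m p' p hm1 hm2 hu
  have t1 := D.tail_spike B p' p y _ hy1 hy2 hy (by omega)
  rw [Vs_pos p hp, Vs_nonpos p' hp'] at h1
  have c1 := H_add (p - 1) (-p') (by omega) (by omega)
  have c2 := H_add (m - p' - 1) (p - m) (by omega) (by omega)
  have e1 : p - 1 + (-p') = p - p' - 1 := by ring
  have e2 : m - p' - 1 + (p - m) = p - p' - 1 := by ring
  rw [e1] at c1
  rw [e2] at c2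
  have v1 := vz_le (p - p') (by omega)
  unfold Xa
  rcases eq_or_ne (p - p') 1 with hd | hd
  · rw [hd] at c1 c2 t1 v1 ⊢
    have : (1:ℤ) - 1 = 0 := by norm_num
    rw [this, H_zero] at c1 c2
    have h0 := H_nonneg (p - 1)
    have h0' := H_nonneg (-p')
    omega
  · have c3 := H_upper (p - p' - 1) (by omega)
    omega

/-- `(a)`, strong tail-free, `m ≥ 2` -/
lemma caseAtf (p p' m : ℤ) (hp' : p' ≤ 0) (hm1 : 2 ≤ m) (hm2 : m ≤ p)
    (hK : p - p' < 2 ^ (D.u B m)) (hTF : D.TF B (D.u B m) p' p) :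
    D.Xa B p p' = D.Tp B (m - 1) 1 - D.Tm B p' (m - p) := by
  have h' := D.phi B m (m - 1) p (by omega)
    (fun y h1 h2 => hTF y h1 (by omega)) (by omega) (by omega)
    (by omega) (by omega)
  rw [if_pos (by omega), if_neg (by omega), if_pos (by omega), if_pos (by omega)] at h'
  have u2 := D.u_eq B m (p' + (m - p)) (by omega) (by rw [abs_lt]; omega)
  have e0 : m - (m - 1) = 1 := by ring
  rw [e0] at h'
  have e3 : p' + (m - p) - m = -(p - p') := by ring
  rw [e3, vz_neg] at u2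
  unfold Tp Tm Xa
  have e4 : m - 1 + 1 = m := by ring
  rw [e4]
  linarith

/-- `(a)`, strong tail-free, `m = 1` -/
lemma caseAtf1 (p p' : ℤ) (hp : 1 ≤ p) (hp' : p' ≤ 0)
    (hK : p - p' < 2 ^ (D.u B 1)) (hTF : D.TF B (D.u B 1) p' p) :
    2 * D.Xa B p p' = D.Tp B p (1 - p') - D.Tm B p' (1 - p) := by
  have h' := D.phi B 1 p' p (by omega)
    (fun y h1 h2 => hTF y h1 (by omega)) (by omega) (by omega)
    (by omega) (by omega)
  rw [if_pos (by omega), if_neg (by omega), if_neg (by omega), if_pos (by omega)] at h'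
  have u2 := D.u_eq B 1 (p' + (1 - p)) (by omega) (by rw [abs_lt]; omega)
  have u1 := D.u_eq B 1 (p + (1 - p')) (by omega) (by rw [abs_lt]; omega)
  have e3 : p' + (1 - p) - 1 = -(p - p') := by ring
  have e4 : p + (1 - p') - 1 = p - p' := by ring
  rw [e3, vz_neg] at u2
  rw [e4] at u1
  unfold Tp Tm Xa
  linarith

end Dat

end Pool.Agent.helper83.BC
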