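import Pool.Agent.helper83.BCLoc3

set_option autoImplicit false

namespace Pool.Agent.helper83.BC

open Finset

namespace Dat

variable (B : ℕ) (D : Dat)

lemma Ap_eq (n : ℕ) (hK : (n : ℤ) - 1 < 2 ^ (D.u B (n + 1))) :
    D.Ap B n = ∑ j ∈ range n, D.Tp B (j + 1) (n - j) := by
  set g1 : ℕ → ℤ := fun j => D.c + (j + 1) + W B (D.mu + 2 - 2 * (j + 1))
    - W B (D.al + 2 - 3 * (j + 1)) with hg1
  set g2 : ℕ → ℤ := fun j => ((j : ℤ) + 1) + W B (D.mu + 1 - 2 * (j + 1))
    - W B (D.be + 2 - 3 * (j + 1)) with hg2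
  have h1 : D.Ap B n = ∑ j ∈ range n, g1 j + ∑ j ∈ range n, g2 j := by
    unfold Ap
    rw [← sum_add_distrib]
    apply sum_congr rfl
    intro j _
    unfold lam
    rw [hg1, hg2]; ring
  have h2 : ∑ j ∈ range n, g2 j = ∑ j ∈ range n, g2 (n - 1 - j) := (sum_range_reflect g2 n).symm
  rw [h1, h2, ← sum_add_distrib]
  apply sum_congr rfl
  intro j hj
  rw [mem_range] at hj
  have e0 : ((n - 1 - j : ℕ) : ℤ) = n - 1 - j := by omega
  set z := D.mu - n with hz
  have hw : D.u B (n + 1) = vB B z := by unfold u; congr 1; rw [hz]; ring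
  rw [hw] at hK
  have w1 := W_exact' B z (n - 2 * j) (by omega)
  have w2 := W_exact' B z (1 - (n - 2 * j)) (by omega)
  have w3 := W_exact' B z (n - j) (by omega)
  have w4 := W_exact' B z (j + 1) (by omega)
  have v1 := Vs_one_sub ((n : ℤ) - 2 * j)
  rw [if_pos (by omega)] at w3 w4
  have w12 : W B (z + (n - 2 * j)) + W B (z + (1 - (n - 2 * j))) = 2 * W B z + vB B z := by
    rw [w1, w2, v1]
    rcases le_or_gt (1:ℤ) ((n : ℤ) - 2 * j) with h | h
    · rw [if_pos h, if_neg (by omega)]; ring
    · rw [if_neg (by omega), if_pos (by omega)]; ring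
  rw [hg1, hg2]
  simp only [e0]
  unfold Tp fa fb
  have e3 : (j : ℤ) + 1 + (n - j) = n + 1 := by ring
  rw [e3, hw]
  have f1 : D.mu + 2 - 2 * ((j : ℤ) + 1) = z + (n - 2 * j) := by rw [hz]; ring
  have f2 : D.mu + 1 - 2 * ((n : ℤ) - 1 - j + 1) = z + (1 - (n - 2 * j)) := by rw [hz]; ring
  have f3 : D.mu + 1 - ((j : ℤ) + 1) = z + (n - j) := by rw [hz]; ring
  have f4 : D.mu + 1 - ((n : ℤ) - j) = z + (j + 1) := by rw [hz]; ring
  have f5 : D.be + 2 - 3 * ((n : ℤ) - 1 - j + 1) = D.be + 2 - 3 * (n - j) := by ring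
  rw [f1, f2, f3, f4, f5]
  linarith

/-- hypotheses of the local theorem -/
structure Hyp (σp σm : ℝ) : Prop where
  lt : σm < σp
  hp : ∀ P : ℕ, 1 ≤ P → (P : ℝ) * σp ≤ D.Ap B P ∨ ¬ D.TF B (vB B (D.mu - P)) 1 P
  hm : ∀ P : ℕ, 1 ≤ P → (D.Bm B P : ℝ) ≤ P * σm ∨ ¬ D.TF B (vB B (D.mu + P)) (1 - P) 0

lemma Hyp.swap {D : Dat} {σp σm : ℝ} (h : D.Hyp B σp σm) : D.swap.Hyp B σp σm where
  lt := h.lt
  hp := by
    intro P hP
    rw [swap_Ap, D.swap_TF B (P + 1) _ (by
      unfold u; simp only [Dat.swap]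
      have : D.mu + 1 - ((P : ℤ) + 1) = D.mu - P := by ring
      rw [this])]
    have := h.hp P hP
    have e1 : (P : ℤ) + 1 - P = 1 := by ring
    have e2 : (P : ℤ) + 1 - 1 = P := by ring
    rw [e1, e2]; exact this
  hm := by
    intro P hP
    rw [swap_Bm, D.swap_TF B (1 - P) _ (by
      unfold u; simp only [Dat.swap]
      have : D.mu + 1 - (1 - (P : ℤ)) = D.mu + P := by ring
      rw [this])]
    have := h.hm P hP
    have e1 : (1 : ℤ) - P - (1 - P) = 0 := by ring
    have e2 : (1 : ℤ) - P - 0 = 1 - P := by ring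
    rw [e1, e2]; exact this

lemma Hyp.refl {D : Dat} {σp σm : ℝ} (h : D.Hyp B σp σm) : D.refl.Hyp B (-σm) (-σp) where
  lt := by have := h.lt; linarith
  hp := by
    intro P hP
    rw [refl_Ap, D.refl_TF]
    have e0 : vB B (D.refl.mu - P) = vB B (D.mu + P) := by
      rw [← vB_neg]; simp only [Dat.refl]; congr 1; ring
    have e1 : (1 : ℤ) - 1 = 0 := by ring
    rw [e0, e1]
    rcases h.hm P hP with h1 | h1
    · left; push_cast; linarith
    · right; exact h1
  hm := by
    intro P hP
    rw [refl_Bm, D.refl_TF]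
    have e0 : vB B (D.refl.mu + P) = vB B (D.mu - P) := by
      rw [← vB_neg]; simp only [Dat.refl]; congr 1; ring
    have e1 : (1 : ℤ) - 0 = 1 := by ring
    have e2 : (1 : ℤ) - (1 - P) = P := by ring
    rw [e0, e1, e2]
    rcases h.hp P hP with h1 | h1
    · left; push_cast; linarith
    · right; exact h1

def CC (σp : ℝ) (N : ℤ) : Prop :=
  ∀ p q : ℤ, 1 ≤ p → 1 ≤ q → p + q - 2 < N → σp ≤ (D.Tp B p q : ℝ)

def CA (N : ℤ) : Prop :=
  ∀ p p' : ℤ, 1 ≤ p → p' ≤ 0 → p - p' - 1 < N → 0 < D.Xa B p p'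

lemma not_TF {w : ℕ} {k₁ k₂ : ℤ} (h : ¬ D.TF B w k₁ k₂) :
    ∃ y, D.al + 2 - 3 * k₂ ≤ y ∧ y ≤ D.al + 1 - 3 * k₁ ∧ w ≤ vB B y := by
  unfold TF at h
  push Not at h
  exact h

/-- base case -/
lemma base {D : Dat} {σp σm : ℝ} (h : D.Hyp B σp σm) : σp ≤ (D.Tp B 1 1 : ℝ) := by
  have h1 := D.Ap_eq B 1 (by norm_num)
  simp only [range_one, sum_singleton, Nat.cast_zero, Nat.cast_one, zero_add, sub_zero] at h1
  rcases h.hp 1 le_rfl with h2 | h2
  · rw [h1] at h2; simpa using h2
  · exfalso
    obtain ⟨y, hy1, hy2, _⟩ := D.not_TF B h2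
    push_cast at hy1
    omega

/-- case III, everything together -/
lemma caseIII {D : Dat} {σp σm : ℝ} (h : D.Hyp B σp σm) (p q m : ℤ) (hp : 1 ≤ p) (hpm : p < m)
    (hmq : m ≤ q) (hu : ∀ x, 2 ≤ x → x ≤ p + q → D.u B x ≤ D.u B m) (hB : 3 * (p + q) < 2 ^ B)
    (hC : D.CC B σp (p + q - 2)) (hA : D.CA B (p + q - 2)) : σp ≤ (D.Tp B p q : ℝ) := by
  rcases le_or_gt (D.u B m : ℤ) (2 * (p + q - 2) - (H (m - 2) - H (p - 1) - H (m - p - 1))
      - vz (p + q - m)) with hw | hw
  · have h1 := D.caseIIIweak B p q m hp hpm hmq hu hB hw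
    have h2 := base B h
    have : (D.Tp B 1 1 : ℝ) ≤ D.Tp B p q := by exact_mod_cast h1
    linarith
  · have c1 : σp ≤ (D.Tp B p (m - p) : ℝ) := hC p (m - p) hp (by omega) (by omega)
    by_cases hTF : D.TF B (D.u B m) (m - q) p
    · have hK : p + q - 1 < 2 ^ (D.u B m) := by
        have v1 := vz_le (p + q - m) (by omega)
        have c2 := H_choose (p - 1) (m - p - 1) (by omega) (by omega)
        have e1 : p - 1 + (m - p - 1) = m - 2 := by ring
        rw [e1] at c2
        have : p + q - 1 ≤ D.u B m := by omega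
        have h3 : ((D.u B m : ℕ) : ℤ) < 2 ^ (D.u B m) := by
          exact_mod_cast (Nat.lt_two_pow_self)
        omega
      have h1 := D.caseIIItf B p q m hp hpm hmq hK hTF
      have h2 := hA p (m - q) hp (by omega) (by omega)
      have : (D.Tp B p (m - p) : ℝ) ≤ D.Tp B p q := by
        have : D.Tp B p (m - p) ≤ D.Tp B p q := by omega
        exact_mod_cast this
      linarith
    · obtain ⟨y, hy1, hy2, hy3⟩ := D.not_TF B hTF
      have h1 := D.caseIIIspike B p q m y hp hpm hmq hu hB hw hy1 hy2 hy3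
      have : (D.Tp B p (m - p) : ℝ) ≤ D.Tp B p q := by exact_mod_cast h1
      linarith

/-- case IV, everything together -/
lemma caseIV {D : Dat} {σp σm : ℝ} (h : D.Hyp B σp σm) (p q m : ℤ) (hm2 : 2 ≤ m) (hmp : m ≤ p)
    (hmq : m ≤ q) (hu : ∀ x, 2 ≤ x → x ≤ p + q → D.u B x ≤ D.u B m) (hB : 3 * (p + q) < 2 ^ B)
    (hC : D.CC B σp (p + q - 2)) (hR : D.refl.CC B (-σm) (p + q - 2)) :
    σp ≤ (D.Tp B p q : ℝ) := by
  rcases le_or_gt (2 * (D.u B m : ℤ)) (2 * (p + q - 2) - vz (p + q - m) + D.u B 2) with hw | hw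
  · have h1 := D.caseIVweak B p q m hm2 hmp hmq hu hB hw
    have h2 := base B h
    have : (D.Tp B 1 1 : ℝ) ≤ D.Tp B p q := by exact_mod_cast h1
    linarith
  · by_cases hTF : D.TF B (D.u B m) (m - q) p
    · have hK : p + q - 2 < 2 ^ (D.u B m) := by
        have v1 := vz_le (p + q - m) (by omega)
        apply lt_two_pow_of
        omega
      have h1 := D.caseIVtf B p q m hm2 hmp hmq hK hTF
      have c1 : σp ≤ (D.Tp B (m - 1) 1 : ℝ) := hC (m - 1) 1 (by omega) (by omega) (by omega)
      have c2 := hR (1 - (m - q)) (1 - (m - p)) (by omega) (by omega) (by omega)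
      rw [refl_Tp] at c2
      have e1 : 1 - (1 - (m - q)) = m - q := by ring
      have e2 : 1 - (1 - (m - p)) = m - p := by ring
      rw [e1, e2] at c2
      push_cast at c2
      have h3 := h.lt
      rw [h1]
      push_cast
      linarith
    · obtain ⟨y, hy1, hy2, hy3⟩ := D.not_TF B hTF
      have hs := D.hsum
      rcases le_or_gt y (D.al + 1 - 3 * (m - 1)) with hy4 | hy4
      · have h1 := D.caseIVspike1 B p q m y hm2 hmp hmq hu hB hy1 hy4 hy3
        have c1 : σp ≤ (D.Tp B (m - 1) 1 : ℝ) := hC (m - 1) 1 (by omega) (by omega) (by omega)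
        have : (D.Tp B (m - 1) 1 : ℝ) ≤ D.Tp B p q := by exact_mod_cast h1
        linarith
      · rcases le_or_gt y (D.al + 1 - 3 * 1) with hy5 | hy5
        · have h1 := D.caseIVspike2 B p q m y (by omega) hmp hmq hu hB (by omega) hy5 hy3
          have h2 := base B h
          have : (D.Tp B 1 1 : ℝ) ≤ D.Tp B p q := by exact_mod_cast h1
          linarith
        · have hy' := D.spike_swap B m y _ (le_refl _) hy3
          have h1 := D.swap.caseIVspike1 B q p m (3 * (D.mu + 1 - m) - y) hm2 hmq hmp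
            (by intro x hx1 hx2; rw [swap_u, swap_u]; exact hu x hx1 (by omega)) (by omega)
            (by simp only [Dat.swap]; omega) (by simp only [Dat.swap]; omega)
            (by rw [swap_u]; exact hy')
          rw [swap_Tp, swap_Tp] at h1
          have c1 : σp ≤ (D.Tp B 1 (m - 1) : ℝ) := hC 1 (m - 1) (by omega) (by omega) (by omega)
          have : (D.Tp B 1 (m - 1) : ℝ) ≤ D.Tp B p q := by exact_mod_cast h1
          linarith

/-- case II, everything together -/
lemma caseII {D : Dat} {σp σm : ℝ} (h : D.Hyp B σp σm) (p q : ℤ) (hp : 1 ≤ p) (hq : 1 ≤ q)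
    (hK : 3 ≤ p + q)
    (hu : ∀ x, 2 ≤ x → x ≤ p + q → D.u B x ≤ D.u B (p + q))
    (hu2 : ∀ x, 2 ≤ x → x < p + q → D.u B x < D.u B (p + q)) (hB : 3 * (p + q) < 2 ^ B) :
    σp ≤ (D.Tp B p q : ℝ) := by
  have hs := D.hsum
  have hK2 : p + q - 2 < 2 ^ (D.u B (p + q)) := by
    by_contra hc
    push Not at hc
    have h1 := hu2 (p + q - 2 ^ (D.u B (p + q))) (by omega) (by
      have : (0 : ℤ) < 2 ^ (D.u B (p + q)) := by positivity
      omega)
    have h2' : ∀ w : ℕ, w = D.u B (p + q) → w ≤ D.u B (p + q - 2 ^ w) := by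
      intro w hw
      unfold u at hw ⊢
      apply le_vB B (by rw [hw]; exact vB_le B _)
      have e : D.mu + 1 - (p + q - 2 ^ w) = (D.mu + 1 - (p + q)) + 2 ^ w := by ring
      rw [e]
      apply dvd_add _ (dvd_refl _)
      rw [hw]
      exact pow_vB_dvd B _
    have h2 := h2' _ rfl
    omega
  by_cases hTF : D.TF B (D.u B (p + q)) 1 (p + q - 1)
  · obtain ⟨n, hn⟩ := Int.eq_ofNat_of_zero_le (by omega : 0 ≤ p + q - 1)
    have hn1 : 1 ≤ n := by omega
    have hm : (p + q : ℤ) = n + 1 := by omega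
    have hc : ∀ j ∈ range n, D.Tp B (j + 1) (n - j) = D.Tp B p q := by
      intro j hj
      rw [mem_range] at hj
      unfold Tp
      have e1 : (j : ℤ) + 1 + (n - j) = p + q := by omega
      rw [e1]
      have e2 : (n : ℤ) - j = p + q - (j + 1) := by omega
      rw [e2]
      rcases le_or_gt ((j : ℤ) + 1) p with hjp | hjp
      · have := D.phi B (p + q) (j + 1) p hjp
          (fun y h1 h2 => hTF y (by omega) (by omega)) (by omega) (by omega) (by omega) (by omega)
        rw [if_pos (by omega), if_pos (by omega), if_pos (by omega), if_pos (by omega)] at this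
        have e3 : p + q - p = q := by ring
        rw [e3] at this
        linarith
      · have := D.phi B (p + q) p (j + 1) hjp.le
          (fun y h1 h2 => hTF y (by omega) (by omega)) (by omega) (by omega) (by omega) (by omega)
        rw [if_pos (by omega), if_pos (by omega), if_pos (by omega), if_pos (by omega)] at this
        have e3 : p + q - p = q := by ring
        rw [e3] at this
        linarith
    have h1 := D.Ap_eq B n (by
      have e : (n : ℤ) + 1 = p + q := by omega
      rw [e]; omega)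
    rw [sum_congr rfl hc] at h1
    simp only [sum_const, card_range, nsmul_eq_mul] at h1
    rcases h.hp n hn1 with h2 | h2
    · rw [h1] at h2
      push_cast at h2
      have hn0 : (0 : ℝ) < n := by exact_mod_cast hn1
      exact le_of_mul_le_mul_left h2 hn0
    · exfalso
      apply h2
      have e : vB B (D.mu - n) = D.u B (p + q) := by
        unfold u; congr 1; omega
      rw [e]
      have e2 : (n : ℤ) = p + q - 1 := by omega
      rw [e2]
      exact hTF
  · obtain ⟨y, hy1, hy2, hy3⟩ := D.not_TF B hTF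
    have h2 := base B h
    rcases le_or_gt (D.al + 2 - 3 * p) y with hy4 | hy4
    · have h1 := D.caseIIb B p q y hp hq hK hu hB hy4 hy2 hy3
      have : (D.Tp B 1 1 : ℝ) ≤ D.Tp B p q := by exact_mod_cast h1
      linarith
    · have hy' := D.spike_swap B (p + q) y _ (le_refl _) hy3
      have h1 := D.swap.caseIIb B q p (3 * (D.mu + 1 - (p + q)) - y) hq hp (by omega)
        (by intro x hx1 hx2; rw [swap_u, swap_u, add_comm q p]; exact hu x hx1 (by omega))
        (by omega) (by simp only [Dat.swap]; omega) (by simp only [Dat.swap]; omega)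
        (by rw [swap_u, add_comm q p]; exact hy')
      rw [swap_Tp, swap_Tp] at h1
      have : (D.Tp B 1 1 : ℝ) ≤ D.Tp B p q := by exact_mod_cast h1
      linarith

/-- induction step for `(c)` -/
lemma stepC {D : Dat} {σp σm : ℝ} (h : D.Hyp B σp σm) (N : ℤ) (hB : 3 * (N + 3) < 2 ^ B)
    (hC : D.CC B σp N) (hR : D.refl.CC B (-σm) N) (hA : D.CA B N) (hA' : D.swap.CA B N) :
    D.CC B σp (N + 1) := by
  intro p q hp hq hpq
  rcases lt_or_ge (p + q) 3 with h3 | h3
  · have e1 : p = 1 := by omega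
    have e2 : q = 1 := by omega
    rw [e1, e2]; exact base B h
  · obtain ⟨m, hm1, hm2, hu, hu2⟩ := exists_argmax (fun x => D.u B x) 2 (p + q) (by omega)
    have hCC : D.CC B σp (p + q - 2) := fun a b ha hb hab => hC a b ha hb (by omega)
    have hRR : D.refl.CC B (-σm) (p + q - 2) := fun a b ha hb hab => hR a b ha hb (by omega)
    have hAA : D.CA B (p + q - 2) := fun a b ha hb hab => hA a b ha hb (by omega)
    have hAA' : D.swap.CA B (p + q - 2) := fun a b ha hb hab => hA' a b ha hb (by omega)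
    rcases eq_or_ne m (p + q) with rfl | hne
    · exact caseII B h p q hp hq h3 hu hu2 (by omega)
    · rcases lt_or_ge p m with hpm | hpm
      · rcases lt_or_ge q m with hqm | hqm
        · have h1 := D.caseI B p q m hp hq hpm hqm (by omega) hu (by omega)
          have h2 := base B h
          have : (D.Tp B 1 1 : ℝ) ≤ D.Tp B p q := by exact_mod_cast h1
          linarith
        · exact caseIII B h p q m hp hpm hqm hu (by omega) hCC hAA
      · rcases lt_or_ge q m with hqm | hqm
        · have := caseIII B (h.swap B) q p m hq hqm hpm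
            (by intro x hx1 hx2; rw [swap_u, swap_u]; exact hu x hx1 (by omega)) (by omega)
            (fun a b ha hb hab => by rw [swap_Tp]; exact hCC b a hb ha (by omega))
            (fun a b ha hb hab => hAA' a b ha hb (by omega))
          rwa [swap_Tp] at this
        · exact caseIV B h p q m hm1 hpm hqm hu (by omega) hCC hRR

/-- induction step for `(a)` when `m ≥ 2` -/
lemma stepA2 {D : Dat} {σp σm : ℝ} (h : D.Hyp B σp σm) (p p' m : ℤ) (hp' : p' ≤ 0)
    (hm1 : 2 ≤ m) (hm2 : m ≤ p) (hK : p - p' < 2 ^ (D.u B m)) (hTF : D.TF B (D.u B m) p' p)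
    (hC : D.CC B σp (p - p')) (hR : D.refl.CC B (-σm) (p - p')) :
    0 < D.Xa B p p' := by
  have h1 := D.caseAtf B p p' m hp' hm1 hm2 hK hTF
  have c1 : σp ≤ (D.Tp B (m - 1) 1 : ℝ) := hC (m - 1) 1 (by omega) (by omega) (by omega)
  have c2 := hR (1 - p') (1 - (m - p)) (by omega) (by omega) (by omega)
  rw [refl_Tp] at c2
  have e1 : 1 - (1 - p') = p' := by ring
  have e2 : 1 - (1 - (m - p)) = m - p := by ring
  rw [e1, e2] at c2
  push_cast at c2
  have h3 := h.lt
  have : (0 : ℝ) < D.Xa B p p' := by rw [h1]; push_cast; linarith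
  exact_mod_cast this

/-- induction step for `(a)` -/
lemma stepA {D : Dat} {σp σm : ℝ} (h : D.Hyp B σp σm) (N : ℤ) (hB : 3 * (N + 3) < 2 ^ B)
    (hC : D.CC B σp (N + 1)) (hR : D.refl.CC B (-σm) (N + 1)) :
    D.CA B (N + 1) := by
  intro p p' hp hp' hpp
  obtain ⟨m, hm1, hm2, hu, hu2⟩ := exists_argmax (fun x => D.u B x) (p' + 1) p (by omega)
  rcases lt_or_ge (D.u B m : ℤ) (2 * (p - p') + vz (p - p')) with hw | hw
  · exact D.caseAweak B p p' m hp hp' (by omega) hm2 hu (by omega) hw
  · have hK : p - p' < 2 ^ (D.u B m) := by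
      have h1 := vz_nonneg (p - p')
      have h3 : ((D.u B m : ℕ) : ℤ) < 2 ^ (D.u B m) := by
        exact_mod_cast (Nat.lt_two_pow_self)
      omega
    by_cases hTF : D.TF B (D.u B m) p' p
    · rcases lt_trichotomy m 1 with hm | hm | hm
      · -- reflect
        have hRR : D.refl.refl = D := by
          cases D; simp [Dat.refl]
        have hu' : D.refl.u B (2 - m) = D.u B m := by rw [refl_u]; congr 1; ring
        have := stepA2 B (h.refl B) (1 - p') (1 - p) (2 - m) (by omega) (by omega) (by omega)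
          (by rw [hu']; omega) (by
            rw [hu', refl_TF]
            have e1 : 1 - (1 - p') = p' := by ring
            have e2 : 1 - (1 - p) = p := by ring
            rw [e1, e2]; exact hTF)
          (fun a b ha hb hab => hR a b ha hb (by omega))
          (by
            intro a b ha hb hab
            rw [hRR, neg_neg]
            exact hC a b ha hb (by omega))
        rw [refl_Xa] at this
        have e1 : 1 - (1 - p') = p' := by ring
        have e2 : 1 - (1 - p) = p := by ring
        rwa [e1, e2] at this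
      · subst hm
        have h1 := D.caseAtf1 B p p' hp hp' hK hTF
        have c1 : σp ≤ (D.Tp B p (1 - p') : ℝ) := hC p (1 - p') (by omega) (by omega) (by omega)
        have c2 := hR (1 - p') (1 - (1 - p)) (by omega) (by omega) (by omega)
        rw [refl_Tp] at c2
        have e1 : 1 - (1 - p') = p' := by ring
        have e2 : 1 - (1 - (1 - p)) = 1 - p := by ring
        rw [e1, e2] at c2
        push_cast at c2
        have h3 := h.lt
        have h4 : (0 : ℝ) < 2 * D.Xa B p p' := by
          have : ((2 * D.Xa B p p' : ℤ) : ℝ) = D.Tp B p (1 - p') - D.Tm B p' (1 - p) := by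
            rw [h1]; push_cast; ring
          push_cast at this
          rw [this]; linarith
        have : (0 : ℝ) < D.Xa B p p' := by linarith
        exact_mod_cast this
      · exact stepA2 B h p p' m hp' (by omega) hm2 hK hTF
          (fun a b ha hb hab => hC a b ha hb (by omega))
          (fun a b ha hb hab => hR a b ha hb (by omega))
    · obtain ⟨y, hy1, hy2, hy3⟩ := D.not_TF B hTF
      exact D.caseAspike B p p' m y hp hp' (by omega) hm2 hu (by omega) hy1 hy2 hy3

theorem loc_main (N : ℕ) (hB : 3 * ((N : ℤ) + 2) < 2 ^ B) :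
    ∀ (D : Dat) (σp σm : ℝ), D.Hyp B σp σm → D.CC B σp N ∧ D.CA B N := by
  induction N with
  | zero =>
    intro D σp σm _
    refine ⟨?_, ?_⟩
    · intro p q hp hq hpq; push_cast at hpq; omega
    · intro p q hp hq hpq; push_cast at hpq; omega
  | succ n ih =>
    have ih := ih (by push_cast at hB ⊢; omega)
    have key : ∀ (D : Dat) (σp σm : ℝ), D.Hyp B σp σm → D.CC B σp (n + 1) := by
      intro D σp σm h
      exact stepC B h n (by push_cast at hB; omega) (ih D σp σm h).1
        (ih D.refl _ _ (h.refl B)).1 (ih D σp σm h).2 (ih D.swap _ _ (h.swap B)).2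
    intro D σp σm h
    refine ⟨key D σp σm h, ?_⟩
    have := stepA B h n (by push_cast at hB; omega) (key D σp σm h) (key D.refl _ _ (h.refl B))
    exact this

end Dat

end Pool.Agent.helper83.BC
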