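import Pool.Agent.helper83.BCMat1

set_option autoImplicit false

namespace Pool.Agent.helper83.BC

open Polynomial Matrix

/-- the embedding of the 2-adic integers in the 2-adic numbers -/
noncomputable abbrev ι : ℤ_[2] →+* ℚ_[2] := PadicInt.Coe.ringHom

lemma isUnit_of_toZMod {x : ℤ_[2]} (h : PadicInt.toZMod x ≠ 0) : IsUnit x := by
  by_contra hc
  apply h
  have : x ∈ IsLocalRing.maximalIdeal ℤ_[2] := (IsLocalRing.mem_maximalIdeal x).2 hc
  rw [← PadicInt.ker_toZMod] at this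
  exact this

section

variable {n e f : Type*} [Fintype n] [Fintype e] [Fintype f]
  [DecidableEq n] [DecidableEq e] [DecidableEq f]

lemma assembly_coeff (O11 N : Matrix n n ℚ_[2]) (hN : O11 * N = 1) (s : ℤ)
    (A : Matrix n n ℤ_[2]) (hA : (2:ℚ_[2]) ^ s • N = A.map ι)
    (S : Matrix e f ℚ_[2]) (Bm : Matrix e f ℤ_[2]) (hB : ((2:ℚ_[2]) ^ s)⁻¹ • S = Bm.map ι)
    (Xm : Matrix e n ℤ_[2]) (Ym : Matrix n f ℤ_[2]) (Q : Matrix (n ⊕ f) (n ⊕ e) ℤ_[2]) (r : ℕ) :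
    (LX (Xm.map ι) * DD O11 S * UY (Ym.map ι) * (Q.map ι)).charpolyRev.coeff r
    = det O11 * (2:ℚ_[2]) ^ (s * (r - Fintype.card n)) *
      ι ((GG A Bm (UY Ym * Q * LX Xm)).coeff r) := by
  have hc : ((2:ℚ_[2]) ^ s) ≠ 0 := zpow_ne_zero _ (by norm_num)
  have h := charpolyRev_eq_GG O11 N hN (Xm.map ι) (Ym.map ι) S (Q.map ι) _ hc
  have hU : UY (Ym.map ι) = (UY Ym).map ι := by
    ext (i | i) (j | j) <;> simp [UY, Matrix.one_apply, apply_ite ι]
  have hL : LX (Xm.map ι) = (LX Xm).map ι := by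
    ext (i | i) (j | j) <;> simp [LX, Matrix.one_apply, apply_ite ι]
  rw [hA, hB] at h
  have h2 : GG (A.map ι) (Bm.map ι) (UY (Ym.map ι) * Q.map ι * LX (Xm.map ι))
      = (GG A Bm (UY Ym * Q * LX Xm)).map ι := by
    rw [GG_map, hU, hL, Matrix.map_mul, Matrix.map_mul]
  rw [h2] at h
  have h3 := congrArg (fun p => p.coeff r) h
  simp only [coeff_C_mul, comp_C_mul_X_coeff, coeff_map] at h3
  rw [← h3]
  have hdet : det O11 * det N = 1 := by rw [← det_mul, hN, det_one]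
  have hA2 : det (A.map ι) = ((2:ℚ_[2]) ^ s) ^ Fintype.card n * det N := by
    rw [← hA, det_smul]
  rw [hA2]
  have e1 : (2:ℚ_[2]) ^ (s * (r - Fintype.card n)) =
      ((2:ℚ_[2]) ^ s) ^ r * (((2:ℚ_[2]) ^ s) ^ Fintype.card n)⁻¹ := by
    rw [_root_.zpow_mul, zpow_sub₀ hc, zpow_natCast, zpow_natCast, div_eq_mul_inv]
  rw [e1, inv_pow]
  have hc1 : (((2:ℚ_[2]) ^ s) ^ r) ≠ 0 := pow_ne_zero _ hc
  have hc2 : (((2:ℚ_[2]) ^ s) ^ Fintype.card n) ≠ 0 := pow_ne_zero _ hc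
  field_simp
  linear_combination (-(LX (Xm.map ι) * DD O11 S * UY (Ym.map ι) * (Q.map ι)).charpolyRev.coeff r)
    * hdet

lemma assembly_unit 
    (A : Matrix n n ℤ_[2]) (hA : ∀ i j, PadicInt.toZMod (A i j) = 0)
    (Bm : Matrix e f ℤ_[2])
    (Xm : Matrix e n ℤ_[2]) (hX : ∀ i j, PadicInt.toZMod (Xm i j) = 0)
    (Ym : Matrix n f ℤ_[2]) (hY : ∀ i j, PadicInt.toZMod (Ym i j) = 0)
    (Q : Matrix (n ⊕ f) (n ⊕ e) ℤ_[2]) (J : Matrix f e (ZMod 2))
    (hQ : Q.map PadicInt.toZMod = DD 1 J) :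
    IsUnit ((GG A Bm (UY Ym * Q * LX Xm)).coeff (Fintype.card n)) := by
  apply isUnit_of_toZMod
  rw [← coeff_map, GG_map]
  have h1 : A.map PadicInt.toZMod = 0 := by
    ext i j; simpa using hA i j
  have h2 : (UY Ym * Q * LX Xm).map PadicInt.toZMod = DD 1 J := by
    rw [Matrix.map_mul, Matrix.map_mul, hQ]
    have hU : (UY Ym).map PadicInt.toZMod = 1 := by
      ext (i | i) (j | j) <;> simp [UY, Matrix.one_apply, apply_ite PadicInt.toZMod, hY]
    have hL : (LX Xm).map PadicInt.toZMod = 1 := by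
      ext (i | i) (j | j) <;> simp [LX, Matrix.one_apply, apply_ite PadicInt.toZMod, hX]
    rw [hU, hL, Matrix.one_mul, Matrix.mul_one]
  rw [h1, h2, GG_coeff_special]
  exact pow_ne_zero _ (by decide)

end

end Pool.Agent.helper83.BC
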