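import Pool.Agent.helper83.BCVals2
import Pool.Agent.helper83.BCMat2

set_option autoImplicit false

namespace Pool.Agent.helper83.BC

open Finset Matrix Polynomial

/-- index function -/
def idx (n : ℕ) {e : ℕ} : Fin n ⊕ Fin e → ℕ := Sum.elim (fun a => a + 1) (fun a => n + a + 1)

lemma idx_inl (n : ℕ) {e : ℕ} (a : Fin n) : idx n (e := e) (Sum.inl a) = a + 1 := rfl
lemma idx_inr (n : ℕ) {e : ℕ} (a : Fin e) : idx n (e := e) (Sum.inr a) = n + a + 1 := rfl

lemma sum_Fin_Icc {M : Type*} [AddCommMonoid M] (n : ℕ) (f : ℕ → M) :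
    ∑ a : Fin n, f (a + 1) = ∑ t ∈ Icc 1 n, f t := by
  rw [Fin.sum_univ_eq_sum_range (fun a => f (a + 1)) n]
  refine sum_bij' (fun a _ => a + 1) (fun a _ => a - 1) ?_ ?_ ?_ ?_ ?_
  · intro a ha; rw [mem_range] at ha; rw [mem_Icc]; omega
  · intro a ha; rw [mem_Icc] at ha; rw [mem_range]; omega
  · intro a ha; simp
  · intro a ha; rw [mem_Icc] at ha; omega
  · intro a ha; rfl

lemma sum_idx {M : Type*} [AddCommMonoid M] (n f L : ℕ) (h : L = n + f) (g : ℕ → M) :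
    ∑ a : Fin n ⊕ Fin f, g (idx n a) = ∑ t ∈ Icc 1 L, g t := by
  subst h
  rw [Fintype.sum_sum_type]
  simp only [idx_inl, idx_inr]
  rw [← sum_Fin_Icc, Fin.sum_univ_add]
  rfl

namespace Par

variable (p : Par)

def O11 (n : ℕ) : Matrix (Fin n) (Fin n) ℚ := fun a b => Om p.phi p.psi p.κ (a + 1) (b + 1)

/-- the entries of the inverse: first index a column index `t`, second index a row index `i` -/
def Nf (n t i : ℕ) : ℚ := 1 / (Ra p.phi p.κ n i * Ra p.psi p.κ n t * ((p.κ : ℚ) - i - t))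
def NN (n : ℕ) : Matrix (Fin n) (Fin n) ℚ := fun a b => p.Nf n (a + 1) (b + 1)
def Xf (n i i' : ℕ) : ℚ := Ra p.phi p.κ n i / (((i : ℚ) - i') * Ra p.phi p.κ n i')
def XX (n e : ℕ) : Matrix (Fin e) (Fin n) ℚ := fun a b => p.Xf n (n + a + 1) (b + 1)
def Yf (n t' t : ℕ) : ℚ := Ra p.psi p.κ n t / (((t : ℚ) - t') * Ra p.psi p.κ n t')
def YY (n f : ℕ) : Matrix (Fin n) (Fin f) ℚ := fun a b => p.Yf n (a + 1) (n + b + 1)
def Sf (n i t : ℕ) : ℚ := Ra p.phi p.κ n i * Ra p.psi p.κ n t / ((p.κ : ℚ) - i - t)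
def SS (n e f : ℕ) : Matrix (Fin e) (Fin f) ℚ := fun a b => p.Sf n (n + a + 1) (n + b + 1)
def OO (n e f : ℕ) : Matrix (Fin n ⊕ Fin e) (Fin n ⊕ Fin f) ℚ :=
  fun a b => Om p.phi p.psi p.κ (idx n a) (idx n b)

lemma sub_ne (i t : ℕ) (h : i + t < p.κ) : (p.κ : ℚ) - i - t ≠ 0 := by
  intro hc
  have : (p.κ : ℚ) = ((i + t : ℕ) : ℚ) := by push_cast; linarith
  have : p.κ = i + t := by exact_mod_cast this
  omega

lemma cinv (n i i' : ℕ) (hn : n ≤ p.d) (hi : i ≤ p.d ∨ i ≤ p.L) (hi' : i' ∈ Icc 1 n) :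
    ∑ t ∈ Icc 1 n, Om p.phi p.psi p.κ i t * p.Nf n t i'
      = if i = i' then 1 else if i ∈ Icc 1 n then 0 else p.Xf n i i' := by
  have g1 := p.hd1
  have g2 := p.hρ
  have g3 := p.hL1
  exact cauchy_inv p.phi p.psi p.κ n i i' hi' (p.phi_ne i') (fun t _ => p.psi_ne t)
    (fun t ht => p.sub_ne i t (by rw [mem_Icc] at ht; omega))
    (fun s hs t ht => p.sub_ne s t (by rw [mem_Icc] at ht hs; omega))

lemma cinv' (n t t' : ℕ) (hn : n ≤ p.d) (hi : t ≤ p.d ∨ t ≤ p.L) (hi' : t' ∈ Icc 1 n) :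
    ∑ i ∈ Icc 1 n, p.Nf n t' i * Om p.phi p.psi p.κ i t
      = if t = t' then 1 else if t ∈ Icc 1 n then 0 else p.Yf n t' t := by
  have g1 := p.hd1
  have g2 := p.hρ
  have g3 := p.hL1
  have := cauchy_inv p.psi p.phi p.κ n t t' hi' (p.psi_ne t') (fun t _ => p.phi_ne t)
    (fun s hs => p.sub_ne t s (by rw [mem_Icc] at hs; omega))
    (fun s hs t ht => p.sub_ne s t (by rw [mem_Icc] at ht hs; omega))
  rw [← show _ = (if t = t' then 1 else if t ∈ Icc 1 n then 0 else p.Yf n t' t) from this]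
  apply sum_congr rfl
  intro i _
  have e1 : Om p.psi p.phi p.κ t i = Om p.phi p.psi p.κ i t := by
    unfold Om
    rw [mul_comm]; congr 1; ring
  have e2 : (1 / (Ra p.psi p.κ n t' * Ra p.phi p.κ n i * ((p.κ : ℚ) - t' - i))) = p.Nf n t' i := by
    unfold Nf
    congr 1
    ring
  rw [e1, e2, mul_comm]

lemma O11_mul_N (n : ℕ) (hn : n ≤ p.d) : p.O11 n * p.NN n = 1 := by
  ext a b
  rw [Matrix.mul_apply]
  unfold O11 NN
  rw [sum_Fin_Icc n (fun t => Om p.phi p.psi p.κ (a + 1) t * p.Nf n t (b + 1))]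
  have hb : (b : ℕ) + 1 ∈ Icc 1 n := by rw [mem_Icc]; omega
  have ha : (a : ℕ) + 1 ∈ Icc 1 n := by rw [mem_Icc]; omega
  rw [p.cinv n (a + 1) (b + 1) hn (by omega) hb, if_pos ha, Matrix.one_apply]
  by_cases h : a = b
  · subst h; simp
  · have : (a : ℕ) + 1 ≠ b + 1 := fun hc => h (Fin.ext (by omega))
    rw [if_neg h, if_neg this]

lemma N_mul_O11 (n : ℕ) (hn : n ≤ p.d) : p.NN n * p.O11 n = 1 :=
  mul_eq_one_comm.mp (p.O11_mul_N n hn)

/-- the block factorisation -/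
lemma OO_eq (n e f : ℕ) (he : n + e ≤ p.d) (hf : n + f ≤ p.L) :
    p.OO n e f = LX (p.XX n e) * DD (p.O11 n) (p.SS n e f) * UY (p.YY n f) := by
  have g1 := p.hd1
  have g2 := p.hρ
  have g3 := p.hL1
  have g3' := p.hL2
  set O12 : Matrix (Fin n) (Fin f) ℚ := fun a b => Om p.phi p.psi p.κ (a + 1) (n + b + 1) with h12
  set O21 : Matrix (Fin e) (Fin n) ℚ := fun a b => Om p.phi p.psi p.κ (n + a + 1) (b + 1) with h21
  have hX : O21 * p.NN n = p.XX n e := by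
    ext a b
    rw [Matrix.mul_apply]
    unfold NN XX
    rw [h21, sum_Fin_Icc n (fun t => Om p.phi p.psi p.κ (n + a + 1) t * p.Nf n t (b + 1))]
    have hb : (b : ℕ) + 1 ∈ Icc 1 n := by rw [mem_Icc]; omega
    have ha : n + (a : ℕ) + 1 ∉ Icc 1 n := by rw [mem_Icc]; omega
    rw [p.cinv n (n + a + 1) (b + 1) (by omega) (by omega) hb, if_neg ha, if_neg (by omega)]
  have hY : p.NN n * O12 = p.YY n f := by
    ext a b
    rw [Matrix.mul_apply]
    unfold NN YY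
    rw [h12, sum_Fin_Icc n (fun i => p.Nf n (a + 1) i * Om p.phi p.psi p.κ i (n + b + 1))]
    have hb : (a : ℕ) + 1 ∈ Icc 1 n := by rw [mem_Icc]; omega
    have ha : n + (b : ℕ) + 1 ∉ Icc 1 n := by rw [mem_Icc]; omega
    rw [p.cinv' n (n + b + 1) (a + 1) (by omega) (by omega) hb, if_neg ha, if_neg (by omega)]
  have hX2 : p.XX n e * p.O11 n = O21 := by
    rw [← hX, Matrix.mul_assoc, p.N_mul_O11 n (by omega), Matrix.mul_one]
  have hY2 : p.O11 n * p.YY n f = O12 := by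
    rw [← hY, ← Matrix.mul_assoc, p.O11_mul_N n (by omega), Matrix.one_mul]
  unfold LX DD UY
  rw [fromBlocks_multiply, fromBlocks_multiply]
  simp only [Matrix.one_mul, Matrix.zero_mul, Matrix.mul_zero, add_zero, zero_add, Matrix.mul_one]
  rw [hX2, hY2]
  have h22 : ∀ a b, Om p.phi p.psi p.κ (n + (a : Fin e) + 1) (n + (b : Fin f) + 1)
      = (O21 * p.YY n f + p.SS n e f) a b := by
    intro a b
    have h := cauchy_schur p.phi p.psi p.κ n (n + a + 1) (n + b + 1)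
      (by rw [mem_Icc]; omega) (by rw [mem_Icc]; omega) (fun s _ => p.phi_ne s)
      (p.sub_ne _ _ (by omega))
      (fun s hs => p.sub_ne _ _ (by rw [mem_Icc] at hs; omega))
      (fun s hs => p.sub_ne _ _ (by rw [mem_Icc] at hs; omega))
      (fun s hs t ht => p.sub_ne _ _ (by rw [mem_Icc] at hs ht; omega))
    rw [h, Matrix.add_apply, ← hX2, Matrix.mul_assoc, hY2, Matrix.mul_apply, h12]
    unfold XX
    rw [sum_Fin_Icc n (fun s => p.Xf n (n + a + 1) s * Om p.phi p.psi p.κ s (n + b + 1))]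
    rfl
  ext (a | a) (b | b)
  · rfl
  · simp only [fromBlocks_apply₁₂, h12, OO, idx_inl, idx_inr]
  · simp only [fromBlocks_apply₂₁, h21, OO, idx_inl, idx_inr]
  · simp only [fromBlocks_apply₂₂, OO, idx_inr]
    exact h22 a b

/-- valuation of the diagonal Schur complement -/
lemma vq_Sf_diag (n : ℕ) (hn : n < p.d) : vq (p.Sf n (n + 1) (n + 1)) = p.sl (n + 1) ∧
    p.Sf n (n + 1) (n + 1) ≠ 0 := by
  have g1 := p.hd1
  have g1' := p.hd2
  have g2 := p.hρ
  have g3 := p.hL1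
  have g3' := p.hL2
  set B : ℕ := 6 * p.κ + 20 with hBdef
  have hB2 : (B : ℤ) < 2 ^ B := by exact_mod_cast Nat.lt_two_pow_self
  have hB : 2 * (p.κ : ℤ) + 2 ≤ 2 ^ B := by omega
  have h1 := (p.dat n).Ap_eq B 1 (by norm_num)
  rw [p.Ap_eq' (by omega) B hB n 1 (by omega)] at h1
  simp only [range_one, sum_singleton, Nat.cast_zero, Nat.cast_one, zero_add, sub_zero] at h1
  have h2 : p.F (n + 1) - p.F n = p.sl (n + 1) := by
    unfold F; rw [sum_range_succ]; ring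
  rw [h2] at h1
  have hden := vq_den p.κ n (n + 1) (by omega)
  have hR1 : Ra p.phi p.κ n (n + 1) ≠ 0 :=
    div_ne_zero (mul_ne_zero (p.phi_ne _) (num_ne_zero _ _)) hden.2
  have hR2 : Ra p.psi p.κ n (n + 1) ≠ 0 :=
    div_ne_zero (mul_ne_zero (p.psi_ne _) (num_ne_zero _ _)) hden.2
  have hs := p.sub_ne (n + 1) (n + 1) (by omega)
  refine ⟨?_, div_ne_zero (mul_ne_zero hR1 hR2) hs⟩
  unfold Sf
  rw [vq_div (mul_ne_zero hR1 hR2) hs, vq_mul hR1 hR2,
    p.vq_Ra_phi B hB n (n + 1) hn.le (by omega) (by omega),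
    p.vq_Ra_psi B hB n (n + 1) hn.le (by omega) (by omega)]
  have e1 : ((p.κ : ℚ) - ((n + 1 : ℕ) : ℚ) - ((n + 1 : ℕ) : ℚ))
      = (((p.κ : ℤ) - ((n + 1 : ℕ) : ℤ) - ((n + 1 : ℕ) : ℤ) : ℤ) : ℚ) := by push_cast; ring
  rw [e1, vq_int, h1]
  unfold Dat.Tp Dat.u
  have e2 : (p.dat n).mu + 1 - (1 + 1) = (p.κ : ℤ) - ((n + 1 : ℕ) : ℤ) - ((n + 1 : ℕ) : ℤ) := by
    simp only [dat]; push_cast; ring
  rw [e2, vB_pos_eq B _ (by omega) (by omega)]
  have e3 : ((n + 1 : ℕ) : ℤ) - n = 1 := by push_cast; ring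
  rw [e3]
  simp only [dat]; ring

lemma det_O11 (n : ℕ) (hn : n ≤ p.d) : vq (det (p.O11 n)) = p.F n ∧ det (p.O11 n) ≠ 0 := by
  have g1 := p.hd1
  have g1' := p.hd2
  have g2 := p.hρ
  have g3 := p.hL1
  have g3' := p.hL2
  induction n with
  | zero => simp [vq, F]
  | succ n ih =>
    obtain ⟨ih1, ih2⟩ := ih (by omega)
    have h1 := p.OO_eq n 1 1 hn (by omega)
    have h2 : det (p.OO n 1 1) = det (p.O11 n) * p.Sf n (n + 1) (n + 1) := by
      rw [h1, det_mul, det_mul]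
      unfold LX DD UY
      rw [det_fromBlocks_zero₁₂, det_fromBlocks_zero₁₂, det_fromBlocks_zero₂₁]
      simp only [det_one, mul_one, one_mul]
      congr 1
      rw [det_unique]
      rfl
    have h3 : det (p.O11 (n + 1)) = det (p.OO n 1 1) := by
      rw [← det_reindex_self finSumFinEquiv (p.OO n 1 1)]
      congr 1
      ext a b
      rw [reindex_apply, submatrix_apply]
      unfold OO O11
      have key : ∀ a : Fin (n + 1), idx n (finSumFinEquiv.symm a) = (a : ℕ) + 1 := by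
        intro a
        obtain ⟨c, rfl⟩ := finSumFinEquiv.surjective a
        rw [Equiv.symm_apply_apply]
        rcases c with c | c
        · rfl
        · simp [idx_inr]
      rw [key, key]
    obtain ⟨h4, h5⟩ := p.vq_Sf_diag n (by omega)
    rw [h3, h2]
    refine ⟨?_, mul_ne_zero ih2 h5⟩
    rw [vq_mul ih2 h5, ih1, h4]
    unfold F
    rw [sum_range_succ]

end Par

end Pool.Agent.helper83.BC
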