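import Pool.Agent.helper83.BCMain1

set_option autoImplicit false

namespace Pool.Agent.helper83.BC

open Finset Matrix Polynomial

lemma norm_eq_vq {q : ℚ} (hq : q ≠ 0) : ‖(q : ℚ_[2])‖ = (2 : ℝ) ^ (-(vq q)) := by
  have h : (q : ℚ_[2]) ≠ 0 := by exact_mod_cast hq
  rw [Padic.norm_eq_zpow_neg_valuation h, Padic.valuation_ratCast]
  rfl

lemma norm_le_of_vq {q : ℚ} {e : ℤ} (h : q = 0 ∨ e ≤ vq q) : ‖(q : ℚ_[2])‖ ≤ (2 : ℝ) ^ (-e) := by
  by_cases hq : q = 0
  · subst hq; simp; positivity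
  · rw [norm_eq_vq hq]
    apply zpow_le_zpow_right₀ (by norm_num)
    rcases h with h | h
    · exact absurd h hq
    · omega

lemma vq_of_norm_le {q : ℚ} {e : ℤ} (hq : q ≠ 0) (h : ‖(q : ℚ_[2])‖ ≤ (2 : ℝ) ^ (-e)) :
    e ≤ vq q := by
  rw [norm_eq_vq hq] at h
  have := (zpow_le_zpow_iff_right₀ (by norm_num : (1 : ℝ) < 2)).1 h
  omega

/-- lift of a rational number to the 2-adic integers (junk value `0` if impossible) -/
noncomputable def lift2 (q : ℚ) : ℤ_[2] := if h : ‖(q : ℚ_[2])‖ ≤ 1 then ⟨q, h⟩ else 0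

lemma ι_lift2 {q : ℚ} (h : ‖(q : ℚ_[2])‖ ≤ 1) : ι (lift2 q) = q := by
  unfold lift2; rw [dif_pos h]; rfl

lemma norm_lift2 {q : ℚ} (h : ‖(q : ℚ_[2])‖ ≤ 1) : ‖lift2 q‖ = ‖(q : ℚ_[2])‖ := by
  unfold lift2; rw [dif_pos h]; rfl

lemma norm_le_one_of_half {x : ℚ_[2]} (h : ‖x‖ ≤ 2⁻¹) : ‖x‖ ≤ 1 := h.trans (by norm_num)

lemma toZMod_lift2_of_half {q : ℚ} (h : ‖(q : ℚ_[2])‖ ≤ 2⁻¹) :
    PadicInt.toZMod (lift2 q) = 0 := by
  have h1 : lift2 q ∈ IsLocalRing.maximalIdeal ℤ_[2] := by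
    rw [IsLocalRing.mem_maximalIdeal, PadicInt.mem_nonunits, norm_lift2 (norm_le_one_of_half h)]
    exact lt_of_le_of_lt h (by norm_num)
  rw [← PadicInt.ker_toZMod] at h1
  exact h1

lemma lift2_add {x y : ℚ} (hx : ‖(x : ℚ_[2])‖ ≤ 1) (hy : ‖(y : ℚ_[2])‖ ≤ 1) :
    lift2 (x + y) = lift2 x + lift2 y := by
  have h : ‖((x + y : ℚ) : ℚ_[2])‖ ≤ 1 := by
    push_cast
    exact (Padic.nonarchimedean _ _).trans (max_le hx hy)
  apply Subtype.ext
  have h1 := ι_lift2 h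
  have h2 := ι_lift2 hx
  have h3 := ι_lift2 hy
  have : ι (lift2 (x + y)) = ι (lift2 x + lift2 y) := by
    rw [map_add, h1, h2, h3]; push_cast; rfl
  exact this

lemma norm_intCast_le (z : ℤ) : ‖((z : ℚ) : ℚ_[2])‖ ≤ 1 := by
  have := Padic.norm_int_le_one (p := 2) z
  simpa using this

lemma lift2_int (z : ℤ) : lift2 (z : ℚ) = z := by
  apply Subtype.ext
  have h1 := ι_lift2 (norm_intCast_le z)
  have : ι (lift2 (z : ℚ)) = ι (z : ℤ_[2]) := by
    rw [h1, map_intCast]; simp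
  exact this

lemma norm_sum_le' {S : Finset ℕ} {f : ℕ → ℚ} {C : ℝ} (hC : 0 ≤ C)
    (h : ∀ s ∈ S, ‖((f s : ℚ) : ℚ_[2])‖ ≤ C) : ‖((∑ s ∈ S, f s : ℚ) : ℚ_[2])‖ ≤ C := by
  induction S using Finset.induction_on with
  | empty => simpa using hC
  | insert a S ha ih =>
    rw [sum_insert ha]
    push_cast
    have h1 := h a (mem_insert_self _ _)
    have h2 := ih (fun s hs => h s (mem_insert_of_mem hs))
    push_cast at h2
    exact (Padic.nonarchimedean _ _).trans (max_le h1 h2)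

lemma charpolyRev_map' {R S : Type*} [CommRing R] [CommRing S] {n : Type*} [Fintype n]
    [DecidableEq n] (φ : R →+* S) (M : Matrix n n R) :
    (M.map φ).charpolyRev = M.charpolyRev.map φ := by
  unfold charpolyRev
  rw [← coe_mapRingHom, RingHom.map_det]
  congr 1
  refine Matrix.ext fun i j => ?_
  simp [Matrix.one_apply, apply_ite (Polynomial.map φ)]

namespace Par

variable (p : Par)

/-- the data of the matrix of `T_2` -/
structure MD where
  Tf : ℕ → ℕ → ℚ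
  Qt : ℕ → ℕ → ℤ
  E : ℕ → ℕ → ℚ
  hT : ∀ i ∈ Icc 1 p.d, ∀ j ∈ Icc 1 p.d, Tf i j =
    ∑ s ∈ Icc 1 p.L, Om p.phi p.psi p.κ i s * Qt s j + E i j
  hQ : ∀ s ∈ Icc 1 p.L, ∀ j ∈ Icc 1 p.d, ((Qt s j : ℤ) : ZMod 2) = if s = j then 1 else 0
  hE : ∀ i ∈ Icc 1 p.d, ∀ j ∈ Icc 1 p.d, E i j = 0 ∨ 2 * (p.κ : ℤ) + 1 ≤ vq (E i j)

variable {p} (m : p.MD)

/-- the matrix -/
def MD.T : Matrix (Fin p.d) (Fin p.d) ℚ := fun a b => m.Tf (a + 1) (b + 1)

/-- correction -/
def MD.Ff (s j : ℕ) : ℚ := if s ≤ p.d then ∑ i ∈ Icc 1 p.d, p.Nf p.d s i * m.E i j else 0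

def MD.Qf (s j : ℕ) : ℚ := (m.Qt s j : ℚ) + m.Ff s j

lemma dL (p : Par) (hd : 1 ≤ p.d) : p.d ≤ p.L := by
  have g1 := p.hd1
  have g1' := p.hd2
  have g2 := p.hρ
  have g3 := p.hL1
  have g3' := p.hL2
  omega

lemma MD.T_eq (hd : 1 ≤ p.d) (i : ℕ) (hi : i ∈ Icc 1 p.d) (j : ℕ) (hj : j ∈ Icc 1 p.d) :
    m.Tf i j = ∑ s ∈ Icc 1 p.L, Om p.phi p.psi p.κ i s * m.Qf s j := by
  rw [m.hT i hi j hj]
  unfold MD.Qf
  simp only [mul_add, sum_add_distrib]
  congr 1
  have hdL := dL p hd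
  have h1 : ∑ s ∈ Icc 1 p.L, Om p.phi p.psi p.κ i s * m.Ff s j
      = ∑ s ∈ Icc 1 p.d, Om p.phi p.psi p.κ i s * m.Ff s j := by
    symm
    apply sum_subset
    · intro s hs; rw [mem_Icc] at hs ⊢; omega
    · intro s hs hs'
      rw [mem_Icc] at hs hs'
      unfold MD.Ff
      rw [if_neg (by omega), mul_zero]
  rw [h1]
  have h2 : ∀ s ∈ Icc 1 p.d, Om p.phi p.psi p.κ i s * m.Ff s j
      = ∑ i' ∈ Icc 1 p.d, Om p.phi p.psi p.κ i s * p.Nf p.d s i' * m.E i' j := by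
    intro s hs
    rw [mem_Icc] at hs
    unfold MD.Ff
    rw [if_pos hs.2, mul_sum]
    apply sum_congr rfl
    intro i' _; ring
  rw [sum_congr rfl h2, sum_comm]
  simp_rw [← sum_mul]
  have h3 : ∀ i' ∈ Icc 1 p.d, (∑ s ∈ Icc 1 p.d, Om p.phi p.psi p.κ i s * p.Nf p.d s i') * m.E i' j
      = if i' = i then m.E i j else 0 := by
    intro i' hi'
    rw [p.cinv p.d i i' le_rfl (by rw [mem_Icc] at hi; omega) hi', if_pos hi]
    by_cases h : i = i'
    · rw [if_pos h, if_pos h.symm, h]; ring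
    · rw [if_neg h, if_neg (Ne.symm h)]; ring
  rw [sum_congr rfl h3, sum_ite_eq' (Icc 1 p.d) i, if_pos hi]

lemma Nf_ne (n t i : ℕ) (hd : 1 ≤ p.d) (hi : i ≤ p.d) (ht : t ≤ p.d) (hn : n ≤ p.d) :
    p.Nf n t i ≠ 0 := by
  have g1 := p.hd1
  have g2 := p.hρ
  have hden1 := vq_den p.κ n i (by omega)
  have hden2 := vq_den p.κ n t (by omega)
  unfold Nf
  apply one_div_ne_zero
  exact mul_ne_zero (mul_ne_zero (div_ne_zero (mul_ne_zero (p.phi_ne _) (num_ne_zero _ _)) hden1.2)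
    (div_ne_zero (mul_ne_zero (p.psi_ne _) (num_ne_zero _ _)) hden2.2)) (p.sub_ne _ _ (by omega))

lemma vq_Nf (n t i : ℕ) (hd : 1 ≤ p.d) (hi : i ≤ p.d) (ht : t ≤ p.d) (hn : n ≤ p.d) :
    vq (p.Nf n t i) = - (vq (Ra p.phi p.κ n i) + vq (Ra p.psi p.κ n t)
      + vz ((p.κ : ℤ) - i - t)) := by
  have g1 := p.hd1
  have g2 := p.hρ
  have hden1 := vq_den p.κ n i (by omega)
  have hden2 := vq_den p.κ n t (by omega)
  have h1 : Ra p.phi p.κ n i ≠ 0 :=
    div_ne_zero (mul_ne_zero (p.phi_ne _) (num_ne_zero _ _)) hden1.2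
  have h2 : Ra p.psi p.κ n t ≠ 0 :=
    div_ne_zero (mul_ne_zero (p.psi_ne _) (num_ne_zero _ _)) hden2.2
  have h3 := p.sub_ne i t (by omega)
  unfold Nf
  rw [vq_div one_ne_zero (mul_ne_zero (mul_ne_zero h1 h2) h3), vq_mul (mul_ne_zero h1 h2) h3,
    vq_mul h1 h2]
  have e1 : ((p.κ : ℚ) - i - t) = (((p.κ : ℤ) - i - t : ℤ) : ℚ) := by push_cast; ring
  rw [e1, vq_int]
  have : vq 1 = 0 := by simp [vq]
  rw [this]; ring

lemma MD.norm_Ff (s j : ℕ) (hs : 1 ≤ s) (hj : j ∈ Icc 1 p.d) :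
    ‖((m.Ff s j : ℚ) : ℚ_[2])‖ ≤ 2⁻¹ := by
  unfold MD.Ff
  split_ifs with h
  · apply norm_sum_le' (by norm_num)
    intro i hi
    have := norm_le_of_vq (q := p.Nf p.d s i * m.E i j) (e := 1) (by
      rcases m.hE i hi j hj with h0 | h0
      · left; rw [h0, mul_zero]
      · by_cases hE : m.E i j = 0
        · left; rw [hE, mul_zero]
        · right
          rw [mem_Icc] at hi
          rw [vq_mul (p.Nf_ne p.d s i (by omega) hi.2 h le_rfl) hE, p.vq_Nf p.d s i (by omega) hi.2 h le_rfl]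
          have := p.last_d i s hi.1 hi.2 hs h
          omega)
    simpa using this
  · simp

lemma MD.norm_Qf (s j : ℕ) (hs : 1 ≤ s) (hj : j ∈ Icc 1 p.d) :
    ‖((m.Qf s j : ℚ) : ℚ_[2])‖ ≤ 1 := by
  unfold MD.Qf
  push_cast
  refine (Padic.nonarchimedean _ _).trans (max_le ?_ ?_)
  · have := norm_intCast_le (m.Qt s j)
    simpa using this
  · exact norm_le_one_of_half (m.norm_Ff s j hs hj)

lemma MD.toZMod_Qf (s j : ℕ) (hs : s ∈ Icc 1 p.L) (hj : j ∈ Icc 1 p.d) :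
    PadicInt.toZMod (lift2 (m.Qf s j)) = if s = j then 1 else 0 := by
  rw [mem_Icc] at hs
  unfold MD.Qf
  rw [lift2_add (norm_intCast_le _) (norm_le_one_of_half (m.norm_Ff s j hs.1 hj)), map_add,
    toZMod_lift2_of_half (m.norm_Ff s j hs.1 hj), add_zero, lift2_int, map_intCast]
  exact m.hQ s (mem_Icc.2 hs) j hj

/-- the coefficient matrix in block form -/
def MD.QM (n e f : ℕ) : Matrix (Fin n ⊕ Fin f) (Fin n ⊕ Fin e) ℚ :=
  fun a b => m.Qf (idx n a) (idx n b)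

lemma MD.QM_apply (n e f : ℕ) (a : Fin n ⊕ Fin f) (b : Fin n ⊕ Fin e) :
    m.QM n e f a b = m.Qf (idx n a) (idx n b) := rfl

/-- the reindexed matrix is the product of the block matrices -/
lemma MD.charpolyRev_eq (hd : 1 ≤ p.d) (n e f : ℕ) (he : p.d = n + e) (hf : p.L = n + f) :
    m.T.charpolyRev = (p.OO n e f * m.QM n e f).charpolyRev := by
  have key : m.T.charpolyRev = (reindex ((finCongr he).trans finSumFinEquiv.symm)
      ((finCongr he).trans finSumFinEquiv.symm) m.T).charpolyRev := by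
    rw [← reverse_charpoly, ← reverse_charpoly, charpoly_reindex]
  rw [key]
  congr 1
  have hidx : ∀ a : Fin n ⊕ Fin e,
      ((((finCongr he).trans finSumFinEquiv.symm).symm a : Fin p.d) : ℕ) + 1 = idx n a := by
    intro a
    rcases a with a | a
    · simp [idx_inl]
    · simp [idx_inr]
  have hmem : ∀ a : Fin n ⊕ Fin e, idx n a ∈ Icc 1 p.d := by
    intro a
    rw [mem_Icc, he]
    rcases a with a | a
    · rw [idx_inl]; omega
    · rw [idx_inr]; omega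
  ext a b
  rw [reindex_apply, submatrix_apply]
  unfold MD.T
  rw [hidx, hidx, m.T_eq hd _ (hmem a) _ (hmem b), Matrix.mul_apply]
  rw [← sum_idx n f p.L hf (fun s => Om p.phi p.psi p.κ (idx n a) s * m.Qf s (idx n b))]
  rfl

/-- coefficient formula -/
lemma MD.coeff_eq (hd : 1 ≤ p.d) (n e f : ℕ) (he : p.d = n + e) (hf : p.L = n + f) (s : ℤ)
    (hN : ∀ t i : ℕ, 1 ≤ t → t ≤ n → 1 ≤ i → i ≤ n → -s ≤ vq (p.Nf n t i))
    (hS : ∀ i t : ℕ, n < i → i ≤ p.d → n < t → t ≤ p.L →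
      s ≤ vq (Ra p.phi p.κ n i) + vq (Ra p.psi p.κ n t) - vz ((p.κ : ℤ) - i - t))
    (hX : ∀ i i' : ℕ, n < i → i ≤ p.d → 1 ≤ i' → i' ≤ n →
      0 < vq (Ra p.phi p.κ n i) - vq (Ra p.phi p.κ n i') - vz ((i : ℤ) - i'))
    (hY : ∀ t t' : ℕ, n < t → t ≤ p.L → 1 ≤ t' → t' ≤ n →
      0 < vq (Ra p.psi p.κ n t) - vq (Ra p.psi p.κ n t') - vz ((t : ℤ) - t')) :
    ∃ G : ℤ_[2][X], (∀ r : ℕ, ((m.T.charpolyRev.coeff r : ℚ) : ℚ_[2])
      = ((det (p.O11 n) : ℚ) : ℚ_[2]) * (2:ℚ_[2]) ^ (s * (r - n)) * ι (G.coeff r)) ∧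
      ((∀ t i : ℕ, 1 ≤ t → t ≤ n → 1 ≤ i → i ≤ n → -s + 1 ≤ vq (p.Nf n t i)) →
        IsUnit (G.coeff n)) := by
  have g1 := p.hd1
  have g1' := p.hd2
  have g2 := p.hρ
  have g3 := p.hL1
  have g3' := p.hL2
  -- rational cast
  set φ : ℚ →+* ℚ_[2] := Rat.castHom ℚ_[2] with hφ
  have hRane : ∀ i, i ≤ p.d → Ra p.phi p.κ n i ≠ 0 := by
    intro i hi
    exact div_ne_zero (mul_ne_zero (p.phi_ne _) (num_ne_zero _ _)) (vq_den p.κ n i (by omega)).2
  have hRbne : ∀ t, t ≤ p.L → Ra p.psi p.κ n t ≠ 0 := by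
    intro t ht
    exact div_ne_zero (mul_ne_zero (p.psi_ne _) (num_ne_zero _ _)) (vq_den p.κ n t (by omega)).2
  -- X is divisible by 2
  have hXn : ∀ (a : Fin e) (b : Fin n), ‖((p.XX n e a b : ℚ) : ℚ_[2])‖ ≤ 2⁻¹ := by
    intro a b
    have := norm_le_of_vq (q := p.XX n e a b) (e := 1) (by
      right
      unfold XX Xf
      have h1 := hRane (n + a + 1) (by omega)
      have h2 := hRane (b + 1) (by omega)
      have e1 : (((n + a + 1 : ℕ) : ℚ) - ((b + 1 : ℕ) : ℚ))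
        = ((((n + a + 1 : ℕ) : ℤ) - ((b + 1 : ℕ) : ℤ) : ℤ) : ℚ) := by push_cast; ring
      have h3 : (((n + a + 1 : ℕ) : ℚ) - ((b + 1 : ℕ) : ℚ)) ≠ 0 := by
        rw [e1]
        have : (((n + a + 1 : ℕ) : ℤ) - ((b + 1 : ℕ) : ℤ)) ≠ 0 := by omega
        exact_mod_cast this
      rw [vq_div h1 (mul_ne_zero h3 h2), vq_mul h3 h2, e1, vq_int]
      have := hX (n + a + 1) (b + 1) (by omega) (by omega) (by omega) (by omega)
      omega)
    simpa using this
  have hYn : ∀ (a : Fin n) (b : Fin f), ‖((p.YY n f a b : ℚ) : ℚ_[2])‖ ≤ 2⁻¹ := by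
    intro a b
    have := norm_le_of_vq (q := p.YY n f a b) (e := 1) (by
      right
      unfold YY Yf
      have h1 := hRbne (n + b + 1) (by omega)
      have h2 := hRbne (a + 1) (by omega)
      have e1 : (((n + b + 1 : ℕ) : ℚ) - ((a + 1 : ℕ) : ℚ))
        = ((((n + b + 1 : ℕ) : ℤ) - ((a + 1 : ℕ) : ℤ) : ℤ) : ℚ) := by push_cast; ring
      have h3 : (((n + b + 1 : ℕ) : ℚ) - ((a + 1 : ℕ) : ℚ)) ≠ 0 := by
        rw [e1]
        have : (((n + b + 1 : ℕ) : ℤ) - ((a + 1 : ℕ) : ℤ)) ≠ 0 := by omega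
        exact_mod_cast this
      rw [vq_div h1 (mul_ne_zero h3 h2), vq_mul h3 h2, e1, vq_int]
      have := hY (n + b + 1) (a + 1) (by omega) (by omega) (by omega) (by omega)
      omega)
    simpa using this
  set Xi : Matrix (Fin e) (Fin n) ℤ_[2] := (p.XX n e).map lift2 with hXi
  set Yi : Matrix (Fin n) (Fin f) ℤ_[2] := (p.YY n f).map lift2 with hYi
  set Qm : Matrix (Fin n ⊕ Fin f) (Fin n ⊕ Fin e) ℚ := m.QM n e f with hQm
  set Qi : Matrix (Fin n ⊕ Fin f) (Fin n ⊕ Fin e) ℤ_[2] := Qm.map lift2 with hQi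
  have hmem : ∀ a : Fin n ⊕ Fin e, idx n a ∈ Icc 1 p.d := by
    intro a
    rw [mem_Icc, he]
    rcases a with a | a
    · rw [idx_inl]; omega
    · rw [idx_inr]; omega
  have hmem' : ∀ a : Fin n ⊕ Fin f, idx n a ∈ Icc 1 p.L := by
    intro a
    rw [mem_Icc, hf]
    rcases a with a | a
    · rw [idx_inl]; omega
    · rw [idx_inr]; omega
  have hXm : (p.XX n e).map φ = Xi.map ι := by
    ext a b; rw [hXi]; simp only [Matrix.map_apply]
    rw [ι_lift2 (norm_le_one_of_half (hXn a b))]; rfl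
  have hYm : (p.YY n f).map φ = Yi.map ι := by
    ext a b; rw [hYi]; simp only [Matrix.map_apply]
    rw [ι_lift2 (norm_le_one_of_half (hYn a b))]; rfl
  have hQm' : Qm.map φ = Qi.map ι := by
    ext a b; rw [hQi]; simp only [Matrix.map_apply]
    rw [hQm, m.QM_apply, ι_lift2 (m.norm_Qf _ _ (mem_Icc.1 (hmem' a)).1 (hmem b))]; rfl
  -- N
  set Ai : Matrix (Fin n) (Fin n) ℤ_[2] := ((2:ℚ) ^ s • p.NN n).map lift2 with hAi
  have h2s : vq ((2:ℚ) ^ s) = s := by
    unfold vq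
    rw [padicValRat.zpow]
    have : padicValRat 2 (2 : ℚ) = 1 := by
      have := padicValRat.self (p := 2) (by norm_num)
      simpa using this
    rw [this]; ring
  have h2sne : ((2:ℚ) ^ s) ≠ 0 := zpow_ne_zero _ (by norm_num)
  have hAn : ∀ (a b : Fin n), ‖((((2:ℚ) ^ s • p.NN n) a b : ℚ) : ℚ_[2])‖ ≤ 1 := by
    intro a b
    have := norm_le_of_vq (q := ((2:ℚ) ^ s • p.NN n) a b) (e := 0) (by
      right
      rw [Matrix.smul_apply, smul_eq_mul]
      unfold NN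
      rw [vq_mul h2sne (p.Nf_ne n _ _ hd (by omega) (by omega) (by omega)), h2s]
      have := hN (a + 1) (b + 1) (by omega) (by omega) (by omega) (by omega)
      omega)
    simpa using this
  have hAm : (2:ℚ_[2]) ^ s • (p.NN n).map φ = Ai.map ι := by
    ext a b; rw [hAi]; simp only [Matrix.map_apply]
    rw [ι_lift2 (hAn a b), Matrix.smul_apply, Matrix.smul_apply]
    simp only [smul_eq_mul, Matrix.map_apply, hφ, Rat.coe_castHom]
    push_cast; rfl
  -- S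
  set Bi : Matrix (Fin e) (Fin f) ℤ_[2] := (((2:ℚ) ^ s)⁻¹ • p.SS n e f).map lift2 with hBi
  have hBn : ∀ (a : Fin e) (b : Fin f),
      ‖((((((2:ℚ) ^ s)⁻¹ • p.SS n e f) a b : ℚ)) : ℚ_[2])‖ ≤ 1 := by
    intro a b
    have := norm_le_of_vq (q := (((2:ℚ) ^ s)⁻¹ • p.SS n e f) a b) (e := 0) (by
      right
      rw [Matrix.smul_apply, smul_eq_mul]
      unfold SS Sf
      have h1 := hRane (n + a + 1) (by omega)
      have h2 := hRbne (n + b + 1) (by omega)
      have h3 := p.sub_ne (n + a + 1) (n + b + 1) (by omega)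
      rw [vq_mul (inv_ne_zero h2sne) (div_ne_zero (mul_ne_zero h1 h2) h3),
        vq_div (mul_ne_zero h1 h2) h3, vq_mul h1 h2]
      have e1 : ((p.κ : ℚ) - ((n + a + 1 : ℕ) : ℚ) - ((n + b + 1 : ℕ) : ℚ))
        = (((p.κ : ℤ) - ((n + a + 1 : ℕ) : ℤ) - ((n + b + 1 : ℕ) : ℤ) : ℤ) : ℚ) := by
        push_cast; ring
      rw [e1, vq_int]
      have h4 : vq (((2:ℚ) ^ s)⁻¹) = -s := by
        unfold vq at h2s ⊢
        rw [padicValRat.inv, h2s]
      rw [h4]
      have := hS (n + a + 1) (n + b + 1) (by omega) (by omega) (by omega) (by omega)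
      omega)
    simpa using this
  have hBm : ((2:ℚ_[2]) ^ s)⁻¹ • (p.SS n e f).map φ = Bi.map ι := by
    ext a b; rw [hBi]; simp only [Matrix.map_apply]
    rw [ι_lift2 (hBn a b), Matrix.smul_apply, Matrix.smul_apply]
    simp only [smul_eq_mul, Matrix.map_apply, hφ, Rat.coe_castHom]
    push_cast; rfl
  -- the product
  have hNN : (p.O11 n).map φ * (p.NN n).map φ = 1 := by
    rw [← Matrix.map_mul, p.O11_mul_N n (by omega)]
    ext a b; simp [Matrix.one_apply, apply_ite φ]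
  have hcoef := assembly_coeff ((p.O11 n).map φ) ((p.NN n).map φ) hNN s Ai hAm
    ((p.SS n e f).map φ) Bi hBm Xi Yi Qi
  have hT : (m.T.charpolyRev).map φ =
      (LX (Xi.map ι) * DD ((p.O11 n).map φ) ((p.SS n e f).map φ) * UY (Yi.map ι)
        * (Qi.map ι)).charpolyRev := by
    rw [m.charpolyRev_eq hd n e f he hf, ← charpolyRev_map', Matrix.map_mul,
      p.OO_eq n e f (by omega) (by omega), Matrix.map_mul, Matrix.map_mul, ← hXm, ← hYm, ← hQm']
    have hL : (LX (p.XX n e)).map φ = LX ((p.XX n e).map φ) := by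
      ext (i | i) (j | j) <;> simp [LX, Matrix.one_apply, apply_ite φ]
    have hU : (UY (p.YY n f)).map φ = UY ((p.YY n f).map φ) := by
      ext (i | i) (j | j) <;> simp [UY, Matrix.one_apply, apply_ite φ]
    have hD : (DD (p.O11 n) (p.SS n e f)).map φ
        = DD ((p.O11 n).map φ) ((p.SS n e f).map φ) := by
      ext (i | i) (j | j) <;> simp [DD]
    rw [hL, hU, hD]
  refine ⟨GG Ai Bi (UY Yi * Qi * LX Xi), ?_, ?_⟩
  · intro r
    have h1 := hcoef r
    rw [← hT, coeff_map] at h1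
    have h2 : det ((p.O11 n).map φ) = ((det (p.O11 n) : ℚ) : ℚ_[2]) := by
      have := RingHom.map_det φ (p.O11 n)
      rw [RingHom.mapMatrix_apply] at this
      rw [← this]; rfl
    rw [h2, Fintype.card_fin] at h1
    exact h1
  · intro hN1
    have hu := assembly_unit (n := Fin n) (e := Fin e) (f := Fin f) Ai (by
      intro a b
      rw [hAi, Matrix.map_apply]
      apply toZMod_lift2_of_half
      have := norm_le_of_vq (q := ((2:ℚ) ^ s • p.NN n) a b) (e := 1) (by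
        right
        rw [Matrix.smul_apply, smul_eq_mul]
        unfold NN
        rw [vq_mul h2sne (p.Nf_ne n _ _ hd (by omega) (by omega) (by omega)), h2s]
        have := hN1 (a + 1) (b + 1) (by omega) (by omega) (by omega) (by omega)
        omega)
      simpa using this) Bi Xi (by
      intro a b
      rw [hXi, Matrix.map_apply]
      exact toZMod_lift2_of_half (hXn a b)) Yi (by
      intro a b
      rw [hYi, Matrix.map_apply]
      exact toZMod_lift2_of_half (hYn a b)) Qi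
      (fun a b => if (a : ℕ) = b then 1 else 0) (by
      ext (a | a) (b | b)
      · rw [Matrix.map_apply, hQi, Matrix.map_apply, hQm, m.QM_apply,
          m.toZMod_Qf _ _ (hmem' _) (hmem _), idx_inl, idx_inl]
        simp only [DD, fromBlocks_apply₁₁, Matrix.one_apply]
        congr 1
        apply propext
        rw [Fin.ext_iff]
        omega
      · rw [Matrix.map_apply, hQi, Matrix.map_apply, hQm, m.QM_apply,
          m.toZMod_Qf _ _ (hmem' _) (hmem _), idx_inl, idx_inr]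
        simp only [DD, fromBlocks_apply₁₂, Matrix.zero_apply]
        rw [if_neg (by omega)]
      · rw [Matrix.map_apply, hQi, Matrix.map_apply, hQm, m.QM_apply,
          m.toZMod_Qf _ _ (hmem' _) (hmem _), idx_inl, idx_inr]
        simp only [DD, fromBlocks_apply₂₁, Matrix.zero_apply]
        rw [if_neg (by omega)]
      · rw [Matrix.map_apply, hQi, Matrix.map_apply, hQm, m.QM_apply,
          m.toZMod_Qf _ _ (hmem' _) (hmem _), idx_inr, idx_inr]
        simp only [DD, fromBlocks_apply₂₂]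
        congr 1
        apply propext
        omega)
    rwa [Fintype.card_fin] at hu

end Par

end Pool.Agent.helper83.BC
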