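import Pool.Agent.helper83.BCMain2

set_option autoImplicit false

namespace Pool.Agent.helper83.BC

open Finset Matrix Polynomial

lemma norm_two_zpow (a : ℤ) : ‖(2 : ℚ_[2]) ^ a‖ = (2 : ℝ) ^ (-a) := by
  have := Padic.norm_p_zpow (p := 2) a
  simpa using this

lemma norm_formula {q D : ℚ} (hD : D ≠ 0) (a : ℤ) (g : ℤ_[2])
    (h : (q : ℚ_[2]) = (D : ℚ_[2]) * (2 : ℚ_[2]) ^ a * ι g) :
    ‖(q : ℚ_[2])‖ = (2 : ℝ) ^ (-(vq D + a)) * ‖g‖ := by
  rw [h, norm_mul, norm_mul, norm_two_zpow, norm_eq_vq hD, ← zpow_add₀ (by norm_num)]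
  congr 2
  ring

lemma val_le_of_formula {q D : ℚ} (hD : D ≠ 0) (a : ℤ) (g : ℤ_[2])
    (h : (q : ℚ_[2]) = (D : ℚ_[2]) * (2 : ℚ_[2]) ^ a * ι g) (hq : q ≠ 0) :
    vq D + a ≤ vq q := by
  apply vq_of_norm_le hq
  rw [norm_formula hD a g h]
  have := PadicInt.norm_le_one g
  exact mul_le_of_le_one_right (by positivity) this

lemma val_eq_of_formula {q D : ℚ} (hD : D ≠ 0) (g : ℤ_[2]) (hg : IsUnit g)
    (h : (q : ℚ_[2]) = (D : ℚ_[2]) * ι g) :
    q ≠ 0 ∧ vq q = vq D := by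
  have h1 : (q : ℚ_[2]) = (D : ℚ_[2]) * (2 : ℚ_[2]) ^ (0 : ℤ) * ι g := by
    rw [h]; simp
  have h2 := norm_formula hD 0 g h1
  rw [PadicInt.isUnit_iff.1 hg, mul_one, add_zero] at h2
  have hq : q ≠ 0 := by
    intro hq
    rw [hq] at h2
    simp only [Rat.cast_zero, norm_zero] at h2
    have : (0 : ℝ) < 2 ^ (-vq D) := by positivity
    linarith
  refine ⟨hq, ?_⟩
  rw [norm_eq_vq hq] at h2
  have := zpow_right_injective₀ (by norm_num : (0 : ℝ) < 2) (by norm_num) h2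
  omega

namespace Par

variable {p : Par} (m : p.MD)

/-- conclusion at a vertex `n < d` -/
theorem MD.vertex (n : ℕ) (hn : n < p.d) (σ : ℝ) (hσ : 0 < σ)
    (hA : ∀ P : ℕ, 1 ≤ P → n + P ≤ p.d → (P : ℝ) * σ ≤ ((p.F (n + P) - p.F n : ℤ) : ℝ))
    (hBm : ∀ P : ℕ, 1 ≤ P → P ≤ n → ((p.F n - p.F (n - P) : ℤ) : ℝ) < P * σ) :
    (m.T.charpolyRev.coeff n ≠ 0 ∧ vq (m.T.charpolyRev.coeff n) = p.F n) ∧
    ∀ r, m.T.charpolyRev.coeff r ≠ 0 →
      (p.F n : ℝ) + ((r : ℝ) - n) * σ ≤ vq (m.T.charpolyRev.coeff r) := by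
  have hd : 1 ≤ p.d := by omega
  have hdL := dL p hd
  obtain ⟨hS, hN, hX, hY⟩ := p.vertex_vals n hn σ hσ hA hBm
  obtain ⟨hdet, hdet0⟩ := p.det_O11 n hn.le
  have hS' : ∀ i t : ℕ, n < i → i ≤ p.d → n < t → t ≤ p.L →
      ⌈σ⌉ ≤ vq (Ra p.phi p.κ n i) + vq (Ra p.psi p.κ n t) - vz ((p.κ : ℤ) - i - t) := by
    intro i t h1 h2 h3 h4
    exact Int.ceil_le.2 (hS i t h1 h2 h3 h4)
  have hN' : ∀ t i : ℕ, 1 ≤ t → t ≤ n → 1 ≤ i → i ≤ n → -⌈σ⌉ + 1 ≤ vq (p.Nf n t i) := by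
    intro t i h1 h2 h3 h4
    rw [p.vq_Nf n t i hd (by omega) (by omega) hn.le]
    have h5 := hN i t h3 h4 h1 h2
    have h6 := Int.lt_ceil.2 h5
    omega
  obtain ⟨G, hG1, hG2⟩ := m.coeff_eq hd n (p.d - n) (p.L - n) (by omega) (by omega) ⌈σ⌉
    (fun t i h1 h2 h3 h4 => by have := hN' t i h1 h2 h3 h4; omega) hS' hX hY
  obtain ⟨G', hG1', _⟩ := m.coeff_eq hd n (p.d - n) (p.L - n) (by omega) (by omega) (⌈σ⌉ - 1)
    (fun t i h1 h2 h3 h4 => by have := hN' t i h1 h2 h3 h4; omega)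
    (fun i t h1 h2 h3 h4 => by have := hS' i t h1 h2 h3 h4; omega) hX hY
  constructor
  · have h1 := hG1 n
    rw [sub_self, mul_zero, zpow_zero, mul_one] at h1
    have := val_eq_of_formula hdet0 (G.coeff n) (hG2 hN') h1
    rwa [hdet] at this
  · intro r hr
    rcases le_or_gt n r with hnr | hnr
    · have h1 := val_le_of_formula hdet0 _ _ (hG1 r) hr
      rw [hdet] at h1
      have h2 : (p.F n : ℝ) + (⌈σ⌉ : ℝ) * ((r : ℝ) - n) ≤ vq (m.T.charpolyRev.coeff r) := by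
        exact_mod_cast h1
      have h3 : σ ≤ (⌈σ⌉ : ℝ) := Int.le_ceil σ
      have h4 : (0 : ℝ) ≤ (r : ℝ) - n := by
        have : (n : ℝ) ≤ r := by exact_mod_cast hnr
        linarith
      nlinarith
    · have h1 := val_le_of_formula hdet0 _ _ (hG1' r) hr
      rw [hdet] at h1
      have h2 : (p.F n : ℝ) + ((⌈σ⌉ : ℝ) - 1) * ((r : ℝ) - n) ≤ vq (m.T.charpolyRev.coeff r) := by
        exact_mod_cast h1
      have h3 : (⌈σ⌉ : ℝ) < σ + 1 := Int.ceil_lt_add_one σ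
      have h4 : (r : ℝ) - n ≤ 0 := by
        have : (r : ℝ) ≤ n := by exact_mod_cast hnr.le
        linarith
      nlinarith

/-- conclusion at the last vertex `d` -/
theorem MD.last (hd : 1 ≤ p.d) :
    m.T.charpolyRev.coeff p.d ≠ 0 ∧ vq (m.T.charpolyRev.coeff p.d) = p.F p.d := by
  have hdL := dL p hd
  obtain ⟨hdet, hdet0⟩ := p.det_O11 p.d le_rfl
  have hN' : ∀ t i : ℕ, 1 ≤ t → t ≤ p.d → 1 ≤ i → i ≤ p.d →
      -(2 * (p.κ : ℤ) + 1) + 1 ≤ vq (p.Nf p.d t i) := by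
    intro t i h1 h2 h3 h4
    rw [p.vq_Nf p.d t i hd (by omega) (by omega) le_rfl]
    have h5 := p.last_d i t h3 h4 h1 h2
    omega
  obtain ⟨G, hG1, hG2⟩ := m.coeff_eq hd p.d 0 (p.L - p.d) (by omega) (by omega)
    (2 * (p.κ : ℤ) + 1)
    (fun t i h1 h2 h3 h4 => by have := hN' t i h1 h2 h3 h4; omega)
    (fun i t h1 h2 => by omega) (fun i t h1 h2 => by omega)
    (fun t t' h1 h2 h3 h4 => p.last_b t t' h1 h2 h3 h4)
  have h1 := hG1 p.d
  rw [sub_self, mul_zero, zpow_zero, mul_one] at h1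
  have := val_eq_of_formula hdet0 (G.coeff p.d) (hG2 hN') h1
  rwa [hdet] at this

end Par

/-! ### Walk lemma -/

/-- `n` is the leftmost minimiser of `F i - σ i` and `σ > 0`. -/
def LM (F : ℕ → ℝ) (d n : ℕ) (σ : ℝ) : Prop :=
  0 < σ ∧ (∀ P : ℕ, 1 ≤ P → n + P ≤ d → (P : ℝ) * σ ≤ F (n + P) - F n) ∧
    (∀ P : ℕ, 1 ≤ P → P ≤ n → F n - F (n - P) < P * σ)

/-- the next slope -/
lemma next_slope (F : ℕ → ℝ) (d n : ℕ) (hn : n < d) :
    ∃ (σ : ℝ) (n' : ℕ), n < n' ∧ n' ≤ d ∧ F n' = F n + σ * ((n' : ℝ) - n) ∧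
      (∀ P : ℕ, 1 ≤ P → n + P ≤ d → (P : ℝ) * σ ≤ F (n + P) - F n) ∧
      (∀ P : ℕ, 1 ≤ P → n' + P ≤ d → (P : ℝ) * σ < F (n' + P) - F n') := by
  -- minimal slope
  obtain ⟨P0, hP0, hmin⟩ := exists_min_image (Icc 1 (d - n))
    (fun P : ℕ => (F (n + P) - F n) / P) ⟨1, by rw [mem_Icc]; omega⟩
  rw [mem_Icc] at hP0
  set σ := (F (n + P0) - F n) / P0 with hσ
  -- largest P attaining
  obtain ⟨P1, hP1, hmax⟩ := exists_max_image
    ((Icc 1 (d - n)).filter (fun P : ℕ => (F (n + P) - F n) / P = σ)) (fun P => P)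
    ⟨P0, by rw [mem_filter, mem_Icc]; exact ⟨hP0, rfl⟩⟩
  rw [mem_filter, mem_Icc] at hP1
  have key : ∀ P : ℕ, 1 ≤ P → n + P ≤ d → (P : ℝ) * σ ≤ F (n + P) - F n := by
    intro P h1 h2
    have h3 := hmin P (by rw [mem_Icc]; omega)
    have hP : (0 : ℝ) < P := by exact_mod_cast h1
    rw [le_div_iff₀ hP] at h3
    linarith
  have hP1' : (0 : ℝ) < P1 := by exact_mod_cast hP1.1.1
  have e1 : F (n + P1) = F n + σ * P1 := by
    have := hP1.2
    rw [div_eq_iff hP1'.ne'] at this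
    linarith
  refine ⟨σ, n + P1, by omega, by omega, ?_, key, ?_⟩
  · rw [e1]; push_cast; ring
  · intro P h1 h2
    have h3 := key (P1 + P) (by omega) (by omega)
    have h4 : (P1 + P : ℕ) ∉ (Icc 1 (d - n)).filter (fun P : ℕ => (F (n + P) - F n) / P = σ) := by
      intro hc
      have := hmax _ hc
      omega
    rw [mem_filter, mem_Icc, not_and] at h4
    have h5 := h4 ⟨by omega, by omega⟩
    have hPP : (0 : ℝ) < ((P1 + P : ℕ) : ℝ) := by exact_mod_cast (by omega : 0 < P1 + P)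
    have h6 : ((P1 + P : ℕ) : ℝ) * σ ≠ F (n + (P1 + P)) - F n := by
      intro hc
      apply h5
      rw [div_eq_iff hPP.ne']
      linarith
    have h7 := lt_of_le_of_ne h3 h6
    have e2 : n + (P1 + P) = n + P1 + P := by ring
    rw [e2] at h7
    push_cast at h7
    rw [e1]
    nlinarith

lemma walk (F : ℕ → ℝ) (d : ℕ) (hF : ∀ P : ℕ, 1 ≤ P → P ≤ d → 0 < F P) (hF0 : F 0 = 0)
    (r : ℕ) (hr : r < d) :
    ∃ (n n' : ℕ) (σ : ℝ), n ≤ r ∧ r < n' ∧ n' ≤ d ∧ LM F d n σ ∧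
      F n' = F n + σ * ((n' : ℝ) - n) ∧ (n' = d ∨ ∃ σ', LM F d n' σ') := by
  classical
  -- `0` is a vertex
  have h0 : ∃ σ, LM F d 0 σ := by
    obtain ⟨σ, n', h1, h2, h3, h4, h5⟩ := next_slope F d 0 (by omega)
    refine ⟨σ, ?_, h4, by intro P h6 h7; omega⟩
    have h6 := hF n' h1 h2
    rw [h3, hF0] at h6
    have h7 : (0 : ℝ) < (n' : ℝ) - (0 : ℕ) := by
      have : (0 : ℝ) < n' := by exact_mod_cast h1
      simpa using this
    by_contra hc
    push Not at hc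
    nlinarith
  -- maximal vertex ≤ r
  obtain ⟨n, hn, hmax⟩ := exists_max_image
    ((Icc 0 r).filter (fun n => ∃ σ, LM F d n σ)) (fun n => n)
    ⟨0, by rw [mem_filter, mem_Icc]; exact ⟨by omega, h0⟩⟩
  rw [mem_filter, mem_Icc] at hn
  obtain ⟨⟨_, hnr⟩, σ0, hσ0, hA0, hB0⟩ := hn
  obtain ⟨σ, n', h1, h2, h3, h4, h5⟩ := next_slope F d n (by omega)
  have hnn' : (0 : ℝ) < (n' : ℝ) - n := by
    have : (n : ℝ) < n' := by exact_mod_cast h1
    linarith
  have hσσ : σ0 ≤ σ := by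
    have h6 := hA0 (n' - n) (by omega) (by omega)
    have e : n + (n' - n) = n' := by omega
    rw [e, h3] at h6
    have e2 : ((n' - n : ℕ) : ℝ) = (n' : ℝ) - n := by
      rw [Nat.cast_sub h1.le]
    rw [e2] at h6
    by_contra hc
    push Not at hc
    nlinarith
  have hLM : LM F d n σ := by
    refine ⟨lt_of_lt_of_le hσ0 hσσ, h4, ?_⟩
    intro P h6 h7
    have := hB0 P h6 h7
    have hP : (0 : ℝ) < P := by exact_mod_cast h6
    nlinarith
  have hnext : n' = d ∨ ∃ σ', LM F d n' σ' := by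
    rcases eq_or_lt_of_le h2 with h6 | h6
    · left; exact h6
    · right
      obtain ⟨σ', n'', g1, g2, g3, g4, g5⟩ := next_slope F d n' h6
      have hlt : σ < σ' := by
        have h7 := h5 (n'' - n') (by omega) (by omega)
        have e : n' + (n'' - n') = n'' := by omega
        rw [e, g3] at h7
        have e2 : ((n'' - n' : ℕ) : ℝ) = (n'' : ℝ) - n' := by
          rw [Nat.cast_sub g1.le]
        rw [e2] at h7
        have : (0 : ℝ) < (n'' : ℝ) - n' := by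
          have : (n' : ℝ) < n'' := by exact_mod_cast g1
          linarith
        by_contra hc
        push Not at hc
        nlinarith
      refine ⟨σ', lt_trans hLM.1 hlt, g4, ?_⟩
      intro P h7 h8
      -- F (n' - P) ≥ F n' - P σ
      have hP : (0 : ℝ) < P := by exact_mod_cast h7
      have hge : F n' - F (n' - P) ≤ P * σ := by
        rcases le_or_gt n (n' - P) with hc | hc
        · rcases Nat.eq_or_lt_of_le hc with hc' | hc'
          · rw [← hc', h3]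
            have : (P : ℝ) = (n' : ℝ) - n := by
              have : n' = n + P := by omega
              rw [this]; push_cast; ring
            rw [this]; linarith
          · have h9 := h4 (n' - P - n) (by omega) (by omega)
            have e : n + (n' - P - n) = n' - P := by omega
            rw [e] at h9
            have e2 : ((n' - P - n : ℕ) : ℝ) = (n' : ℝ) - P - n := by
              rw [Nat.cast_sub hc, Nat.cast_sub h8]
            rw [e2] at h9
            rw [h3]; nlinarith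
        · have h9 := hLM.2.2 (n - (n' - P)) (by omega) (by omega)
          have e : n - (n - (n' - P)) = n' - P := by omega
          rw [e] at h9
          have e2 : ((n - (n' - P) : ℕ) : ℝ) = (n : ℝ) - ((n' : ℝ) - P) := by
            rw [Nat.cast_sub hc.le, Nat.cast_sub h8]
          rw [e2] at h9
          rw [h3]; nlinarith
      nlinarith
  refine ⟨n, n', σ, hnr, ?_, h2, hLM, h3, hnext⟩
  rcases hnext with h6 | h6
  · omega
  · by_contra hc
    have := hmax n' (by rw [mem_filter, mem_Icc]; exact ⟨⟨by omega, by omega⟩, h6⟩)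
    omega

/-! ### Newton polygons -/

/-- The Newton polygon of a polynomial at 2, as the region above it: the convex hull of the
vertical rays starting at the points `(n, v₂(cₙ))` with `cₙ ≠ 0`. -/
def newtonPolygon (P : ℚ[X]) : Set (ℝ × ℝ) :=
  convexHull ℝ {x : ℝ × ℝ | ∃ n : ℕ, P.coeff n ≠ 0 ∧ x.1 = n ∧
    (padicValRat 2 (P.coeff n) : ℝ) ≤ x.2}

lemma mem_np_of_chord {P : ℚ[X]} {n n' : ℕ} {f f' : ℝ} (hn : P.coeff n ≠ 0)
    (hf : (vq (P.coeff n) : ℝ) = f) (hn' : P.coeff n' ≠ 0)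
    (hf' : (vq (P.coeff n') : ℝ) = f') (σ : ℝ) (hff : f' = f + σ * ((n' : ℝ) - n)) (hnn : n < n')
    {x : ℝ × ℝ} {r : ℕ} (hr1 : n ≤ r) (hr2 : r ≤ n') (hx1 : x.1 = r)
    (hx2 : f + σ * ((r : ℝ) - n) ≤ x.2) : x ∈ newtonPolygon P := by
  set δ : ℝ := x.2 - (f + σ * ((r : ℝ) - n)) with hδ
  have hδ0 : 0 ≤ δ := by rw [hδ]; linarith
  have hpos : (0 : ℝ) < (n' : ℝ) - n := by
    have : (n : ℝ) < n' := by exact_mod_cast hnn
    linarith
  have ha : ((n : ℝ), f + δ) ∈ newtonPolygon P := by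
    apply subset_convexHull
    exact ⟨n, hn, rfl, by
      have : (padicValRat 2 (P.coeff n) : ℝ) = f := hf
      rw [this]; simp only []; linarith⟩
  have hb : ((n' : ℝ), f' + δ) ∈ newtonPolygon P := by
    apply subset_convexHull
    exact ⟨n', hn', rfl, by
      have : (padicValRat 2 (P.coeff n') : ℝ) = f' := hf'
      rw [this]; simp only []; linarith⟩
  have hconv : Convex ℝ (newtonPolygon P) := convex_convexHull ℝ _
  have h1 : (0 : ℝ) ≤ ((n' : ℝ) - r) / ((n' : ℝ) - n) := by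
    apply div_nonneg _ hpos.le
    have : (r : ℝ) ≤ n' := by exact_mod_cast hr2
    linarith
  have h2 : (0 : ℝ) ≤ ((r : ℝ) - n) / ((n' : ℝ) - n) := by
    apply div_nonneg _ hpos.le
    have : (n : ℝ) ≤ r := by exact_mod_cast hr1
    linarith
  have h3 : ((n' : ℝ) - r) / ((n' : ℝ) - n) + ((r : ℝ) - n) / ((n' : ℝ) - n) = 1 := by
    rw [← add_div, div_eq_one_iff_eq hpos.ne']; ring
  have := hconv ha hb h1 h2 h3
  have e : x = (((n' : ℝ) - r) / ((n' : ℝ) - n)) • ((n : ℝ), f + δ)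
      + (((r : ℝ) - n) / ((n' : ℝ) - n)) • ((n' : ℝ), f' + δ) := by
    ext
    · simp only [Prod.fst_add, Prod.smul_fst, smul_eq_mul]
      rw [hx1]
      field_simp
      ring
    · simp only [Prod.snd_add, Prod.smul_snd, smul_eq_mul]
      rw [hff, hδ]
      field_simp
      ring
  rw [e]
  exact this

lemma mem_np_point {P : ℚ[X]} {n : ℕ} (hn : P.coeff n ≠ 0) {x : ℝ × ℝ} (hx1 : x.1 = n)
    (hx2 : (vq (P.coeff n) : ℝ) ≤ x.2) : x ∈ newtonPolygon P :=
  subset_convexHull ℝ _ ⟨n, hn, hx1, hx2⟩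

/-- The Newton polygons coincide. -/
theorem np_eq (p : Par) (m : p.MD) (hd : 1 ≤ p.d) (Q : ℚ[X])
    (hQ : ∀ n ≤ p.d, Q.coeff n ≠ 0 ∧ vq (Q.coeff n) = p.F n)
    (hQ2 : ∀ n, p.d < n → Q.coeff n = 0)
    (hF : ∀ P : ℕ, 1 ≤ P → P ≤ p.d → 0 < p.F P) :
    newtonPolygon m.T.charpolyRev = newtonPolygon Q := by
  have hF0 : p.F 0 = 0 := by simp [Par.F]
  have hdeg : ∀ n, p.d < n → m.T.charpolyRev.coeff n = 0 := by
    intro n hn
    apply coeff_eq_zero_of_natDegree_lt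
    rw [← Matrix.reverse_charpoly]
    have h1 := Polynomial.reverse_natDegree_le (Matrix.charpoly (R := ℚ) m.T)
    rw [Matrix.charpoly_natDegree_eq_dim, Fintype.card_fin] at h1
    omega
  have hw := walk (fun n => (p.F n : ℝ)) p.d (fun P h1 h2 => by
    have := hF P h1 h2
    exact_mod_cast this) (by simp [hF0])
  have hvert : ∀ n σ, n < p.d → LM (fun n => (p.F n : ℝ)) p.d n σ →
    (m.T.charpolyRev.coeff n ≠ 0 ∧ vq (m.T.charpolyRev.coeff n) = p.F n) ∧
    ∀ r, m.T.charpolyRev.coeff r ≠ 0 →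
      (p.F n : ℝ) + ((r : ℝ) - n) * σ ≤ vq (m.T.charpolyRev.coeff r) := by
    intro n σ hn hLM
    apply m.vertex n hn σ hLM.1
    · intro P h1 h2
      have := hLM.2.1 P h1 h2
      push_cast
      exact this
    · intro P h1 h2
      have := hLM.2.2 P h1 h2
      push_cast
      exact this
  have hlast := m.last hd
  -- value at next vertices
  have hnext : ∀ n', n' ≤ p.d → (n' = p.d ∨ ∃ σ', LM (fun n => (p.F n : ℝ)) p.d n' σ') →
      m.T.charpolyRev.coeff n' ≠ 0 ∧ vq (m.T.charpolyRev.coeff n') = p.F n' := by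
    intro n' h1 h2
    rcases eq_or_lt_of_le h1 with h3 | h3
    · rw [h3]; exact hlast
    · rcases h2 with h2 | ⟨σ', h2⟩
      · rw [h2]; exact hlast
      · exact (hvert n' σ' h3 h2).1
  apply Set.Subset.antisymm
  · apply convexHull_min _ (convex_convexHull ℝ _)
    rintro x ⟨r, hr, hx1, hx2⟩
    have hrd : r ≤ p.d := by
      by_contra hc
      exact hr (hdeg r (by omega))
    rcases eq_or_lt_of_le hrd with h3 | h3
    · subst h3
      apply mem_np_point (hQ _ le_rfl).1 hx1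
      rw [(hQ _ le_rfl).2, ← hlast.2]
      exact hx2
    · obtain ⟨n, n', σ, h1, h2, h4, hLM, h5, h6⟩ := hw r h3
      have hv := (hvert n σ (by omega) hLM).2 r hr
      apply mem_np_of_chord (hQ n (by omega)).1 (by rw [(hQ n (by omega)).2])
        (hQ n' h4).1 (by rw [(hQ n' h4).2]) σ h5 (by omega) h1 h2.le hx1
      have hx2' : (vq (m.T.charpolyRev.coeff r) : ℝ) ≤ x.2 := hx2
      linarith
  · apply convexHull_min _ (convex_convexHull ℝ _)
    rintro x ⟨r, hr, hx1, hx2⟩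
    have hrd : r ≤ p.d := by
      by_contra hc
      exact hr (hQ2 r (by omega))
    have hx2' : (vq (Q.coeff r) : ℝ) ≤ x.2 := hx2
    rw [(hQ r hrd).2] at hx2'
    rcases eq_or_lt_of_le hrd with h3 | h3
    · subst h3
      apply mem_np_point hlast.1 hx1
      rw [hlast.2]
      exact hx2'
    · obtain ⟨n, n', σ, h1, h2, h4, hLM, h5, h6⟩ := hw r h3
      have hv1 := (hvert n σ (by omega) hLM).1
      have hv2 := hnext n' h4 h6
      apply mem_np_of_chord hv1.1 (by rw [hv1.2]) hv2.1 (by rw [hv2.2]) σ h5 (by omega) h1 h2.le hx1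
      have hle : (p.F n : ℝ) + σ * ((r : ℝ) - n) ≤ p.F r := by
        rcases Nat.eq_or_lt_of_le h1 with h7 | h7
        · rw [h7]; simp
        · have := hLM.2.1 (r - n) (by omega) (by omega)
          have e : n + (r - n) = r := by omega
          rw [e, Nat.cast_sub h1] at this
          linarith
      linarith

end Pool.Agent.helper83.BC
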