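import Mathlib

set_option autoImplicit false

namespace Pool.Agent.helper83.BC

open Polynomial Matrix

section defs

variable {n e f R : Type*} [DecidableEq n] [DecidableEq e] [DecidableEq f] [Zero R] [One R]

def LX (Xm : Matrix e n R) : Matrix (n ⊕ e) (n ⊕ e) R :=
  fromBlocks (1 : Matrix n n R) (0 : Matrix n e R) Xm (1 : Matrix e e R)
def UY (Ym : Matrix n f R) : Matrix (n ⊕ f) (n ⊕ f) R :=
  fromBlocks (1 : Matrix n n R) Ym (0 : Matrix f n R) (1 : Matrix f f R)
omit [DecidableEq n] [DecidableEq e] [DecidableEq f] [One R] in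
def DD (O : Matrix n n R) (S : Matrix e f R) : Matrix (n ⊕ e) (n ⊕ f) R :=
  fromBlocks O (0 : Matrix n f R) (0 : Matrix e n R) S
def D1 (e : Type*) [DecidableEq e] (A : Matrix n n R) : Matrix (n ⊕ e) (n ⊕ e) R :=
  fromBlocks A (0 : Matrix n e R) (0 : Matrix e n R) (1 : Matrix e e R)

end defs

section assembly

variable {n e f : Type*} [Fintype n] [Fintype e] [Fintype f]
  [DecidableEq n] [DecidableEq e] [DecidableEq f]

/-- the integral model of the reversed characteristic polynomial -/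
noncomputable def GG {R : Type*} [CommRing R] (A : Matrix n n R) (Bm : Matrix e f R)
    (Wm : Matrix (n ⊕ f) (n ⊕ e) R) : R[X] :=
  det ((D1 e A).map C - (X : R[X]) • (DD (1 : Matrix n n R) Bm * Wm).map C)

lemma GG_map {R S : Type*} [CommRing R] [CommRing S] (φ : R →+* S) (A : Matrix n n R)
    (Bm : Matrix e f R) (Wm : Matrix (n ⊕ f) (n ⊕ e) R) :
    (GG A Bm Wm).map φ = GG (A.map φ) (Bm.map φ) (Wm.map φ) := by
  unfold GG
  rw [← coe_mapRingHom, RingHom.map_det]
  congr 1
  have h1 : (DD (1 : Matrix n n R) Bm * Wm).map φ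
      = DD (1 : Matrix n n S) (Bm.map φ) * (Wm.map φ) := by
    rw [Matrix.map_mul]
    congr 1
    ext (i | i) (j | j) <;> simp [DD, Matrix.one_apply, apply_ite φ]
  rw [← h1]
  generalize (DD (1 : Matrix n n R) Bm * Wm) = Z
  ext (i | i) (j | j) <;>
    simp [D1, Matrix.one_apply, apply_ite (Polynomial.map φ)]

/-- over any ring: if `A = 0` and `Wm` is block diagonal with upper left block `1`, then the
`n`-th coefficient of `GG` is `± 1`. -/
lemma GG_coeff_special {R : Type*} [CommRing R] (Bm : Matrix e f R) (J : Matrix f e R) :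
    (GG (0 : Matrix n n R) Bm (DD (1 : Matrix n n R) J)).coeff (Fintype.card n)
      = (-1) ^ (Fintype.card n) := by
  unfold GG
  have h1 : (DD (1 : Matrix n n R) Bm * DD (1 : Matrix n n R) J : Matrix (n ⊕ e) (n ⊕ e) R)
      = DD 1 (Bm * J) := by
    unfold DD
    rw [fromBlocks_multiply]; simp
  rw [h1]
  have h2 : ∀ Z : Matrix e e R, ((D1 e (0 : Matrix n n R)).map C
      - (X : R[X]) • (DD 1 Z : Matrix (n ⊕ e) (n ⊕ e) R).map C)
      = fromBlocks ((-X : R[X]) • (1 : Matrix n n R[X])) 0 0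
          (1 - (X : R[X]) • Z.map C) := by
    intro Z
    ext (i | i) (j | j) <;> simp [D1, DD, Matrix.one_apply, apply_ite C]
  rw [h2, det_fromBlocks_zero₂₁, det_smul, det_one, mul_one]
  have h3 : det (1 - (X : R[X]) • (Bm * J).map C) = (Bm * J).charpolyRev := rfl
  rw [h3, neg_pow, mul_assoc, mul_comm (X ^ _), ← mul_assoc, coeff_mul_X_pow']
  rw [if_pos le_rfl, Nat.sub_self]
  have h4 : ((-1 : R[X]) ^ Fintype.card n) = C ((-1) ^ Fintype.card n) := by simp
  rw [h4, coeff_C_mul]
  have h5 : (Bm * J).charpolyRev.coeff 0 = 1 := by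
    rw [coeff_zero_eq_eval_zero, eval_charpolyRev]
  rw [h5, mul_one]

/-- relation between the reversed characteristic polynomial and the integral model. -/
lemma charpolyRev_eq_GG {K : Type*} [Field K] (O11 N : Matrix n n K) (hN : O11 * N = 1)
    (Xm : Matrix e n K) (Ym : Matrix n f K) (Sm : Matrix e f K) (Q : Matrix (n ⊕ f) (n ⊕ e) K)
    (c : K) (hc : c ≠ 0) :
    C (det (c • N)) *
      ((LX Xm * DD O11 Sm * UY Ym * Q).charpolyRev).comp (C c⁻¹ * X) =
    GG (c • N) (c⁻¹ • Sm) (UY Ym * Q * LX Xm) := by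
  have hN' : N * O11 = 1 := mul_eq_one_comm.mp hN
  have h0 : (LX Xm * DD O11 Sm * UY Ym * Q).charpolyRev
      = (DD O11 Sm * (UY Ym * Q * LX Xm)).charpolyRev := by
    unfold charpolyRev
    have e1 : (X : K[X]) • (LX Xm * DD O11 Sm * UY Ym * Q).map C
        = (LX Xm).map C * ((X : K[X]) • (DD O11 Sm * UY Ym * Q).map C) := by
      rw [Matrix.mul_smul, ← Matrix.map_mul, Matrix.mul_assoc, Matrix.mul_assoc, Matrix.mul_assoc]
    rw [e1, det_one_sub_mul_comm, Matrix.smul_mul, ← Matrix.map_mul]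
    simp only [Matrix.mul_assoc]
  rw [h0]
  unfold GG charpolyRev
  have h1 : C (det (c • N)) = det ((D1 e (c • N)).map (C : K →+* K[X])) := by
    have := RingHom.map_det (C : K →+* K[X]) (D1 e (c • N))
    rw [RingHom.mapMatrix_apply] at this
    rw [← this]
    unfold D1
    rw [det_fromBlocks_zero₂₁, det_one, mul_one]
  rw [h1, ← coe_compRingHom_apply, RingHom.map_det, ← det_mul]
  congr 1
  have h2 : ∀ Z : Matrix (n ⊕ e) (n ⊕ e) K, (compRingHom (C c⁻¹ * X : K[X])).mapMatrix
      (1 - (X : K[X]) • Z.map C)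
      = 1 - (X : K[X]) • (c⁻¹ • Z).map C := by
    intro Z
    rw [map_sub, map_one]
    congr 1
    refine Matrix.ext fun i j => ?_
    simp only [RingHom.mapMatrix_apply, Matrix.map_apply, Matrix.smul_apply, smul_eq_mul,
      coe_compRingHom_apply, mul_comp, X_comp, C_comp, map_mul]
    ring
  rw [h2, Matrix.mul_sub, Matrix.mul_one]
  congr 1
  rw [Matrix.mul_smul, ← Matrix.map_mul]
  congr 2
  rw [Matrix.mul_smul, ← Matrix.mul_assoc, ← Matrix.smul_mul]
  congr 1
  unfold D1 DD
  rw [fromBlocks_multiply, fromBlocks_smul]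
  simp only [Matrix.mul_zero, Matrix.zero_mul, add_zero, smul_zero, Matrix.one_mul, zero_add,
    Matrix.smul_mul, hN']
  rw [smul_smul, inv_mul_cancel₀ hc, one_smul]

end assembly

end Pool.Agent.helper83.BC
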