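import Mathlib

set_option autoImplicit false

namespace Pool.Agent.helper83.BC

open UpperHalfPlane ModularForm MatrixGroups Filter Topology Manifold EisensteinSeries

/-! ### The three maps -/

lemma sc0_pos (z : ℍ) : 0 < (2 * (z : ℂ)).im := by
  have := z.im_pos
  simp only [Complex.mul_im, Complex.re_ofNat, Complex.im_ofNat, zero_mul, add_zero]
  have h : (z : ℂ).im = z.im := rfl
  rw [h]; linarith

lemma sc1_pos (z : ℍ) : 0 < ((z : ℂ) / 2).im := by
  have := z.im_pos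
  have h : ((z : ℂ) / 2).im = z.im / 2 := by
    rw [Complex.div_ofNat_im]; rfl
  rw [h]; linarith

lemma sc2_pos (z : ℍ) : 0 < (((z : ℂ) + 1) / 2).im := by
  have := z.im_pos
  have h : (((z : ℂ) + 1) / 2).im = z.im / 2 := by
    rw [Complex.div_ofNat_im, Complex.add_im, Complex.one_im, add_zero]; rfl
  rw [h]; linarith

/-- the point `2 z` -/
noncomputable def sc0 (z : ℍ) : ℍ := ⟨2 * (z : ℂ), sc0_pos z⟩
/-- the point `z / 2` -/
noncomputable def sc1 (z : ℍ) : ℍ := ⟨(z : ℂ) / 2, sc1_pos z⟩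
/-- the point `(z + 1) / 2` -/
noncomputable def sc2 (z : ℍ) : ℍ := ⟨((z : ℂ) + 1) / 2, sc2_pos z⟩

lemma sc0_coe (z : ℍ) : (sc0 z : ℂ) = 2 * z := rfl
lemma sc1_coe (z : ℍ) : (sc1 z : ℂ) = z / 2 := rfl
lemma sc2_coe (z : ℍ) : (sc2 z : ℂ) = (z + 1) / 2 := rfl

open ModularGroup in
lemma coe_S_smul (z : ℍ) : ((S • z : ℍ) : ℂ) = -(z : ℂ)⁻¹ := by
  rw [modular_S_smul]
  exact inv_neg

open ModularGroup in
lemma coe_T_smul (z : ℍ) : ((T • z : ℍ) : ℂ) = (z : ℂ) + 1 := by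
  rw [modular_T_smul, coe_vadd]; push_cast; ring

open ModularGroup in
lemma sc0_S (z : ℍ) : sc0 (S • z) = S • sc1 z := by
  apply UpperHalfPlane.ext
  rw [sc0_coe, coe_S_smul, coe_S_smul, sc1_coe]
  have := z.ne_zero
  field_simp

open ModularGroup in
lemma sc1_S (z : ℍ) : sc1 (S • z) = S • sc0 z := by
  apply UpperHalfPlane.ext
  rw [sc1_coe, coe_S_smul, coe_S_smul, sc0_coe]
  have := z.ne_zero
  field_simp

open ModularGroup in
lemma sc2_S (z : ℍ) : sc2 (S • z) = T • S • T • T • S • sc2 z := by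
  apply UpperHalfPlane.ext
  have h1 := z.ne_zero
  have h2 := (sc2 z).ne_zero
  rw [sc2_coe] at h2
  have h3 := (T • T • S • sc2 z).ne_zero
  rw [coe_T_smul, coe_T_smul, coe_S_smul, sc2_coe] at h3
  rw [sc2_coe, coe_T_smul, coe_S_smul, coe_S_smul, coe_T_smul, coe_T_smul, coe_S_smul, sc2_coe]
  have h4 : (z : ℂ) + 1 ≠ 0 := fun h => h2 (by rw [h]; simp)
  have h5 : -(((z : ℂ) + 1) / 2)⁻¹ + 1 + 1 = 2 * z / (z + 1) := by
    field_simp; ring
  rw [h5]
  field_simp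
  ring

open ModularGroup in
lemma sc0_T (z : ℍ) : sc0 (T • z) = T • T • sc0 z := by
  apply UpperHalfPlane.ext
  rw [sc0_coe, coe_T_smul, coe_T_smul, coe_T_smul, sc0_coe]; ring

open ModularGroup in
lemma sc1_T (z : ℍ) : sc1 (T • z) = sc2 z := by
  apply UpperHalfPlane.ext
  rw [sc1_coe, coe_T_smul, sc2_coe]

open ModularGroup in
lemma sc2_T (z : ℍ) : sc2 (T • z) = T • sc1 z := by
  apply UpperHalfPlane.ext
  rw [sc2_coe, coe_T_smul, coe_T_smul, sc1_coe]; ring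

/-! ### Pointwise modularity -/

/-- modularity of weight `k` for `SL₂(ℤ)`, on the generators, pointwise -/
structure PMod (k : ℕ) (f : ℍ → ℂ) : Prop where
  S : ∀ z : ℍ, f (ModularGroup.S • z) = (z : ℂ) ^ k * f z
  T : ∀ z : ℍ, f (ModularGroup.T • z) = f z

lemma PMod.mul {k l : ℕ} {f g : ℍ → ℂ} (hf : PMod k f) (hg : PMod l g) :
    PMod (k + l) (fun z => f z * g z) where
  S z := by rw [hf.S, hg.S, pow_add]; ring
  T z := by rw [hf.T, hg.T]

lemma PMod.add {k : ℕ} {f g : ℍ → ℂ} (hf : PMod k f) (hg : PMod k g) :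
    PMod k (fun z => f z + g z) where
  S z := by rw [hf.S, hg.S]; ring
  T z := by rw [hf.T, hg.T]

lemma PMod.const_mul {k : ℕ} {f : ℍ → ℂ} (hf : PMod k f) (c : ℂ) :
    PMod k (fun z => c * f z) where
  S z := by rw [hf.S]; ring
  T z := by rw [hf.T]

lemma PMod.pow {k : ℕ} {f : ℍ → ℂ} (hf : PMod k f) (n : ℕ) :
    PMod (k * n) (fun z => f z ^ n) where
  S z := by rw [hf.S, mul_pow, ← pow_mul]
  T z := by rw [hf.T]

lemma PMod.one : PMod 0 (fun _ => 1) where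
  S z := by simp
  T z := rfl

lemma slash_S_iff {k : ℕ} {f : ℍ → ℂ} :
    f ∣[(k : ℤ)] ModularGroup.S = f ↔ ∀ z : ℍ, f (ModularGroup.S • z) = (z : ℂ) ^ k * f z := by
  constructor
  · intro h z
    have h1 := congrFun h z
    rw [SL_slash_apply, ModularGroup.denom_S, zpow_neg, zpow_natCast] at h1
    have hz := pow_ne_zero k z.ne_zero
    field_simp at h1
    rw [h1]
  · intro h
    ext z
    rw [SL_slash_apply, ModularGroup.denom_S, zpow_neg, zpow_natCast, h z]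
    have hz := pow_ne_zero k z.ne_zero
    field_simp

lemma slash_T_iff {k : ℕ} {f : ℍ → ℂ} :
    f ∣[(k : ℤ)] ModularGroup.T = f ↔ ∀ z : ℍ, f (ModularGroup.T • z) = f z := by
  have hd : ∀ z : ℍ, denom (ModularGroup.T : GL (Fin 2) ℝ) z = 1 := by
    intro z
    simp [denom, ModularGroup.T]
  constructor
  · intro h z
    have h1 := congrFun h z
    rw [SL_slash_apply] at h1
    rw [hd, one_zpow, mul_one] at h1
    exact h1
  · intro h
    ext z
    rw [SL_slash_apply]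
    rw [hd, one_zpow, mul_one]
    exact h z

lemma PMod.slash {k : ℕ} {f : ℍ → ℂ} (hf : PMod k f) (γ : SL(2, ℤ)) :
    f ∣[(k : ℤ)] γ = f :=
  SlashInvariantForm.slash_action_generators_SL2Z (slash_S_iff.2 hf.S) (slash_T_iff.2 hf.T) γ

lemma PMod.of_slash {k : ℕ} {f : ℍ → ℂ} (h : ∀ γ : SL(2, ℤ), f ∣[(k : ℤ)] γ = f) : PMod k f :=
  ⟨slash_S_iff.1 (h _), slash_T_iff.1 (h _)⟩

lemma PMod.of_form {k : ℕ} {F : Type*} [FunLike F ℍ ℂ] [SlashInvariantFormClass F 𝒮ℒ (k : ℤ)]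
    (f : F) : PMod k f :=
  PMod.of_slash (fun γ => SlashInvariantFormClass.slash_action_eq f _ ⟨γ, rfl⟩)

/-- build a cusp form -/
def mkCusp (k : ℕ) (f : ℍ → ℂ) (hf : PMod k f) (hd : MDiff f) (h0 : IsZeroAtImInfty f) :
    CuspForm 𝒮ℒ (k : ℤ) where
  toFun := f
  slash_action_eq' A hA := by
    obtain ⟨A, rfl⟩ := hA
    exact hf.slash A
  holo' := hd
  zero_at_cusps' hc := by
    rw [Subgroup.IsArithmetic.isCusp_iff_isCusp_SL2Z] at hc
    rw [OnePoint.isZeroAt_iff_forall_SL2Z hc]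
    intro γ _
    rw [hf.slash γ]
    exact h0

lemma mkCusp_apply (k : ℕ) (f : ℍ → ℂ) (hf : PMod k f) (hd : MDiff f) (h0 : IsZeroAtImInfty f)
    (z : ℍ) : mkCusp k f hf hd h0 z = f z := rfl

/-- there are no cusp forms of weight `< 12` -/
lemma zero_of_small (k : ℕ) (hk : k < 12) (f : ℍ → ℂ) (hf : PMod k f) (hd : MDiff f)
    (h0 : IsZeroAtImInfty f) (z : ℍ) : f z = 0 := by
  have h1 : mkCusp k f hf hd h0 = 0 :=
    rank_zero_iff_forall_zero.mp (CuspForm.rank_eq_zero_of_weight_lt_twelve (by exact_mod_cast hk)) _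
  rw [← mkCusp_apply k f hf hd h0, h1]
  rfl

/-! ### Composition with the three maps -/

lemma tendsto_sc0 : Tendsto sc0 atImInfty atImInfty := by
  rw [atImInfty, tendsto_comap_iff]
  have : (UpperHalfPlane.im ∘ sc0) = fun z => 2 * z.im := by
    ext z
    have : (sc0 z).im = (2 * (z : ℂ)).im := rfl
    simp only [Function.comp_apply, this, Complex.mul_im, Complex.re_ofNat, Complex.im_ofNat,
      zero_mul, add_zero]; rfl
  rw [this]
  exact (tendsto_comap (f := UpperHalfPlane.im)).const_mul_atTop (by norm_num)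

lemma tendsto_sc1 : Tendsto sc1 atImInfty atImInfty := by
  rw [atImInfty, tendsto_comap_iff]
  have : (UpperHalfPlane.im ∘ sc1) = fun z => (1 / 2 : ℝ) * z.im := by
    ext z
    have : (sc1 z).im = ((z : ℂ) / 2).im := rfl
    simp only [Function.comp_apply, this, Complex.div_ofNat_im]
    have h : (z : ℂ).im = z.im := rfl
    rw [h]; ring
  rw [this]
  exact (tendsto_comap (f := UpperHalfPlane.im)).const_mul_atTop (by norm_num)

lemma tendsto_sc2 : Tendsto sc2 atImInfty atImInfty := by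
  rw [atImInfty, tendsto_comap_iff]
  have : (UpperHalfPlane.im ∘ sc2) = fun z => (1 / 2 : ℝ) * z.im := by
    ext z
    have : (sc2 z).im = (((z : ℂ) + 1) / 2).im := rfl
    simp only [Function.comp_apply, this, Complex.div_ofNat_im, Complex.add_im, Complex.one_im,
      add_zero]
    have h : (z : ℂ).im = z.im := rfl
    rw [h]; ring
  rw [this]
  exact (tendsto_comap (f := UpperHalfPlane.im)).const_mul_atTop (by norm_num)

lemma mdiff_comp_aux (f : ℍ → ℂ) (hf : MDiff f) (m : ℍ → ℍ) (g : ℂ → ℂ) (hg : Differentiable ℂ g)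
    (hm : ∀ z : ℍ, (m z : ℂ) = g z) : MDiff (fun z => f (m z)) := by
  rw [UpperHalfPlane.mdifferentiable_iff] at hf ⊢
  have hmaps : Set.MapsTo g {z | 0 < z.im} {z | 0 < z.im} := by
    intro z hz
    have h1 := hm ⟨z, hz⟩
    have h2 : 0 < (m ⟨z, hz⟩ : ℂ).im := (m ⟨z, hz⟩).im_pos
    rw [h1] at h2
    exact h2
  have h3 := hf.comp hg.differentiableOn hmaps
  refine h3.congr ?_
  intro z hz
  simp only [Function.comp_apply]
  congr 1
  apply UpperHalfPlane.ext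
  have hz' : 0 < z.im := hz
  rw [hm, ofComplex_apply_of_im_pos hz', ofComplex_apply_of_im_pos (hmaps hz)]

lemma mdiff_sc0 {f : ℍ → ℂ} (hf : MDiff f) : MDiff (fun z => f (sc0 z)) :=
  mdiff_comp_aux f hf sc0 (fun z => 2 * z) (by fun_prop) sc0_coe

lemma mdiff_sc1 {f : ℍ → ℂ} (hf : MDiff f) : MDiff (fun z => f (sc1 z)) :=
  mdiff_comp_aux f hf sc1 (fun z => z / 2) (by fun_prop) sc1_coe

lemma mdiff_sc2 {f : ℍ → ℂ} (hf : MDiff f) : MDiff (fun z => f (sc2 z)) :=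
  mdiff_comp_aux f hf sc2 (fun z => (z + 1) / 2) (by fun_prop) sc2_coe

/-! ### Triples -/

/-- a triple of functions of weight `w` permuted by `SL₂(ℤ)` like the points above `2` -/
structure Trip (w : ℕ) (G0 G1 G2 : ℍ → ℂ) : Prop where
  S0 : ∀ z : ℍ, G0 (ModularGroup.S • z) = (z : ℂ) ^ w * G1 z
  S1 : ∀ z : ℍ, G1 (ModularGroup.S • z) = (z : ℂ) ^ w * G0 z
  S2 : ∀ z : ℍ, G2 (ModularGroup.S • z) = (z : ℂ) ^ w * G2 z
  T0 : ∀ z : ℍ, G0 (ModularGroup.T • z) = G0 z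
  T1 : ∀ z : ℍ, G1 (ModularGroup.T • z) = G2 z
  T2 : ∀ z : ℍ, G2 (ModularGroup.T • z) = G1 z
  h0 : MDiff G0
  h1 : MDiff G1
  h2 : MDiff G2

namespace Trip

variable {w w' : ℕ} {G0 G1 G2 H0 H1 H2 : ℍ → ℂ}

lemma of_form {w : ℕ} {f : ℍ → ℂ} (hf : PMod w f) (hd : MDiff f) :
    Trip w (fun z => 2 ^ w * f (sc0 z)) (fun z => f (sc1 z)) (fun z => f (sc2 z)) where
  S0 z := by
    rw [sc0_S, hf.S, sc1_coe, div_pow]
    have : (2 : ℂ) ^ w ≠ 0 := pow_ne_zero _ (by norm_num)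
    field_simp
  S1 z := by
    rw [sc1_S, hf.S, sc0_coe, mul_pow]; ring
  S2 z := by
    rw [sc2_S, hf.T, hf.S, hf.T, hf.T, hf.S, coe_T_smul, coe_T_smul, coe_S_smul, ← mul_assoc,
      ← mul_pow]
    congr 2
    have h2 := (sc2 z).ne_zero
    field_simp
    rw [sc2_coe]; ring
  T0 z := by rw [sc0_T, hf.T, hf.T]
  T1 z := by rw [sc1_T]
  T2 z := by rw [sc2_T, hf.T]
  h0 := mdifferentiable_const.mul (mdiff_sc0 hd)
  h1 := mdiff_sc1 hd
  h2 := mdiff_sc2 hd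

lemma mul (hG : Trip w G0 G1 G2) (hH : Trip w' H0 H1 H2) :
    Trip (w + w') (fun z => G0 z * H0 z) (fun z => G1 z * H1 z) (fun z => G2 z * H2 z) where
  S0 z := by rw [hG.S0, hH.S0, pow_add]; ring
  S1 z := by rw [hG.S1, hH.S1, pow_add]; ring
  S2 z := by rw [hG.S2, hH.S2, pow_add]; ring
  T0 z := by rw [hG.T0, hH.T0]
  T1 z := by rw [hG.T1, hH.T1]
  T2 z := by rw [hG.T2, hH.T2]
  h0 := hG.h0.mul hH.h0
  h1 := hG.h1.mul hH.h1
  h2 := hG.h2.mul hH.h2

lemma add (hG : Trip w G0 G1 G2) (hH : Trip w H0 H1 H2) :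
    Trip w (fun z => G0 z + H0 z) (fun z => G1 z + H1 z) (fun z => G2 z + H2 z) where
  S0 z := by rw [hG.S0, hH.S0]; ring
  S1 z := by rw [hG.S1, hH.S1]; ring
  S2 z := by rw [hG.S2, hH.S2]; ring
  T0 z := by rw [hG.T0, hH.T0]
  T1 z := by rw [hG.T1, hH.T1]
  T2 z := by rw [hG.T2, hH.T2]
  h0 := hG.h0.add hH.h0
  h1 := hG.h1.add hH.h1
  h2 := hG.h2.add hH.h2

lemma of_PMod {f : ℍ → ℂ} (hf : PMod w f) (hd : MDiff f) : Trip w f f f where
  S0 z := hf.S z
  S1 z := hf.S z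
  S2 z := hf.S z
  T0 z := hf.T z
  T1 z := hf.T z
  T2 z := hf.T z
  h0 := hd
  h1 := hd
  h2 := hd

lemma const_mul (hG : Trip w G0 G1 G2) (c : ℂ) :
    Trip w (fun z => c * G0 z) (fun z => c * G1 z) (fun z => c * G2 z) where
  S0 z := by rw [hG.S0]; ring
  S1 z := by rw [hG.S1]; ring
  S2 z := by rw [hG.S2]; ring
  T0 z := by rw [hG.T0]
  T1 z := by rw [hG.T1]
  T2 z := by rw [hG.T2]
  h0 := mdifferentiable_const.mul hG.h0
  h1 := mdifferentiable_const.mul hG.h1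
  h2 := mdifferentiable_const.mul hG.h2

lemma sum (hG : Trip w G0 G1 G2) : PMod w (fun z => G0 z + G1 z + G2 z) where
  S z := by rw [hG.S0, hG.S1, hG.S2]; ring
  T z := by rw [hG.T0, hG.T1, hG.T2]; ring

lemma sum_mdiff (hG : Trip w G0 G1 G2) : MDiff (fun z => G0 z + G1 z + G2 z) :=
  (hG.h0.add hG.h1).add hG.h2

lemma prod (hG : Trip w G0 G1 G2) : PMod (3 * w) (fun z => G0 z * G1 z * G2 z) where
  S z := by
    have e : (z : ℂ) ^ (3 * w) = (z : ℂ) ^ w * (z : ℂ) ^ w * (z : ℂ) ^ w := by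
      rw [← pow_add, ← pow_add]; congr 1; ring
    rw [hG.S0, hG.S1, hG.S2, e]; ring
  T z := by rw [hG.T0, hG.T1, hG.T2]; ring

lemma prod_mdiff (hG : Trip w G0 G1 G2) : MDiff (fun z => G0 z * G1 z * G2 z) :=
  (hG.h0.mul hG.h1).mul hG.h2

end Trip

end Pool.Agent.helper83.BC
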