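import Pool.Agent.helper83.BCMod1

set_option autoImplicit false

namespace Pool.Agent.helper83.BC

open UpperHalfPlane ModularForm MatrixGroups Filter Topology Manifold EisensteinSeries

lemma periodic_of_T {f : ℍ → ℂ} (hT : ∀ z, f (ModularGroup.T • z) = f z) :
    Function.Periodic (f ∘ ofComplex) ((1 : ℝ) : ℂ) := by
  intro w
  by_cases hw : 0 < w.im
  · have h1 : 0 < (w + ((1 : ℝ) : ℂ)).im := by simp [hw]
    simp only [Function.comp_apply]
    rw [ofComplex_apply_of_im_pos h1, ofComplex_apply_of_im_pos hw]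
    rw [← hT ⟨w, hw⟩]
    congr 1
    apply UpperHalfPlane.ext
    rw [coe_T_smul]
    push_cast
    rfl
  · have h1 : (w + ((1 : ℝ) : ℂ)).im ≤ 0 := by simpa using hw
    simp only [Function.comp_apply]
    rw [ofComplex_apply_of_im_nonpos h1, ofComplex_apply_of_im_nonpos (not_lt.1 hw)]

lemma tendsto_of_analytic {f : ℍ → ℂ} (hper : Function.Periodic (f ∘ ofComplex) ((1 : ℝ) : ℂ))
    (ha : AnalyticAt ℂ (cuspFunction 1 f) 0) :
    Tendsto f atImInfty (𝓝 (cuspFunction 1 f 0)) := by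
  have h1 := ha.continuousAt.tendsto.comp (qParam_tendsto_atImInfty (h := 1) one_pos)
  have h2 : (cuspFunction 1 f ∘ fun τ : ℍ ↦ Function.Periodic.qParam 1 τ) = f := by
    funext τ
    simpa using eq_cuspFunction τ one_ne_zero hper
  rwa [h2] at h1

lemma tendsto_form {k : ℤ} (f : ModularForm 𝒮ℒ k) :
    Tendsto f atImInfty (𝓝 ((qExpansion 1 f).coeff 0)) := by
  have h := tendsto_of_analytic (f := f)
    (SlashInvariantFormClass.periodic_comp_ofComplex f one_mem_strictPeriods_SL)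
    (ModularFormClass.analyticAt_cuspFunction_zero f one_pos one_mem_strictPeriods_SL)
  have e : (qExpansion 1 f).coeff 0 = cuspFunction 1 f 0 := by
    simp [qExpansion_coeff]
  rwa [e]

lemma tendsto_E4 : Tendsto E₄ atImInfty (𝓝 1) := by
  have := tendsto_form E₄
  rwa [E_qExpansion_coeff_zero _ ⟨2, rfl⟩] at this

lemma tendsto_E6 : Tendsto E₆ atImInfty (𝓝 1) := by
  have := tendsto_form E₆
  rwa [E_qExpansion_coeff_zero _ ⟨3, rfl⟩] at this

lemma E2_T (z : ℍ) : E2 (ModularGroup.T • z) = E2 z := by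
  have h := E2_slash_action ModularGroup.T
  rw [D2_T, smul_zero, sub_zero] at h
  exact slash_T_iff (k := 2).1 h z

lemma E2_S : ∃ c : ℂ, ∀ w : ℍ, E2 (ModularGroup.S • w) = (w : ℂ) ^ 2 * E2 w + c * w := by
  refine ⟨-(1 / (2 * riemannZeta 2)) * (2 * Real.pi * Complex.I), ?_⟩
  intro w
  have h := congrFun (E2_slash_action ModularGroup.S) w
  rw [SL_slash_apply, ModularGroup.denom_S, zpow_neg, Pi.sub_apply, Pi.smul_apply, D2_S,
    smul_eq_mul] at h
  have hw := w.ne_zero
  have h2 : ((w : ℂ) ^ (2 : ℤ)) = (w : ℂ) ^ 2 := by norm_cast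
  rw [h2] at h
  have hw2 := pow_ne_zero 2 hw
  have h3 : E2 (ModularGroup.S • w) = (w : ℂ) ^ 2 *
      (E2 w - 1 / (2 * riemannZeta 2) * (2 * Real.pi * Complex.I / w)) := by
    rw [← h]; field_simp
  rw [h3]
  field_simp
  ring

lemma tendsto_E2 : Tendsto E2 atImInfty (𝓝 1) := by
  have hper := periodic_of_T E2_T
  have ha := analyticAt_cuspFunction_zero one_pos hper E2_mdifferentiable isBoundedAtImInfty_E2
  have h1 := hasFPowerSeriesOnBall_cuspFunction (h := 1) (f := E2)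
    (c := fun m => (if m = 0 then 1 else -24 * ArithmeticFunction.sigma 1 m : ℂ)) one_pos ha
    (fun τ => by
      simpa only [Function.Periodic.qParam, Complex.ofReal_one, div_one] using
        hasSum_qExpansion_E2 (z := τ))
  have h2 := h1.coeff_zero (fun _ => 0)
  have h3 : cuspFunction 1 E2 0 = 1 := by
    rw [← h2]; simp
  have := tendsto_of_analytic hper ha
  rwa [h3] at this

/-! ### the triple `e` -/

noncomputable def ee0 (z : ℍ) : ℂ := 2 * E2 (sc0 z) - E2 z
noncomputable def ee1 (z : ℍ) : ℂ := 1 / 2 * E2 (sc1 z) - E2 z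
noncomputable def ee2 (z : ℍ) : ℂ := 1 / 2 * E2 (sc2 z) - E2 z

lemma trip_ee : Trip 2 ee0 ee1 ee2 := by
  obtain ⟨c, hc⟩ := E2_S
  constructor
  · intro z
    unfold ee0 ee1
    rw [sc0_S, hc, hc, sc1_coe]; ring
  · intro z
    unfold ee0 ee1
    rw [sc1_S, hc, hc, sc0_coe]; ring
  · intro z
    unfold ee2
    rw [sc2_S, E2_T, hc, E2_T, E2_T, hc, coe_T_smul, coe_T_smul, coe_S_smul, hc]
    have h2 := (sc2 z).ne_zero
    have h3 : (z : ℂ) = 2 * (sc2 z : ℂ) - 1 := by rw [sc2_coe]; ring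
    rw [h3]
    field_simp
    ring
  · intro z
    unfold ee0
    rw [sc0_T, E2_T, E2_T, E2_T]
  · intro z
    unfold ee1 ee2
    rw [sc1_T, E2_T]
  · intro z
    unfold ee1 ee2
    rw [sc2_T, E2_T, E2_T]
  · exact (mdifferentiable_const.mul (mdiff_sc0 E2_mdifferentiable)).sub E2_mdifferentiable
  · exact (mdifferentiable_const.mul (mdiff_sc1 E2_mdifferentiable)).sub E2_mdifferentiable
  · exact (mdifferentiable_const.mul (mdiff_sc2 E2_mdifferentiable)).sub E2_mdifferentiable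

lemma tendsto_ee0 : Tendsto ee0 atImInfty (𝓝 1) := by
  have h := ((tendsto_E2.comp tendsto_sc0).const_mul 2).sub tendsto_E2
  have e : (2 * 1 - 1 : ℂ) = 1 := by norm_num
  rw [e] at h
  exact h

lemma tendsto_ee1 : Tendsto ee1 atImInfty (𝓝 (-1 / 2)) := by
  have h := ((tendsto_E2.comp tendsto_sc1).const_mul (1 / 2)).sub tendsto_E2
  have e : (1 / 2 * 1 - 1 : ℂ) = -1 / 2 := by norm_num
  rw [e] at h
  exact h

lemma tendsto_ee2 : Tendsto ee2 atImInfty (𝓝 (-1 / 2)) := by
  have h := ((tendsto_E2.comp tendsto_sc2).const_mul (1 / 2)).sub tendsto_E2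
  have e : (1 / 2 * 1 - 1 : ℂ) = -1 / 2 := by norm_num
  rw [e] at h
  exact h

lemma pmod_E4 : PMod 4 E₄ := PMod.of_form (k := 4) E₄
lemma pmod_E6 : PMod 6 E₆ := PMod.of_form (k := 6) E₆
lemma pmod_Delta : PMod 12 ModularForm.discriminant :=
  PMod.of_form (k := 12) CuspForm.discriminant

lemma mdiff_E4 : MDiff (E₄ : ℍ → ℂ) := ModularFormClass.holo E₄
lemma mdiff_E6 : MDiff (E₆ : ℍ → ℂ) := ModularFormClass.holo E₆
lemma mdiff_Delta : MDiff (ModularForm.discriminant) := CuspForm.discriminant.holo'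

lemma tendsto_Delta : Tendsto ModularForm.discriminant atImInfty (𝓝 0) :=
  discriminant_isZeroAtImInfty

/-- `e₀ + e₁ + e₂ = 0` -/
lemma ee_sum (z : ℍ) : ee0 z + ee1 z + ee2 z = 0 := by
  apply zero_of_small 2 (by norm_num) _ trip_ee.sum trip_ee.sum_mdiff
  have h := (tendsto_ee0.add tendsto_ee1).add tendsto_ee2
  have e : (1 + -1 / 2 + -1 / 2 : ℂ) = 0 := by norm_num
  rw [e] at h
  exact h

/-- `e₀² + e₁² + e₂² = (3/2) E₄` -/
lemma ee_sq (z : ℍ) : ee0 z ^ 2 + ee1 z ^ 2 + ee2 z ^ 2 = 3 / 2 * E₄ z := by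
  have hp : PMod 4 (fun z => (ee0 z * ee0 z + ee1 z * ee1 z + ee2 z * ee2 z)
      + (-3 / 2) * E₄ z) :=
    ((trip_ee.mul trip_ee).sum).add (pmod_E4.const_mul (-3 / 2))
  have hd : MDiff (fun z => (ee0 z * ee0 z + ee1 z * ee1 z + ee2 z * ee2 z)
      + (-3 / 2) * E₄ z) :=
    ((trip_ee.mul trip_ee).sum_mdiff).add (mdifferentiable_const.mul mdiff_E4)
  have h := zero_of_small 4 (by norm_num) _ hp hd (by
    have h := (((tendsto_ee0.mul tendsto_ee0).add (tendsto_ee1.mul tendsto_ee1)).add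
      (tendsto_ee2.mul tendsto_ee2)).add (tendsto_E4.const_mul (-3 / 2))
    have e : ((1 : ℂ) * 1 + -1 / 2 * (-1 / 2) + -1 / 2 * (-1 / 2)) + -3 / 2 * 1 = 0 := by norm_num
    rw [e] at h
    exact h) z
  linear_combination h

/-- `e₀ e₁ e₂ = E₆ / 4` -/
lemma ee_prod (z : ℍ) : ee0 z * ee1 z * ee2 z = E₆ z / 4 := by
  have hp : PMod 6 (fun z => (ee0 z * ee1 z * ee2 z) + (-1 / 4) * E₆ z) :=
    (trip_ee.prod).add (pmod_E6.const_mul (-1 / 4))
  have hd : MDiff (fun z => (ee0 z * ee1 z * ee2 z) + (-1 / 4) * E₆ z) :=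
    (trip_ee.prod_mdiff).add (mdifferentiable_const.mul mdiff_E6)
  have h := zero_of_small 6 (by norm_num) _ hp hd (by
    have h := ((tendsto_ee0.mul tendsto_ee1).mul tendsto_ee2).add (tendsto_E6.const_mul (-1 / 4))
    have e : ((1 : ℂ) * (-1 / 2) * (-1 / 2)) + -1 / 4 * 1 = 0 := by norm_num
    rw [e] at h
    exact h) z
  linear_combination h

/-! ### vanishing of triples -/

lemma isBigO_Delta {f : ℍ → ℂ} (hT : ∀ z, f (ModularGroup.T • z) = f z) (hd : MDiff f)
    (h0 : Tendsto f atImInfty (𝓝 0)) : f =O[atImInfty] ModularForm.discriminant := by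
  have h1 : IsZeroAtImInfty f := h0
  have hb : IsBoundedAtImInfty f := h0.isBigO_one ℝ
  have h := h1.exp_decay_atImInfty (h := 1) one_pos (periodic_of_T hT) hd hb
  exact h.trans (by simpa using exp_isBigO_discriminant)

/-- A triple of small weight vanishing at `i∞` is zero. -/
theorem Trip.eq_zero {w : ℕ} {G0 G1 G2 : ℍ → ℂ} (hG : Trip w G0 G1 G2) (hw4 : 4 ≤ w)
    (hw8 : w < 8) (t0 : Tendsto G0 atImInfty (𝓝 0)) (t1 : Tendsto G1 atImInfty (𝓝 0))
    (t2 : Tendsto G2 atImInfty (𝓝 0)) : (∀ z, G0 z = 0) ∧ (∀ z, G1 z = 0) ∧ ∀ z, G2 z = 0 := by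
  set P : ℍ → ℂ := fun z => G0 z * G1 z * G2 z with hP
  have hPm := hG.prod
  have hPd := hG.prod_mdiff
  -- the quotient
  have hQ : PMod (3 * w - 12) (fun z => P z / ModularForm.discriminant z) := by
    constructor
    · intro z
      have h1 := hPm.S z
      have h2 := pmod_Delta.S z
      have h3 : P (ModularGroup.S • z) = (z : ℂ) ^ (3 * w) * P z := h1
      have e : (z : ℂ) ^ (3 * w) = (z : ℂ) ^ (3 * w - 12) * (z : ℂ) ^ 12 := by
        rw [← pow_add]; congr 1; omega
      have hz := pow_ne_zero 12 z.ne_zero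
      have hD := discriminant_ne_zero z
      show P (ModularGroup.S • z) / ModularForm.discriminant (ModularGroup.S • z)
        = (z : ℂ) ^ (3 * w - 12) * (P z / ModularForm.discriminant z)
      rw [h3, h2, e, mul_div_assoc', div_eq_div_iff (mul_ne_zero hz hD) hD]
      ring
    · intro z
      have h1 := hPm.T z
      have h2 := pmod_Delta.T z
      show P (ModularGroup.T • z) / _ = _
      rw [show P (ModularGroup.T • z) = _ from h1, h2]
  have hQd : MDiff (fun z => P z / ModularForm.discriminant z) :=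
    hPd.div mdiff_Delta discriminant_ne_zero
  have hQ0 : IsZeroAtImInfty (fun z => P z / ModularForm.discriminant z) := by
    have hO := isBigO_Delta hG.T0 hG.h0 t0
    have ho : (fun z => G1 z * G2 z) =o[atImInfty] (fun _ => (1 : ℂ)) := by
      rw [Asymptotics.isLittleO_one_iff]
      have := t1.mul t2
      rwa [zero_mul] at this
    have h3 := hO.mul_isLittleO ho
    have h4 : (fun z => P z / ModularForm.discriminant z) =o[atImInfty]
        (fun _ => (1 : ℂ)) := by
      rw [Asymptotics.isLittleO_iff] at h3 ⊢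
      intro c hc
      filter_upwards [h3 hc] with z hz
      have hD : 0 < ‖ModularForm.discriminant z‖ := norm_pos_iff.2 (discriminant_ne_zero z)
      rw [norm_div, div_le_iff₀ hD]
      simp only [mul_one, norm_one] at hz ⊢
      have e : P z = G0 z * (G1 z * G2 z) := by rw [hP]; ring
      rw [e]
      exact hz
    rw [Asymptotics.isLittleO_one_iff] at h4
    exact h4
  have hPz : ∀ z, P z = 0 := by
    intro z
    have := zero_of_small (3 * w - 12) (by omega) _ hQ hQd hQ0 z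
    rwa [div_eq_zero_iff, or_iff_left (discriminant_ne_zero z)] at this
  have hfun : (G0 * G1) * G2 = 0 := by
    funext z
    exact hPz z
  have key : G0 = 0 ∨ G1 = 0 ∨ G2 = 0 := by
    rcases (UpperHalfPlane.mul_eq_zero_iff (hG.h0.mul hG.h1) hG.h2).1 hfun with h | h
    · rcases (UpperHalfPlane.mul_eq_zero_iff hG.h0 hG.h1).1 h with h | h
      · left; exact h
      · right; left; exact h
    · right; right; exact h
  -- transport
  have h01 : G0 = 0 → G1 = 0 := by
    intro h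
    funext z
    have := hG.S0 z
    rw [h] at this
    simp only [Pi.zero_apply] at this ⊢
    have hz := pow_ne_zero w z.ne_zero
    rcases mul_eq_zero.1 this.symm with h' | h'
    · exact absurd h' hz
    · exact h'
  have h10 : G1 = 0 → G0 = 0 := by
    intro h
    funext z
    have := hG.S1 z
    rw [h] at this
    simp only [Pi.zero_apply] at this ⊢
    have hz := pow_ne_zero w z.ne_zero
    rcases mul_eq_zero.1 this.symm with h' | h'
    · exact absurd h' hz
    · exact h'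
  have h12 : G1 = 0 → G2 = 0 := by
    intro h
    funext z
    have := hG.T1 z
    rw [h] at this
    exact this.symm
  have h21 : G2 = 0 → G1 = 0 := by
    intro h
    funext z
    have := hG.T2 z
    rw [h] at this
    exact this.symm
  have hall : G0 = 0 ∧ G1 = 0 ∧ G2 = 0 := by
    rcases key with h | h | h
    · exact ⟨h, h01 h, h12 (h01 h)⟩
    · exact ⟨h10 h, h, h12 h⟩
    · exact ⟨h10 (h21 h), h21 h, h⟩
  exact ⟨congrFun hall.1, congrFun hall.2.1, congrFun hall.2.2⟩

/-- the weight 4 identities -/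
theorem E4_ident (z : ℍ) : 2 ^ 4 * E₄ (sc0 z) = 20 * ee0 z ^ 2 - 4 * E₄ z ∧
    E₄ (sc1 z) = 20 * ee1 z ^ 2 - 4 * E₄ z ∧ E₄ (sc2 z) = 20 * ee2 z ^ 2 - 4 * E₄ z := by
  have hT : Trip 4 (fun z => 2 ^ 4 * E₄ (sc0 z) + (-20 * (ee0 z * ee0 z) + 4 * E₄ z))
      (fun z => E₄ (sc1 z) + (-20 * (ee1 z * ee1 z) + 4 * E₄ z))
      (fun z => E₄ (sc2 z) + (-20 * (ee2 z * ee2 z) + 4 * E₄ z)) :=
    (Trip.of_form pmod_E4 mdiff_E4).add (((trip_ee.mul trip_ee).const_mul (-20)).add
      ((Trip.of_PMod pmod_E4 mdiff_E4).const_mul 4))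
  obtain ⟨h0, h1, h2⟩ := hT.eq_zero (by norm_num) (by norm_num) (by
    have h := ((tendsto_E4.comp tendsto_sc0).const_mul (2 ^ 4)).add
      (((tendsto_ee0.mul tendsto_ee0).const_mul (-20)).add (tendsto_E4.const_mul 4))
    have e : ((2 : ℂ) ^ 4 * 1 + (-20 * (1 * 1) + 4 * 1)) = 0 := by norm_num
    rw [e] at h
    exact h) (by
    have h := (tendsto_E4.comp tendsto_sc1).add
      (((tendsto_ee1.mul tendsto_ee1).const_mul (-20)).add (tendsto_E4.const_mul 4))
    have e : ((1 : ℂ) + (-20 * (-1 / 2 * (-1 / 2)) + 4 * 1)) = 0 := by norm_num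
    rw [e] at h
    exact h) (by
    have h := (tendsto_E4.comp tendsto_sc2).add
      (((tendsto_ee2.mul tendsto_ee2).const_mul (-20)).add (tendsto_E4.const_mul 4))
    have e : ((1 : ℂ) + (-20 * (-1 / 2 * (-1 / 2)) + 4 * 1)) = 0 := by norm_num
    rw [e] at h
    exact h)
  refine ⟨?_, ?_, ?_⟩
  · linear_combination h0 z
  · linear_combination h1 z
  · linear_combination h2 z

/-- the weight 6 identities -/
theorem E6_ident (z : ℍ) : 2 ^ 6 * E₆ (sc0 z) = 42 * ee0 z * E₄ z + 22 * E₆ z ∧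
    E₆ (sc1 z) = 42 * ee1 z * E₄ z + 22 * E₆ z ∧ E₆ (sc2 z) = 42 * ee2 z * E₄ z + 22 * E₆ z := by
  have hT : Trip 6 (fun z => 2 ^ 6 * E₆ (sc0 z) + (-42 * (ee0 z * E₄ z) + -22 * E₆ z))
      (fun z => E₆ (sc1 z) + (-42 * (ee1 z * E₄ z) + -22 * E₆ z))
      (fun z => E₆ (sc2 z) + (-42 * (ee2 z * E₄ z) + -22 * E₆ z)) :=
    (Trip.of_form pmod_E6 mdiff_E6).add (((trip_ee.mul
      (Trip.of_PMod pmod_E4 mdiff_E4)).const_mul (-42)).add
      ((Trip.of_PMod pmod_E6 mdiff_E6).const_mul (-22)))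
  obtain ⟨h0, h1, h2⟩ := hT.eq_zero (by norm_num) (by norm_num) (by
    have h := ((tendsto_E6.comp tendsto_sc0).const_mul (2 ^ 6)).add
      (((tendsto_ee0.mul tendsto_E4).const_mul (-42)).add (tendsto_E6.const_mul (-22)))
    have e : ((2 : ℂ) ^ 6 * 1 + (-42 * (1 * 1) + -22 * 1)) = 0 := by norm_num
    rw [e] at h
    exact h) (by
    have h := (tendsto_E6.comp tendsto_sc1).add
      (((tendsto_ee1.mul tendsto_E4).const_mul (-42)).add (tendsto_E6.const_mul (-22)))
    have e : ((1 : ℂ) + (-42 * (-1 / 2 * 1) + -22 * 1)) = 0 := by norm_num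
    rw [e] at h
    exact h) (by
    have h := (tendsto_E6.comp tendsto_sc2).add
      (((tendsto_ee2.mul tendsto_E4).const_mul (-42)).add (tendsto_E6.const_mul (-22)))
    have e : ((1 : ℂ) + (-42 * (-1 / 2 * 1) + -22 * 1)) = 0 := by norm_num
    rw [e] at h
    exact h)
  refine ⟨?_, ?_, ?_⟩
  · linear_combination h0 z
  · linear_combination h1 z
  · linear_combination h2 z

end Pool.Agent.helper83.BC
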