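import Pool.Agent.helper83.BCAlg3
import Pool.Agent.helper83.BCMod2

set_option autoImplicit false

namespace Pool.Agent.helper83.BC

open UpperHalfPlane ModularForm MatrixGroups Filter Topology Manifold EisensteinSeries

lemma mdiff_pow {f : ℍ → ℂ} (hf : MDiff f) (n : ℕ) : MDiff (fun z => f z ^ n) := by
  induction n with
  | zero => simpa using (mdifferentiable_const (c := (1 : ℂ)))
  | succ n ih =>
    have e : (fun z => f z ^ (n + 1)) = (fun z => f z ^ n) * f := by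
      funext z
      simp [pow_succ]
    rw [e]
    exact ih.mul hf

/-! ### The algebra at a point -/

section point

variable (E e6 : ℂ) (ev : Fin 3 → ℂ)

/-- `y_i` -/
noncomputable def yy (i : Fin 3) : ℂ := (4 * ev i ^ 2 - E) / 3

variable {E e6 ev}

lemma cubic (h1 : ev 0 + ev 1 + ev 2 = 0) (h2 : ev 0 ^ 2 + ev 1 ^ 2 + ev 2 ^ 2 = 3 / 2 * E)
    (h3 : ev 0 * ev 1 * ev 2 = e6 / 4) (i : Fin 3) : 4 * ev i ^ 3 - 3 * E * ev i = e6 := by
  have hE : E = 2 / 3 * (ev 0 ^ 2 + ev 1 ^ 2 + ev 2 ^ 2) := by linear_combination (-2 / 3) * h2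
  have h6 : e6 = 4 * (ev 0 * ev 1 * ev 2) := by linear_combination (-4) * h3
  have h0 : ev 0 = -ev 1 - ev 2 := by linear_combination h1
  rw [hE, h6]
  fin_cases i
  · simp only [Fin.zero_eta]
    rw [h0]; ring
  · simp only [Fin.mk_one]
    rw [h0]; ring
  · simp only [Fin.reduceFinMk]
    rw [h0]; ring

lemma y_rel (h : ∀ i, 4 * ev i ^ 3 - 3 * E * ev i = e6) (i : Fin 3) :
    yy E ev i ^ 2 * (E - yy E ev i) = 4 / 27 * (E ^ 3 - e6 ^ 2) := by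
  unfold yy
  rw [← h i]; ring

lemma sum_y (h2 : ev 0 ^ 2 + ev 1 ^ 2 + ev 2 ^ 2 = 3 / 2 * E) :
    yy E ev 0 + yy E ev 1 + yy E ev 2 = E := by
  unfold yy
  linear_combination (4 / 3) * h2

lemma sum_y2 (h1 : ev 0 + ev 1 + ev 2 = 0) (h2 : ev 0 ^ 2 + ev 1 ^ 2 + ev 2 ^ 2 = 3 / 2 * E)
    (h : ∀ i, 4 * ev i ^ 3 - 3 * E * ev i = e6) :
    yy E ev 0 ^ 2 + yy E ev 1 ^ 2 + yy E ev 2 ^ 2 = E ^ 2 := by
  unfold yy
  linear_combination (4 / 9) * (ev 0 * h 0 + ev 1 * h 1 + ev 2 * h 2)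
    + (4 / 9) * e6 * h1 + (4 / 9) * E * h2

lemma sum_ey (h1 : ev 0 + ev 1 + ev 2 = 0) (h : ∀ i, 4 * ev i ^ 3 - 3 * E * ev i = e6) :
    ev 0 * yy E ev 0 + ev 1 * yy E ev 1 + ev 2 * yy E ev 2 = e6 := by
  unfold yy
  linear_combination (1 / 3) * (h 0 + h 1 + h 2) + (2 / 3) * E * h1

lemma sum_ey2 (h1 : ev 0 + ev 1 + ev 2 = 0) (h2 : ev 0 ^ 2 + ev 1 ^ 2 + ev 2 ^ 2 = 3 / 2 * E)
    (h : ∀ i, 4 * ev i ^ 3 - 3 * E * ev i = e6) :
    ev 0 * yy E ev 0 ^ 2 + ev 1 * yy E ev 1 ^ 2 + ev 2 * yy E ev 2 ^ 2 = E * e6 := by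
  unfold yy
  linear_combination (4 / 9) * (ev 0 ^ 2 * h 0 + ev 1 ^ 2 * h 1 + ev 2 ^ 2 * h 2)
    + (4 / 9) * e6 * h2 + (1 / 9) * E * (h 0 + h 1 + h 2) + (4 / 9) * E ^ 2 * h1

end point

open Finset in
/-- the expansion of `T_2` of a basis vector at a point -/
theorem point_sum (p : Par) (j : ℕ) (hj1 : 1 ≤ j) (hj : j ≤ p.d) (E δ e : ℂ) (c y : Fin 3 → ℂ)
    (hy : ∀ i, y i ^ 2 * (E - y i) = 4 * δ)
    (h0 : ∑ i, c i = e * p.w0) (h1 : ∑ i, c i * y i = e * (((p.w0 - 1 : ℚ) : ℂ) * E))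
    (h2 : ∑ i, c i * y i ^ 2 = e * (((p.w0 - 1 : ℚ) : ℂ) * E ^ 2)) :
    ∑ i, c i * ((E + 15 * y i) ^ (p.kk - 3 * j) * (4 * (E - y i) ^ 2 * y i) ^ j)
      = e * ∑ i ∈ Icc 1 p.d, (p.TT i j : ℂ) * (E ^ (p.kk - 3 * i) * δ ^ i) := by
  have g1 := p.hd1
  have g1' := p.hd2
  have g2 := p.hρ
  have hk : p.kk = p.κ + p.ρ - 1 := rfl
  set n := p.kk - 3 * j with hn
  have hterm : ∀ i : Fin 3, c i * ((E + 15 * y i) ^ n * (4 * (E - y i) ^ 2 * y i) ^ j)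
      = ∑ l ∈ range (n + 1), ((n.choose l : ℂ) * 16 ^ l * 4 ^ j) *
        (c i * (y i ^ (j + l) * (E - y i) ^ (p.kk - (j + l)))) := by
    intro i
    have e1 : E + 15 * y i = 16 * y i + (E - y i) := by ring
    rw [e1, add_pow, sum_mul, mul_sum]
    apply sum_congr rfl
    intro l hl
    rw [mem_range] at hl
    have e2 : p.kk - (j + l) = (n - l) + 2 * j := by omega
    rw [e2, pow_add, pow_add, mul_pow, mul_pow, mul_pow, ← pow_mul]
    ring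
  rw [sum_congr rfl (fun i _ => hterm i), sum_comm]
  have hmom : ∀ l ∈ range (n + 1), ∑ i : Fin 3, ((n.choose l : ℂ) * 16 ^ l * 4 ^ j) *
        (c i * (y i ^ (j + l) * (E - y i) ^ (p.kk - (j + l))))
      = ∑ i ∈ range (p.d + 1), e * ((((n.choose l : ℂ) * 16 ^ l * 4 ^ j) *
        ((muc p.w0 (j + l) (p.kk - (j + l)) i : ℚ) : ℂ)) * (E ^ (p.kk - 3 * i) * (4 * δ) ^ i)) := by
    intro l hl
    rw [mem_range] at hl
    rw [← mul_sum, moments p.w0 E (4 * δ) e c y hy h0 h1 h2 (p.d + 1) (j + l) (p.kk - (j + l))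
      (by omega)]
    unfold RHS
    rw [mul_left_comm, mul_sum, mul_sum]
    apply sum_congr rfl
    intro i _
    have e3 : j + l + (p.kk - (j + l)) - 3 * i = p.kk - 3 * i := by omega
    rw [e3]
    ring
  rw [sum_congr rfl hmom, sum_comm]
  have hMM : ∀ i ∈ range (p.d + 1), ∑ l ∈ range (n + 1),
      e * ((((n.choose l : ℂ) * 16 ^ l * 4 ^ j) *
        ((muc p.w0 (j + l) (p.kk - (j + l)) i : ℚ) : ℂ)) * (E ^ (p.kk - 3 * i) * (4 * δ) ^ i))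
      = e * ((p.MM i j : ℂ) * (E ^ (p.kk - 3 * i) * δ ^ i)) := by
    intro i _
    unfold Par.MM
    rw [← mul_sum]
    congr 1
    push_cast
    rw [mul_sum, sum_mul]
    apply sum_congr rfl
    intro l _
    rw [mul_pow, pow_add]
    ring
  rw [sum_congr rfl hMM, ← mul_sum, sum_range_succ', p.MM_zero j hj1 hj]
  congr 1
  have e4 : ∑ i ∈ Icc 1 p.d, (p.TT i j : ℂ) * (E ^ (p.kk - 3 * i) * δ ^ i)
      = ∑ i ∈ range p.d, (p.TT (i + 1) j : ℂ) * (E ^ (p.kk - 3 * (i + 1)) * δ ^ (i + 1)) := by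
    rw [sum_Icc_shift]
    have : p.d + 1 - 1 = p.d := by omega
    rw [this]
    apply sum_congr rfl
    intro i _
    rw [add_comm 1 i]
  rw [e4]
  simp only [Rat.cast_zero, zero_mul, add_zero]
  apply sum_congr rfl
  intro i hi
  rw [mem_range] at hi
  rw [p.MM_eq (i + 1) j (by omega) (by omega) hj1 hj]

end Pool.Agent.helper83.BC
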