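import Pool.Agent.helper83.BCMod3

set_option autoImplicit false

namespace Pool.Agent.helper83.BC

open UpperHalfPlane ModularForm MatrixGroups Filter Topology Manifold EisensteinSeries

/-! ### The Hecke operator -/

lemma trip_cusp {k : ℕ} (f : CuspForm 𝒮ℒ (k : ℤ)) :
    Trip k (fun z => 1 / 2 * (2 ^ k * f (sc0 z))) (fun z => 1 / 2 * f (sc1 z))
      (fun z => 1 / 2 * f (sc2 z)) :=
  (Trip.of_form (PMod.of_form f) f.holo').const_mul (1 / 2)

lemma cusp_tendsto {k : ℕ} (f : CuspForm 𝒮ℒ (k : ℤ)) : Tendsto f atImInfty (𝓝 0) :=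
  CuspFormClass.zero_at_infty f

/-- The Hecke operator `T_2` on cusp forms of weight `k`. -/
noncomputable def heckeT2 (k : ℕ) : CuspForm 𝒮ℒ (k : ℤ) →ₗ[ℂ] CuspForm 𝒮ℒ (k : ℤ) where
  toFun f := mkCusp k (fun z => 1 / 2 * (2 ^ k * f (sc0 z)) + 1 / 2 * f (sc1 z)
      + 1 / 2 * f (sc2 z)) (trip_cusp f).sum (trip_cusp f).sum_mdiff (by
    have h := ((((cusp_tendsto f).comp tendsto_sc0).const_mul (2 ^ k)).const_mul (1 / 2)).add
      (((cusp_tendsto f).comp tendsto_sc1).const_mul (1 / 2)) |>.add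
      (((cusp_tendsto f).comp tendsto_sc2).const_mul (1 / 2))
    have e : ((1 : ℂ) / 2 * (2 ^ k * 0) + 1 / 2 * 0 + 1 / 2 * 0) = 0 := by ring
    rw [e] at h
    exact h)
  map_add' f g := by
    ext z
    simp only [mkCusp_apply, add_apply]
    ring
  map_smul' c f := by
    ext z
    simp only [mkCusp_apply, smul_apply, RingHom.id_apply, smul_eq_mul]
    ring

lemma heckeT2_apply (k : ℕ) (f : CuspForm 𝒮ℒ (k : ℤ)) (z : ℍ) :
    heckeT2 k f z = 1 / 2 * (2 ^ k * f (sc0 z)) + 1 / 2 * f (sc1 z) + 1 / 2 * f (sc2 z) := rfl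

/-! ### The basis -/

/-- `E₆^{1-ρ}` -/
noncomputable def e6f (ρ : ℕ) (z : ℍ) : ℂ := if ρ = 1 then 1 else E₆ z

lemma pmod_e6f (ρ : ℕ) (hρ : ρ ≤ 1) : PMod (6 * (1 - ρ)) (e6f ρ) := by
  interval_cases ρ
  · exact pmod_E6
  · exact PMod.one

lemma mdiff_e6f (ρ : ℕ) : MDiff (e6f ρ) := by
  by_cases h : ρ = 1
  · have : e6f ρ = fun _ => 1 := by funext z; simp [e6f, h]
    rw [this]
    exact mdifferentiable_const
  · have : e6f ρ = E₆ := by funext z; simp [e6f, h]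
    rw [this]
    exact mdiff_E6

lemma tendsto_e6f (ρ : ℕ) : Tendsto (e6f ρ) atImInfty (𝓝 1) := by
  by_cases h : ρ = 1
  · have : e6f ρ = fun _ => 1 := by funext z; simp [e6f, h]
    rw [this]
    exact tendsto_const_nhds
  · have : e6f ρ = E₆ := by funext z; simp [e6f, h]
    rw [this]
    exact tendsto_E6

/-- the basis functions -/
noncomputable def bf (p : Par) (j : ℕ) (z : ℍ) : ℂ :=
  e6f p.ρ z * (E₄ z ^ (p.kk - 3 * j) * (64 * ModularForm.discriminant z) ^ j)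

/-- the weight -/
def Par.wt (p : Par) : ℕ := 6 * (1 - p.ρ) + 4 * p.kk

lemma pmod_bf (p : Par) (j : ℕ) (hj : 3 * j ≤ p.kk) : PMod p.wt (bf p j) := by
  have h := (pmod_e6f p.ρ p.hρ).mul ((pmod_E4.pow (p.kk - 3 * j)).mul
    ((pmod_Delta.const_mul 64).pow j))
  have e : 6 * (1 - p.ρ) + (4 * (p.kk - 3 * j) + 12 * j) = p.wt := by
    unfold Par.wt; omega
  rw [e] at h
  exact h

lemma mdiff_bf (p : Par) (j : ℕ) : MDiff (bf p j) :=
  (mdiff_e6f p.ρ).mul ((mdiff_pow mdiff_E4 _).mul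
    (mdiff_pow (mdifferentiable_const.mul mdiff_Delta) j))

lemma tendsto_bf (p : Par) (j : ℕ) (hj : 1 ≤ j) : Tendsto (bf p j) atImInfty (𝓝 0) := by
  have h := (tendsto_e6f p.ρ).mul ((tendsto_E4.pow (p.kk - 3 * j)).mul
    ((tendsto_Delta.const_mul 64).pow j))
  have e : (1 : ℂ) * (1 ^ (p.kk - 3 * j) * (64 * 0) ^ j) = 0 := by
    rw [mul_zero, zero_pow (by omega), mul_zero, mul_zero]
  rw [e] at h
  exact h

/-- the basis vectors -/
noncomputable def bv (p : Par) (hk : 3 * p.d ≤ p.kk) (a : Fin p.d) : CuspForm 𝒮ℒ (p.wt : ℤ) :=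
  mkCusp p.wt (bf p (a + 1)) (pmod_bf p (a + 1) (by omega)) (mdiff_bf p _)
    (tendsto_bf p _ (by omega))

lemma bv_apply (p : Par) (hk : 3 * p.d ≤ p.kk) (a : Fin p.d) (z : ℍ) :
    bv p hk a z = bf p (a + 1) z := rfl

/-! ### Action of the Hecke operator on the basis -/

/-- the three values of `e` -/
noncomputable def ev (z : ℍ) : Fin 3 → ℂ := ![ee0 z, ee1 z, ee2 z]

lemma cubic_ev (z : ℍ) (i : Fin 3) : 4 * ev z i ^ 3 - 3 * E₄ z * ev z i = E₆ z :=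
  cubic (E := E₄ z) (e6 := E₆ z) (ev := ev z) (ee_sum z) (ee_sq z) (ee_prod z) i

/-- values of `E₄, E₆, Δ` at the three points in terms of `y` -/
lemma E4_y (z : ℍ) : 2 ^ 4 * E₄ (sc0 z) = E₄ z + 15 * yy (E₄ z) (ev z) 0 ∧
    E₄ (sc1 z) = E₄ z + 15 * yy (E₄ z) (ev z) 1 ∧
    E₄ (sc2 z) = E₄ z + 15 * yy (E₄ z) (ev z) 2 := by
  obtain ⟨h0, h1, h2⟩ := E4_ident z
  refine ⟨?_, ?_, ?_⟩
  · have e : ev z 0 = ee0 z := rfl
    rw [h0]; unfold yy; rw [e]; ring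
  · have e : ev z 1 = ee1 z := rfl
    rw [h1]; unfold yy; rw [e]; ring
  · have e : ev z 2 = ee2 z := rfl
    rw [h2]; unfold yy; rw [e]; ring

lemma delta_alg (E e6 x : ℂ) (h : 4 * x ^ 3 - 3 * E * x = e6) :
    64 * (((20 * x ^ 2 - 4 * E) ^ 3 - (42 * x * E + 22 * e6) ^ 2) / 1728)
      = 4 * (E - (4 * x ^ 2 - E) / 3) ^ 2 * ((4 * x ^ 2 - E) / 3) := by
  rw [← h]; ring

lemma Delta_y (z : ℍ) :
    64 * (2 ^ 12 * ModularForm.discriminant (sc0 z))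
      = 4 * (E₄ z - yy (E₄ z) (ev z) 0) ^ 2 * yy (E₄ z) (ev z) 0 ∧
    64 * ModularForm.discriminant (sc1 z)
      = 4 * (E₄ z - yy (E₄ z) (ev z) 1) ^ 2 * yy (E₄ z) (ev z) 1 ∧
    64 * ModularForm.discriminant (sc2 z)
      = 4 * (E₄ z - yy (E₄ z) (ev z) 2) ^ 2 * yy (E₄ z) (ev z) 2 := by
  obtain ⟨h0, h1, h2⟩ := E4_ident z
  obtain ⟨g0, g1, g2⟩ := E6_ident z
  refine ⟨?_, ?_, ?_⟩
  · have hc := cubic_ev z 0
    have := delta_alg (E₄ z) (E₆ z) (ev z 0) hc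
    unfold yy
    rw [← this, discriminant_eq_E₄_cube_sub_E₆_sq]
    have e : ev z 0 = ee0 z := rfl
    rw [e, ← h0, ← g0]
    ring
  · have hc := cubic_ev z 1
    have := delta_alg (E₄ z) (E₆ z) (ev z 1) hc
    unfold yy
    rw [← this, discriminant_eq_E₄_cube_sub_E₆_sq]
    have e : ev z 1 = ee1 z := rfl
    rw [e, ← h1, ← g1]
  · have hc := cubic_ev z 2
    have := delta_alg (E₄ z) (E₆ z) (ev z 2) hc
    unfold yy
    rw [← this, discriminant_eq_E₄_cube_sub_E₆_sq]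
    have e : ev z 2 = ee2 z := rfl
    rw [e, ← h2, ← g2]

/-- the weights `c_i` -/
noncomputable def cc (ρ : ℕ) (z : ℍ) (i : Fin 3) : ℂ :=
  if ρ = 1 then 1 / 2 else 1 / 2 * (42 * ev z i * E₄ z + 22 * E₆ z)

lemma e6_cc (ρ : ℕ) (hρ : ρ ≤ 1) (z : ℍ) :
    1 / 2 * (2 ^ (6 * (1 - ρ)) * e6f ρ (sc0 z)) = cc ρ z 0 ∧
    1 / 2 * e6f ρ (sc1 z) = cc ρ z 1 ∧ 1 / 2 * e6f ρ (sc2 z) = cc ρ z 2 := by
  obtain ⟨g0, g1, g2⟩ := E6_ident z
  interval_cases ρ
  · simp only [e6f, cc, zero_ne_one, if_false]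
    refine ⟨?_, ?_, ?_⟩
    · have : ev z 0 = ee0 z := rfl
      rw [this, ← g0]
    · have : ev z 1 = ee1 z := rfl
      rw [this, ← g1]
    · have : ev z 2 = ee2 z := rfl
      rw [this, ← g2]
  · simp [e6f, cc]

lemma hecke_bf (p : Par) (j : ℕ) (hj1 : 1 ≤ j) (hj : j ≤ p.d) (z : ℍ) :
    1 / 2 * (2 ^ p.wt * bf p j (sc0 z)) + 1 / 2 * bf p j (sc1 z) + 1 / 2 * bf p j (sc2 z)
      = ∑ i ∈ Finset.Icc 1 p.d, (p.TT i j : ℂ) * bf p i z := by
  have g1 := p.hd1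
  have g2 := p.hρ
  have hk : p.kk = p.κ + p.ρ - 1 := rfl
  obtain ⟨a0, a1, a2⟩ := E4_y z
  obtain ⟨d0, d1, d2⟩ := Delta_y z
  obtain ⟨c0, c1, c2⟩ := e6_cc p.ρ p.hρ z
  set y := yy (E₄ z) (ev z) with hy
  have hcub := cubic_ev z
  have hs1 : ev z 0 + ev z 1 + ev z 2 = 0 := ee_sum z
  have hs2 : ev z 0 ^ 2 + ev z 1 ^ 2 + ev z 2 ^ 2 = 3 / 2 * E₄ z := ee_sq z
  have key := point_sum p j hj1 hj (E₄ z) (64 * ModularForm.discriminant z) (e6f p.ρ z)
    (cc p.ρ z) y (by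
      intro i
      rw [hy, y_rel hcub i, discriminant_eq_E₄_cube_sub_E₆_sq]; ring) (by
      rw [Fin.sum_univ_three]
      unfold cc e6f Par.w0
      by_cases hr : p.ρ = 1
      · simp only [if_pos hr]; push_cast; ring
      · simp only [if_neg hr]
        push_cast
        linear_combination (21 * E₄ z) * hs1) (by
      rw [Fin.sum_univ_three]
      have h3 := sum_y hs2
      have h4 := sum_ey hs1 hcub
      rw [← hy] at h3 h4
      unfold cc e6f Par.w0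
      by_cases hr : p.ρ = 1
      · simp only [if_pos hr]; push_cast
        linear_combination (1 / 2) * h3
      · simp only [if_neg hr]
        push_cast
        linear_combination (21 * E₄ z) * h4 + 11 * E₆ z * h3) (by
      rw [Fin.sum_univ_three]
      have h3 := sum_y2 hs1 hs2 hcub
      have h4 := sum_ey2 hs1 hs2 hcub
      rw [← hy] at h3 h4
      unfold cc e6f Par.w0
      by_cases hr : p.ρ = 1
      · simp only [if_pos hr]; push_cast
        linear_combination (1 / 2) * h3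
      · simp only [if_neg hr]
        push_cast
        linear_combination (21 * E₄ z) * h4 + 11 * E₆ z * h3)
  rw [Fin.sum_univ_three] at key
  have hR : e6f p.ρ z * ∑ i ∈ Finset.Icc 1 p.d, (p.TT i j : ℂ) * (E₄ z ^ (p.kk - 3 * i) *
      (64 * ModularForm.discriminant z) ^ i) = ∑ i ∈ Finset.Icc 1 p.d, (p.TT i j : ℂ) * bf p i z := by
    rw [Finset.mul_sum]
    apply Finset.sum_congr rfl
    intro i _
    unfold bf
    ring
  rw [← hR, ← key, ← c0, ← c1, ← c2, ← a0, ← a1, ← a2, ← d0, ← d1, ← d2]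
  unfold bf
  have hw : (2 : ℂ) ^ p.wt = 2 ^ (6 * (1 - p.ρ)) * ((2 ^ 4) ^ (p.kk - 3 * j) * (2 ^ 12) ^ j) := by
    rw [← pow_mul, ← pow_mul, ← pow_add, ← pow_add]
    congr 1
    unfold Par.wt
    omega
  rw [hw]
  simp only [mul_pow]
  ring

end Pool.Agent.helper83.BC
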