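import Pool.Agent.helper83.BCMod4

set_option autoImplicit false

namespace Pool.Agent.helper83.BC

open UpperHalfPlane ModularForm MatrixGroups Filter Topology Manifold EisensteinSeries

instance : NeBot (atImInfty) := by
  rw [atImInfty]
  refine comap_neBot_iff_frequently.2 ?_
  apply Eventually.frequently
  filter_upwards [eventually_gt_atTop (0 : ℝ)] with y hy
  exact ⟨⟨⟨0, y⟩, hy⟩, rfl⟩

lemma lin_ind (p : Par) (hk : 3 * p.d ≤ p.kk) : LinearIndependent ℂ (bv p hk) := by
  rw [Fintype.linearIndependent_iff]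
  intro g hg
  have hz : ∀ z : ℍ, ∑ b : Fin p.d, g b * bf p (b + 1) z = 0 := by
    intro z
    have h1 := congrArg (fun f : CuspForm 𝒮ℒ (p.wt : ℤ) => (f : ℍ → ℂ) z) hg
    simp only [FunLike.coe_sum, FunLike.coe_smul, Finset.sum_apply, Pi.smul_apply,
      smul_eq_mul, FunLike.coe_zero, Pi.zero_apply] at h1
    rw [← h1]
    apply Finset.sum_congr rfl
    intro b _
    rw [bv_apply]
  have key : ∀ n : ℕ, ∀ a : Fin p.d, (a : ℕ) = n → g a = 0 := by
    intro n
    induction n using Nat.strong_induction_on with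
    | _ n ih =>
      intro a ha
      set h : ℍ → ℂ := fun z => ∑ b : Fin p.d, if b < a then 0 else
        g b * (E₄ z ^ (p.kk - 3 * (b + 1)) *
          (64 * ModularForm.discriminant z) ^ ((b : ℕ) - a)) with hh
      have hlim : Tendsto h atImInfty (𝓝 (∑ b : Fin p.d, if b = a then g a else 0)) := by
        rw [hh]
        apply tendsto_finsetSum
        intro b _
        rcases lt_trichotomy b a with hb | hb | hb
        · simp only [if_pos hb, if_neg hb.ne]
          exact tendsto_const_nhds
        · subst hb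
          simp only [lt_irrefl, if_false, if_true, Nat.sub_self, pow_zero, mul_one]
          have := (tendsto_E4.pow (p.kk - 3 * ((b : ℕ) + 1))).const_mul (g b)
          rwa [one_pow, mul_one] at this
        · simp only [if_neg (not_lt.2 hb.le), if_neg hb.ne']
          have := (((tendsto_E4.pow (p.kk - 3 * ((b : ℕ) + 1))).mul
            ((tendsto_Delta.const_mul 64).pow ((b : ℕ) - a)))).const_mul (g b)
          have e : g b * (1 ^ (p.kk - 3 * ((b : ℕ) + 1)) * (64 * 0) ^ ((b : ℕ) - a)) = 0 := by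
            have hba : (a : ℕ) < b := hb
            rw [mul_zero, zero_pow (by omega), mul_zero, mul_zero]
          rwa [e] at this
      rw [Finset.sum_ite_eq' Finset.univ a, if_pos (Finset.mem_univ a)] at hlim
      have hev : ∀ᶠ z in atImInfty, h z = 0 := by
        have h6 : ∀ᶠ z in atImInfty, e6f p.ρ z ≠ 0 :=
          (tendsto_e6f p.ρ).eventually_ne one_ne_zero
        filter_upwards [h6] with z hz6
        have h1 := hz z
        have h2 : ∑ b : Fin p.d, g b * bf p (b + 1) z
            = e6f p.ρ z * (64 * ModularForm.discriminant z) ^ ((a : ℕ) + 1) * h z := by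
          rw [hh, Finset.mul_sum]
          apply Finset.sum_congr rfl
          intro b _
          by_cases hb : b < a
          · rw [if_pos hb, ih b (by have : (b : ℕ) < a := hb; omega) b rfl]; ring
          · rw [if_neg hb]
            unfold bf
            have hab : (a : ℕ) ≤ b := not_lt.1 hb
            have e : (b : ℕ) + 1 = ((a : ℕ) + 1) + ((b : ℕ) - a) := by omega
            have e2 : (64 * ModularForm.discriminant z) ^ ((b : ℕ) + 1)
              = (64 * ModularForm.discriminant z) ^ ((a : ℕ) + 1) *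
                (64 * ModularForm.discriminant z) ^ ((b : ℕ) - a) := by
              rw [← pow_add]; congr 1
            rw [e2]; ring
        rw [h2] at h1
        have h3 : (64 * ModularForm.discriminant z) ^ ((a : ℕ) + 1) ≠ 0 :=
          pow_ne_zero _ (mul_ne_zero (by norm_num) (discriminant_ne_zero z))
        rcases mul_eq_zero.1 h1 with h4 | h4
        · rcases mul_eq_zero.1 h4 with h5 | h5
          · exact absurd h5 hz6
          · exact absurd h5 h3
        · exact h4
      have hlim0 : Tendsto h atImInfty (𝓝 0) :=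
        tendsto_const_nhds.congr' (hev.mono (fun z hz => hz.symm))
      exact tendsto_nhds_unique hlim hlim0
  intro a
  exact key a a rfl

/-! ### Dimension -/

instance cusp_finite (k : ℤ) : Module.Finite ℂ (CuspForm 𝒮ℒ k) :=
  Module.Finite.equiv (CuspForm.discriminantEquiv (k := k)).symm

lemma finrank_cusp (k : ℕ) (hk : 12 ≤ 2 * k) :
    1 + Module.finrank ℂ (CuspForm 𝒮ℒ ((2 * k : ℕ) : ℤ))
      = if 2 * k ≡ 2 [MOD 12] then 2 * k / 12 else 2 * k / 12 + 1 := by
  have h1 := ModularForm.rank_eq_one_add_rank_cuspForm (k := 2 * k) (by omega) ⟨k, by ring⟩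
  rw [ModularForm.dimension_level_one (2 * k) ⟨k, by ring⟩] at h1
  have h3 := Module.finrank_eq_rank ℂ (CuspForm 𝒮ℒ ((2 * k : ℕ) : ℤ))
  have h2 : ((if 2 * k ≡ 2 [MOD 12] then 2 * k / 12 else 2 * k / 12 + 1 : ℕ) : Cardinal)
      = ((1 + Module.finrank ℂ (CuspForm 𝒮ℒ ((2 * k : ℕ) : ℤ)) : ℕ) : Cardinal) := by
    rw [Nat.cast_add, Nat.cast_one, h3, ← h1]
  exact (Nat.cast_injective h2).symm

lemma finrank_eq_d (k : ℕ) (hk : 6 ≤ k) :
    Module.finrank ℂ (CuspForm 𝒮ℒ ((2 * k : ℕ) : ℤ)) = (parOf k hk).d := by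
  have h := finrank_cusp k (by omega)
  have h3 : (parOf k hk).d = (k / 2 + (1 - k % 2) - 1) / 3 := rfl
  rw [h3]
  unfold Nat.ModEq at h
  split_ifs at h with h4 <;> omega

lemma wt_eq (k : ℕ) (hk : 6 ≤ k) : (parOf k hk).wt = 2 * k := by
  have h1 : (parOf k hk).κ = k / 2 := rfl
  have h2 : (parOf k hk).ρ = 1 - k % 2 := rfl
  unfold Par.wt Par.kk
  rw [h1, h2]
  omega

lemma three_d_le (k : ℕ) (hk : 6 ≤ k) : 3 * (parOf k hk).d ≤ (parOf k hk).kk := by
  have := (parOf k hk).hd1
  unfold Par.kk
  omega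

/-- the characteristic polynomial of `T_2` -/
theorem charpoly_hecke (k : ℕ) (hk : 6 ≤ k) :
    (heckeT2 (2 * k)).charpoly.reverse
      = ((parOf k hk).md.T.charpolyRev).map (algebraMap ℚ ℂ) := by
  have hwt := wt_eq k hk
  have hfr := finrank_eq_d k hk
  have h3d := three_d_le k hk
  generalize hp : parOf k hk = p at hwt hfr h3d ⊢
  rw [← hwt] at hfr ⊢
  have hli := lin_ind p h3d
  have hcard : Fintype.card (Fin p.d) = Module.finrank ℂ (CuspForm 𝒮ℒ (p.wt : ℤ)) := by
    rw [Fintype.card_fin, hfr]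
  have hsp : ⊤ ≤ Submodule.span ℂ (Set.range (bv p h3d)) :=
    (hli.span_eq_top_of_card_eq_finrank' hcard).ge
  let B : Module.Basis (Fin p.d) ℂ (CuspForm 𝒮ℒ (p.wt : ℤ)) := Module.Basis.mk hli hsp
  have hB : ∀ a, B a = bv p h3d a := fun a => by rw [Module.Basis.mk_apply]
  have hM : LinearMap.toMatrix B B (heckeT2 p.wt) = (p.md.T).map (algebraMap ℚ ℂ) := by
    rw [← LinearMap.toMatrix_toLin B B ((p.md.T).map (algebraMap ℚ ℂ))]
    congr 1
    apply B.ext
    intro b
    rw [Matrix.toLin_self]
    ext z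
    rw [heckeT2_apply]
    simp only [hB, bv_apply]
    rw [hecke_bf p (b + 1) (by omega) (by omega) z]
    simp only [FunLike.coe_sum, FunLike.coe_smul, Finset.sum_apply, Pi.smul_apply,
      smul_eq_mul, bv_apply]
    rw [← sum_Fin_Icc p.d (fun i => (p.TT i (b + 1) : ℂ) * bf p i z)]
    rfl
  rw [← LinearMap.charpoly_toMatrix (heckeT2 p.wt) B, hM, Matrix.reverse_charpoly,
    charpolyRev_map']

end Pool.Agent.helper83.BC
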