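import Pool.Agent.helper83.BCAlg2

set_option autoImplicit false

namespace Pool.Agent.helper83.BC

open Finset Polynomial

/-- The coefficient `c_n` of the Buzzard–Calegari polynomial in weight `2k`. -/
def bcCoeff (k n : ℕ) : ℚ := ∏ i ∈ Icc 1 n,
  (4 : ℚ) ^ i * (2 * k - 12 * i - 2) * ((2 * k - 8 * i).factorial : ℕ)
      * ((2 * k - 8 * i - 3).factorial : ℕ)
    / (((2 * k - 6 * i - 2).factorial : ℕ) * ((2 * k - 12 * i).factorial : ℕ))

/-- The Buzzard–Calegari polynomial of degree `m` in weight `2k`. -/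
noncomputable def bcPoly (k m : ℕ) : ℚ[X] := ∑ n ∈ range (m + 1), C (bcCoeff k n) * X ^ n

lemma bcPoly_coeff (k m n : ℕ) : (bcPoly k m).coeff n = if n ≤ m then bcCoeff k n else 0 := by
  unfold bcPoly
  rw [finsetSum_coeff]
  simp only [coeff_C_mul, coeff_X_pow]
  by_cases h : n ≤ m
  · rw [if_pos h, sum_eq_single n]
    · simp
    · intro b _ hb; simp [Ne.symm hb]
    · intro hn; exact absurd (mem_range.2 (by omega)) hn
  · rw [if_neg h]
    apply sum_eq_zero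
    intro b hb
    rw [mem_range] at hb
    rw [if_neg (by omega), mul_zero]

/-- the parameters attached to the weight `2k` -/
def parOf (k : ℕ) (hk : 6 ≤ k) : Par where
  κ := k / 2
  ρ := 1 - k % 2
  d := (k / 2 + (1 - k % 2) - 1) / 3
  L := (2 * (k / 2) - (1 - k % 2)) / 3
  hρ := by omega
  hd1 := by omega
  hd2 := by omega
  hL1 := by omega
  hL2 := by omega

lemma bcTerm (k : ℕ) (hk : 6 ≤ k) (i : ℕ) (hi1 : 1 ≤ i) (hi2 : i ≤ (parOf k hk).d) :
    (4 : ℚ) ^ i * (2 * k - 12 * i - 2) * ((2 * k - 8 * i).factorial : ℕ)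
      * ((2 * k - 8 * i - 3).factorial : ℕ)
    / (((2 * k - 6 * i - 2).factorial : ℕ) * ((2 * k - 12 * i).factorial : ℕ)) ≠ 0 ∧
    vq ((4 : ℚ) ^ i * (2 * k - 12 * i - 2) * ((2 * k - 8 * i).factorial : ℕ)
      * ((2 * k - 8 * i - 3).factorial : ℕ)
    / (((2 * k - 6 * i - 2).factorial : ℕ) * ((2 * k - 12 * i).factorial : ℕ)))
      = (parOf k hk).sl i := by
  have h1 : (parOf k hk).κ = k / 2 := rfl
  have h2 : (parOf k hk).ρ = 1 - k % 2 := rfl
  have h3 : (parOf k hk).d = (k / 2 + (1 - k % 2) - 1) / 3 := rfl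
  rw [h3] at hi2
  have f1 := fct_ne (2 * k - 8 * i)
  have f2 := fct_ne (2 * k - 8 * i - 3)
  have f3 := fct_ne (2 * k - 6 * i - 2)
  have f4 := fct_ne (2 * k - 12 * i)
  have f5 : (4 : ℚ) ^ i ≠ 0 := pow_ne_zero _ (by norm_num)
  have e6 : (2 * (k : ℚ) - 12 * i - 2) = ((2 * (k : ℤ) - 12 * i - 2 : ℤ) : ℚ) := by push_cast; ring
  have f6 : (2 * (k : ℚ) - 12 * i - 2) ≠ 0 := by
    rw [e6]
    have : (2 * (k : ℤ) - 12 * i - 2) ≠ 0 := by omega
    exact_mod_cast this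
  refine ⟨div_ne_zero (mul_ne_zero (mul_ne_zero (mul_ne_zero f5 f6) f1) f2)
    (mul_ne_zero f3 f4), ?_⟩
  rw [vq_div (mul_ne_zero (mul_ne_zero (mul_ne_zero f5 f6) f1) f2) (mul_ne_zero f3 f4),
    vq_mul (mul_ne_zero (mul_ne_zero f5 f6) f1) f2, vq_mul (mul_ne_zero f5 f6) f1,
    vq_mul f5 f6, vq_mul f3 f4, vq_four_pow, vq_factorial, vq_factorial, vq_factorial,
    vq_factorial, e6, vq_int]
  unfold Par.sl
  rw [h1, h2]
  have vz2 : ∀ x : ℤ, x ≠ 0 → vz (2 * x) = 1 + vz x := by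
    intro x hx
    have hx' : (x : ℚ) ≠ 0 := by exact_mod_cast hx
    rw [← vq_int, ← vq_int]
    push_cast
    rw [vq_mul (by norm_num) hx']
    congr 1
    have := vq_two_pow 1
    simpa using this
  rcases Nat.even_or_odd' k with ⟨κ, hκ | hκ⟩
  · have hk2 : k % 2 = 0 := by omega
    have hk3 : k / 2 = κ := by omega
    rw [hk2, hk3]
    rw [hk2, hk3] at hi2
    have a1 : 2 * k - 8 * i = 2 * (2 * (κ - 2 * i)) := by omega
    have a2 : 2 * k - 8 * i - 3 = 2 * (2 * (κ - 2 * i - 1)) + 1 := by omega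
    have a3 : 2 * k - 6 * i - 2 = 2 * (2 * κ - 1 - 3 * i) := by omega
    have a4 : 2 * k - 12 * i = 2 * (2 * (κ - 3 * i)) := by omega
    have a5 : 2 * (k : ℤ) - 12 * i - 2 = 2 * (2 * κ - 6 * i - 1) := by rw [hκ]; push_cast; ring
    have a6 : vz (2 * (κ : ℤ) - 6 * i - 1) = 0 := by
      have hodd : (2 * (κ : ℤ) - 6 * i - 1).natAbs % 2 = 1 := by omega
      unfold vz vv
      have : ¬ 2 ∣ (2 * (κ : ℤ) - 6 * i - 1).natAbs := by omega
      rw [padicValNat.eq_zero_of_not_dvd this]; rfl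
    rw [a5, vz2 _ (by omega), a6, a2, a1, a3, a4, hh_two_mul_succ, hh_two_mul, hh_two_mul,
      hh_two_mul, hh_two_mul, hh_two_mul, hh_two_mul]
    have b1 : κ + (1 - 0) - 1 - 3 * i = κ - 3 * i := by omega
    have b2 : 2 * κ - (1 - 0) - 3 * i = 2 * κ - 1 - 3 * i := by omega
    rw [b1, b2]
    push_cast
    have c1 : ((κ - 2 * i : ℕ) : ℤ) = (κ : ℤ) - 2 * i := by omega
    have c2 : ((κ - 2 * i - 1 : ℕ) : ℤ) = (κ : ℤ) - 2 * i - 1 := by omega
    have c3 : ((2 * κ - 1 - 3 * i : ℕ) : ℤ) = 2 * (κ : ℤ) - 1 - 3 * i := by omega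
    have c4 : ((κ - 3 * i : ℕ) : ℤ) = (κ : ℤ) - 3 * i := by omega
    rw [c1, c2, c3, c4]
    ring
  · have hk2 : k % 2 = 1 := by omega
    have hk3 : k / 2 = κ := by omega
    rw [hk2, hk3]
    rw [hk2, hk3] at hi2
    have a1 : 2 * k - 8 * i = 2 * (2 * (κ - 2 * i) + 1) := by omega
    have a2 : 2 * k - 8 * i - 3 = 2 * (2 * (κ - 2 * i - 1) + 1) + 1 := by omega
    have a3 : 2 * k - 6 * i - 2 = 2 * (2 * κ - 3 * i) := by omega
    have a4 : 2 * k - 12 * i = 2 * (2 * (κ - 3 * i) + 1) := by omega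
    have a5 : 2 * (k : ℤ) - 12 * i - 2 = 2 * (2 * ((κ - 3 * i : ℕ) : ℤ)) := by
      have : ((κ - 3 * i : ℕ) : ℤ) = κ - 3 * i := by omega
      rw [this, hκ]; push_cast; ring
    have a7 : hh (κ - 3 * i) = hh (κ - 1 - 3 * i) + vz ((κ - 3 * i : ℕ) : ℤ) := by
      have := hh_succ (κ - 1 - 3 * i)
      have e : κ - 1 - 3 * i + 1 = κ - 3 * i := by omega
      rw [e] at this
      rw [this]; rfl
    rw [a5, vz2 _ (by omega), vz2 _ (by omega), a2, a1, a3, a4]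
    simp only [hh_two_mul_succ, hh_two_mul]
    rw [a7]
    have b1 : κ + (1 - 1) - 1 - 3 * i = κ - 1 - 3 * i := by omega
    have b2 : 2 * κ - (1 - 1) - 3 * i = 2 * κ - 3 * i := by omega
    rw [b1, b2]
    push_cast
    have c1 : ((κ - 2 * i : ℕ) : ℤ) = (κ : ℤ) - 2 * i := by omega
    have c2 : ((κ - 2 * i - 1 : ℕ) : ℤ) = (κ : ℤ) - 2 * i - 1 := by omega
    have c3 : ((2 * κ - 3 * i : ℕ) : ℤ) = 2 * (κ : ℤ) - 3 * i := by omega
    have c4 : ((κ - 3 * i : ℕ) : ℤ) = (κ : ℤ) - 3 * i := by omega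
    rw [c1, c2, c3, c4]
    ring

lemma vq_bcCoeff (k : ℕ) (hk : 6 ≤ k) (n : ℕ) (hn : n ≤ (parOf k hk).d) :
    bcCoeff k n ≠ 0 ∧ vq (bcCoeff k n) = (parOf k hk).F n := by
  induction n with
  | zero => simp [bcCoeff, Par.F, vq]
  | succ n ih =>
    obtain ⟨i1, i2⟩ := ih (by omega)
    obtain ⟨t1, t2⟩ := bcTerm k hk (n + 1) (by omega) hn
    have e : bcCoeff k (n + 1) = bcCoeff k n * ((4 : ℚ) ^ (n + 1) * (2 * k - 12 * (n + 1 : ℕ) - 2)
      * ((2 * k - 8 * (n + 1)).factorial : ℕ) * ((2 * k - 8 * (n + 1) - 3).factorial : ℕ)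
    / (((2 * k - 6 * (n + 1) - 2).factorial : ℕ) * ((2 * k - 12 * (n + 1)).factorial : ℕ))) := by
      unfold bcCoeff
      rw [prod_Icc_succ_top (by omega)]
    rw [e]
    refine ⟨mul_ne_zero i1 t1, ?_⟩
    rw [vq_mul i1 t1, i2, t2]
    unfold Par.F
    rw [sum_range_succ]

/-- The Newton polygon of the reversed characteristic polynomial of the explicit matrix. -/
theorem np_matrix (k : ℕ) (hk : 6 ≤ k) (hd : 1 ≤ (parOf k hk).d) :
    newtonPolygon (parOf k hk).md.T.charpolyRev = newtonPolygon (bcPoly k (parOf k hk).d) := by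
  apply np_eq (parOf k hk) (parOf k hk).md hd
  · intro n hn
    rw [bcPoly_coeff, if_pos hn]
    exact vq_bcCoeff k hk n hn
  · intro n hn
    rw [bcPoly_coeff, if_neg (by omega)]
  · intro P h1 h2
    exact (parOf k hk).F_pos P h1 h2

end Pool.Agent.helper83.BC
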