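import Mathlib

set_option autoImplicit false

namespace Pool.Agent.helper83.BC

open Finset

/-- `vv n` is the 2-adic valuation of the natural number `n` (as an integer). -/
def vv (n : ℕ) : ℤ := (padicValNat 2 n : ℤ)

/-- `hh n` is the 2-adic valuation of `n!` (as an integer). -/
def hh (n : ℕ) : ℤ := (padicValNat 2 n.factorial : ℤ)

lemma vv_nonneg (n : ℕ) : 0 ≤ vv n := Int.natCast_nonneg _
lemma hh_nonneg (n : ℕ) : 0 ≤ hh n := Int.natCast_nonneg _

@[simp] lemma hh_zero : hh 0 = 0 := by simp [hh]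
@[simp] lemma hh_one : hh 1 = 0 := by simp [hh]
@[simp] lemma vv_one : vv 1 = 0 := by simp [vv]

lemma hh_succ (n : ℕ) : hh (n + 1) = hh n + vv (n + 1) := by
  unfold hh vv
  rw [Nat.factorial_succ, padicValNat.mul (by omega) (Nat.factorial_ne_zero n)]
  push_cast; ring

lemma hh_two_mul (n : ℕ) : hh (2 * n) = n + hh n := by
  induction n with
  | zero => simp
  | succ k ih =>
    have e : 2 * (k + 1) = (2 * k + 1) + 1 := by ring
    rw [e, hh_succ, hh_succ, ih, hh_succ k]
    have h1 : vv (2 * k + 1) = 0 := by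
      unfold vv
      rw [padicValNat.eq_zero_of_not_dvd (by omega)]
      rfl
    have h2 : vv (2 * k + 1 + 1) = 1 + vv (k + 1) := by
      unfold vv
      have : 2 * k + 1 + 1 = 2 * (k + 1) := by ring
      rw [this, padicValNat.mul (by omega) (by omega)]
      simp
    rw [h1, h2]; push_cast; ring

lemma hh_two_mul_succ (n : ℕ) : hh (2 * n + 1) = n + hh n := by
  rw [hh_succ, hh_two_mul]
  have h1 : vv (2 * n + 1) = 0 := by
    unfold vv
    rw [padicValNat.eq_zero_of_not_dvd (by omega)]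
    rfl
  rw [h1]; ring

lemma hh_lower (n : ℕ) : (n : ℤ) ≤ 2 * hh n + 1 := by
  rcases Nat.even_or_odd' n with ⟨k, rfl | rfl⟩
  · rw [hh_two_mul]; have := hh_nonneg k; push_cast; omega
  · rw [hh_two_mul_succ]; have := hh_nonneg k; push_cast; omega

lemma hh_le (n : ℕ) : hh n ≤ n := by
  induction n using Nat.strong_induction_on with
  | _ n ih =>
    rcases Nat.even_or_odd' n with ⟨k, rfl | rfl⟩
    · rcases Nat.eq_zero_or_pos k with rfl | hk
      · simp
      · rw [hh_two_mul]; have := ih k (by omega); push_cast; omega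
    · rw [hh_two_mul_succ]
      have := ih k (by omega); push_cast; omega

lemma hh_upper (n : ℕ) (hn : 1 ≤ n) : hh n ≤ n - 1 := by
  induction n using Nat.strong_induction_on with
  | _ n ih =>
    rcases Nat.even_or_odd' n with ⟨k, rfl | rfl⟩
    · rw [hh_two_mul]; have := ih k (by omega) (by omega); push_cast; omega
    · rw [hh_two_mul_succ]
      have := hh_le k; push_cast; omega

lemma hh_add (a b : ℕ) : hh a + hh b ≤ hh (a + b) := by
  unfold hh
  have h := Nat.factorial_mul_factorial_dvd_factorial_add a b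
  have h1 : padicValNat 2 (a.factorial * b.factorial) ≤ padicValNat 2 (a + b).factorial :=
    (padicValNat_dvd_iff_le (Nat.factorial_ne_zero _)).1
      (dvd_trans (pow_padicValNat_dvd) h)
  rw [padicValNat.mul (Nat.factorial_ne_zero a) (Nat.factorial_ne_zero b)] at h1
  exact_mod_cast h1

lemma hh_mono {a b : ℕ} (h : a ≤ b) : hh a ≤ hh b := by
  obtain ⟨c, rfl⟩ := Nat.exists_eq_add_of_le h
  have := hh_add a c; have := hh_nonneg c; omega

lemma hh_three (D : ℕ) : 2 * hh D + D ≤ hh (3 * D) := by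
  have h := hh_add (2 * D) D
  rw [hh_two_mul] at h
  have e : 3 * D = 2 * D + D := by ring
  rw [e]; omega

lemma vv_le_half (n : ℕ) (hn : 2 ≤ n) : 2 * vv n ≤ n := by
  induction n using Nat.strong_induction_on with
  | _ n ih =>
    rcases Nat.even_or_odd' n with ⟨k, rfl | rfl⟩
    · have h2 : vv (2 * k) = 1 + vv k := by
        unfold vv
        rw [padicValNat.mul (by omega) (by omega)]
        simp
      rw [h2]
      rcases Nat.lt_or_ge k 2 with hk | hk
      · have : k = 1 := by omega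
        subst this; simp
      · have := ih k (by omega) hk
        push_cast; omega
    · have h1 : vv (2 * k + 1) = 0 := by
        unfold vv
        rw [padicValNat.eq_zero_of_not_dvd (by omega)]
        rfl
      rw [h1]; positivity

/-- the valuation of a binomial coefficient is small -/
lemma hh_choose (a b : ℕ) : 2 * (hh (a + b) - hh a - hh b) ≤ a + b + 1 := by
  have h1 : (a + b).choose a ≠ 0 := (Nat.choose_pos (by omega)).ne'
  have h2 : padicValNat 2 ((a + b).choose a) ≤ Nat.log 2 (a + b) := by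
    have := Nat.factorization_choose_le_log (p := 2) (n := a + b) (k := a)
    rwa [Nat.factorization_def _ Nat.prime_two] at this
  have h3 : ∀ n : ℕ, 2 * Nat.log 2 n ≤ n + 1 := by
    intro n
    induction n using Nat.strong_induction_on with
    | _ n ih =>
      rcases Nat.lt_or_ge n 2 with hk | hk
      · rw [Nat.log_of_lt hk]; omega
      · rw [Nat.log_of_one_lt_of_le (by omega) hk]
        rcases Nat.lt_or_ge n 4 with hk4 | hk4
        · have : n / 2 = 1 := by omega
          rw [this]; simp; omega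
        · have := ih (n / 2) (by omega); omega
  have h4 : (a + b).choose a * a.factorial * b.factorial = (a + b).factorial := by
    have := Nat.choose_mul_factorial_mul_factorial (n := a + b) (k := a) (by omega)
    simpa using this
  have h5 : padicValNat 2 ((a + b).choose a) + padicValNat 2 a.factorial
      + padicValNat 2 b.factorial = padicValNat 2 (a + b).factorial := by
    rw [← h4, padicValNat.mul (mul_ne_zero h1 (Nat.factorial_ne_zero a)) (Nat.factorial_ne_zero b),
      padicValNat.mul h1 (Nat.factorial_ne_zero a)]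
  have h6 := h3 (a + b)
  unfold hh
  omega

/-- the signed version of `hh`: `Vs (n+1) = hh n`, `Vs (-n) = - hh n`. -/
def Vs (p : ℤ) : ℤ := if 1 ≤ p then hh (p - 1).toNat else - hh (-p).toNat

lemma Vs_nat (n : ℕ) : Vs (n + 1) = hh n := by
  unfold Vs; rw [if_pos (by omega)]; congr 1; simp

lemma Vs_neg_nat (n : ℕ) : Vs (-n) = - hh n := by
  unfold Vs; rw [if_neg (by omega)]; simp

lemma Vs_one_sub (p : ℤ) : Vs (1 - p) = - Vs p := by
  unfold Vs
  rcases le_or_gt 1 p with h | h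
  · rw [if_neg (by omega), if_pos h]; congr 2; omega
  · rw [if_pos (by omega), if_neg (by omega)]; rw [neg_neg]; congr 1; omega

lemma Vs_zero : Vs 0 = 0 := by unfold Vs; simp
lemma Vs_one : Vs 1 = 0 := by unfold Vs; simp

lemma Vs_succ (i : ℤ) (hi : i ≠ 0) : Vs (i + 1) = Vs i + vv i.natAbs := by
  rcases lt_or_gt_of_ne hi with h | h
  · obtain ⟨n, rfl⟩ : ∃ n : ℕ, i = -((n : ℤ) + 1) := ⟨(-i - 1).toNat, by omega⟩
    have e1 : -((n : ℤ) + 1) + 1 = -(n : ℤ) := by ring
    rw [e1, Vs_neg_nat]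
    have e2 : -((n : ℤ) + 1) = -((n + 1 : ℕ) : ℤ) := by push_cast; ring
    have e3 : (-((n + 1 : ℕ) : ℤ)).natAbs = n + 1 := by omega
    rw [e2, Vs_neg_nat, hh_succ, e3]
    ring
  · obtain ⟨n, rfl⟩ : ∃ n : ℕ, i = (n : ℤ) + 1 := ⟨(i - 1).toNat, by omega⟩
    have e1 : (n : ℤ) + 1 + 1 = ((n + 1 : ℕ) : ℤ) + 1 := by push_cast; ring
    rw [e1, Vs_nat, Vs_nat, hh_succ]
    congr 2

lemma Vs_succ_zero : Vs (0 + 1) = Vs 0 := by rw [zero_add, Vs_zero, Vs_one]

section vB

variable (B : ℕ)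

/-- truncated 2-adic valuation on the integers: the largest `e ≤ B` with `2^e ∣ x`. -/
def vB (x : ℤ) : ℕ := Nat.findGreatest (fun e => (2:ℤ)^e ∣ x) B

lemma vB_le (x : ℤ) : vB B x ≤ B := Nat.findGreatest_le B

lemma pow_vB_dvd (x : ℤ) : (2:ℤ) ^ (vB B x) ∣ x := by
  unfold vB
  exact Nat.findGreatest_spec (P := fun e => (2:ℤ)^e ∣ x) (m := 0) (Nat.zero_le B) (by simp)

lemma le_vB {e : ℕ} {x : ℤ} (he : e ≤ B) (h : (2:ℤ) ^ e ∣ x) : e ≤ vB B x :=
  Nat.le_findGreatest (P := fun e => (2:ℤ)^e ∣ x) he h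

lemma dvd_of_le_vB {e : ℕ} {x : ℤ} (h : e ≤ vB B x) : (2:ℤ) ^ e ∣ x :=
  dvd_trans (pow_dvd_pow 2 h) (pow_vB_dvd B x)

lemma vB_neg (x : ℤ) : vB B (-x) = vB B x := by
  unfold vB
  congr 1
  ext e
  simp

/-- ultrametric equality -/
lemma vB_eq_of_dvd_sub {w : ℕ} {x y : ℤ} (hxy : (2:ℤ) ^ w ∣ x + y) (hx : vB B x < w)
    (hw : w ≤ B) : vB B y = vB B x := by
  apply le_antisymm
  · by_contra hc
    push Not at hc
    have h1 : (2:ℤ) ^ (vB B x + 1) ∣ y := dvd_of_le_vB B (by omega)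
    have h2 : (2:ℤ) ^ (vB B x + 1) ∣ x + y := dvd_trans (pow_dvd_pow 2 (by omega)) hxy
    have h3 : (2:ℤ) ^ (vB B x + 1) ∣ x := by
      have := dvd_sub h2 h1; simpa using this
    have := le_vB B (by omega) h3
    omega
  · apply le_vB B (vB_le B x)
    have h1 := pow_vB_dvd B x
    have h2 : (2:ℤ) ^ (vB B x) ∣ x + y := dvd_trans (pow_dvd_pow 2 (by omega)) hxy
    have := dvd_sub h2 h1; simpa using this

/-- upper bound: if `vB (z+i) ≤ vB z` then `vB (z+i) ≤ v(i)` -/
lemma vB_add_le {z i : ℤ} (hi : i ≠ 0) (h : vB B (z + i) ≤ vB B z) :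
    (vB B (z + i) : ℤ) ≤ vv i.natAbs := by
  have h1 := pow_vB_dvd B (z + i)
  have h2 : (2:ℤ) ^ (vB B (z + i)) ∣ z := dvd_of_le_vB B h
  have h3 : (2:ℤ) ^ (vB B (z + i)) ∣ i := by
    have := dvd_sub h1 h2; simpa using this
  unfold vv
  have h4 : (2:ℕ) ^ (vB B (z + i)) ∣ i.natAbs := by
    have := Int.natAbs_dvd_natAbs.2 h3
    simpa [Int.natAbs_pow] using this
  have h5 := (padicValNat_dvd_iff_le (p := 2) (by simpa using hi : i.natAbs ≠ 0)).1 h4
  exact_mod_cast h5

/-- exactness close to a spike -/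
lemma vB_add_eq {z i : ℤ} {w : ℕ} (hi : i ≠ 0) (hw : w ≤ vB B z)
    (h : (i.natAbs) < 2 ^ w) :
    (vB B (z + i) : ℤ) = vv i.natAbs := by
  have hwB : w ≤ B := hw.trans (vB_le B z)
  have hi' : i.natAbs ≠ 0 := by simpa using hi
  have hz : (2:ℤ) ^ w ∣ z := dvd_of_le_vB B hw
  have h0 : (2:ℕ) ^ (padicValNat 2 i.natAbs) ∣ i.natAbs := pow_padicValNat_dvd
  have h0' : (2:ℤ) ^ (padicValNat 2 i.natAbs) ∣ i := by
    have : ((2 ^ (padicValNat 2 i.natAbs) : ℕ) : ℤ) ∣ i := Int.natCast_dvd.2 h0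
    simpa using this
  have hlt : padicValNat 2 i.natAbs < w := by
    have := Nat.le_of_dvd (Nat.pos_of_ne_zero hi') h0
    by_contra hc
    push Not at hc
    have := Nat.pow_le_pow_right (n := 2) (by norm_num) hc
    omega
  unfold vv
  norm_cast
  apply le_antisymm
  · by_contra hc
    push Not at hc
    have h1 : (2:ℤ) ^ (padicValNat 2 i.natAbs + 1) ∣ z + i := dvd_of_le_vB B (by omega)
    have h2 : (2:ℤ) ^ (padicValNat 2 i.natAbs + 1) ∣ z := dvd_trans (pow_dvd_pow 2 (by omega)) hz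
    have h3 : (2:ℤ) ^ (padicValNat 2 i.natAbs + 1) ∣ i := by
      have := dvd_sub h1 h2; simpa using this
    have h4 : (2:ℕ) ^ (padicValNat 2 i.natAbs + 1) ∣ i.natAbs := by
      have := Int.natAbs_dvd_natAbs.2 h3
      simpa [Int.natAbs_pow] using this
    have h5 := (padicValNat_dvd_iff_le (p := 2) hi').1 h4
    omega
  · apply le_vB B (by omega)
    exact dvd_add (dvd_trans (pow_dvd_pow 2 (by omega)) hz) h0'

/-- the cumulative sum of `vB` -/
def W (x : ℤ) : ℤ :=
  if 0 ≤ x then ∑ i ∈ range x.toNat, (vB B (i : ℤ) : ℤ)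
  else - ∑ i ∈ range (-x).toNat, (vB B (-((i : ℤ) + 1)) : ℤ)

lemma W_succ (x : ℤ) : W B (x + 1) = W B x + vB B x := by
  unfold W
  rcases le_or_gt 0 x with h | h
  · rw [if_pos (by omega), if_pos h]
    have : (x + 1).toNat = x.toNat + 1 := by omega
    rw [this, sum_range_succ]
    congr 3
    omega
  · rw [if_neg (not_le.2 h)]
    rcases eq_or_ne x (-1) with rfl | h1
    · simp
    · rw [if_neg (by omega)]
      have : (-x).toNat = (-(x + 1)).toNat + 1 := by omega
      rw [this, sum_range_succ]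
      have e : (-(((-(x + 1)).toNat : ℤ) + 1)) = x := by omega
      rw [e]; ring

lemma W_mono_step (x : ℤ) (n : ℕ) : W B x ≤ W B (x + n) := by
  induction n with
  | zero => simp
  | succ k ih =>
    have : x + ((k + 1 : ℕ) : ℤ) = (x + k) + 1 := by push_cast; ring
    rw [this, W_succ]
    have := Int.natCast_nonneg (vB B (x + k))
    omega

/-- reflection of the cumulative sum -/
lemma W_one_sub (x : ℤ) : W B (1 - x) = W B 1 - W B x + W B 0 := by
  have key : ∀ n : ℕ, W B (1 - (n : ℤ)) + W B n = W B 1 + W B 0 := by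
    intro n
    induction n with
    | zero => simp
    | succ k ih =>
      have e1 : (1 : ℤ) - ((k + 1 : ℕ) : ℤ) = -(k : ℤ) := by push_cast; ring
      have e2 : (1 : ℤ) - (k : ℤ) = -(k : ℤ) + 1 := by ring
      rw [e2, W_succ] at ih
      rw [e1]
      push_cast
      rw [W_succ]
      rw [vB_neg] at ih
      omega
  rcases le_or_gt 0 x with h | h
  · obtain ⟨n, rfl⟩ := Int.eq_ofNat_of_zero_le h
    have := key n; omega
  · obtain ⟨n, hn⟩ := Int.eq_ofNat_of_zero_le (by omega : 0 ≤ 1 - x)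
    have h1 := key n
    have : 1 - (n : ℤ) = x := by omega
    rw [this] at h1
    rw [hn]; omega

lemma W_zero : W B 0 = 0 := by simp [W]

lemma W_sum (x : ℤ) (n : ℕ) : W B (x + n) - W B x = ∑ i ∈ range n, (vB B (x + i) : ℤ) := by
  induction n with
  | zero => simp
  | succ k ih =>
    have e : x + ((k + 1 : ℕ) : ℤ) = (x + k) + 1 := by push_cast; ring
    rw [e, W_succ, sum_range_succ, ← ih]; ring

lemma vB_card (x : ℤ) : vB B x = #{e ∈ Ico 1 (B + 1) | (2:ℤ) ^ e ∣ x} := by
  have : {e ∈ Ico 1 (B + 1) | (2:ℤ) ^ e ∣ x} = Ico 1 (vB B x + 1) := by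
    ext e
    simp only [mem_filter, mem_Ico]
    constructor
    · rintro ⟨⟨h1, h2⟩, h3⟩
      have := le_vB B (by omega) h3
      omega
    · rintro ⟨h1, h2⟩
      have := vB_le B x
      exact ⟨⟨h1, by omega⟩, dvd_of_le_vB B (by omega)⟩
  rw [this]; simp

lemma count_dvd (x : ℤ) (r : ℕ) (hr : 0 < r) (n : ℕ) :
    n / r ≤ #{i ∈ range n | (r : ℤ) ∣ x + (i : ℕ)} := by
  have hr' : (0 : ℤ) < r := by exact_mod_cast hr
  have h0 : 0 ≤ (-x) % (r : ℤ) := Int.emod_nonneg _ hr'.ne'
  set v : ℕ := ((-x) % (r : ℤ)).toNat with hv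
  have hv' : (v : ℤ) = (-x) % (r : ℤ) := by omega
  have key : ∀ i : ℕ, ((r : ℤ) ∣ x + (i : ℕ)) ↔ i ≡ v [MOD r] := by
    intro i
    rw [← Int.natCast_modEq_iff, Int.modEq_iff_dvd, hv']
    have h1 : (r : ℤ) ∣ (-x) - (-x) % (r : ℤ) := Int.dvd_self_sub_emod
    constructor
    · intro h
      have := dvd_neg.2 (dvd_add h h1)
      have e : (-x) % (r : ℤ) - (i : ℤ) = -(x + (i : ℕ) + (-x - -x % (r : ℤ))) := by ring
      rw [e]; exact this
    · intro h
      have := dvd_neg.2 (dvd_add h h1)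
      have e : x + ((i : ℕ) : ℤ) = -(-x % (r : ℤ) - (i : ℤ) + (-x - -x % (r : ℤ))) := by ring
      rw [e]; exact this
  have h2 : #{i ∈ range n | (r : ℤ) ∣ x + (i : ℕ)} = n.count (· ≡ v [MOD r]) := by
    rw [Nat.count_eq_card_filter_range]
    congr 1
    ext i
    simp [key]
  rw [h2, Nat.count_modEq_card n hr v]
  omega

/-- lower bound for sums of consecutive valuations. -/
lemma W_lower (x : ℤ) (n : ℕ) (hn : n < 2 ^ B) : hh n ≤ W B (x + n) - W B x := by
  rw [W_sum]
  have h1 : ∑ i ∈ range n, (vB B (x + i) : ℤ)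
      = ((∑ e ∈ Ico 1 (B + 1), #{i ∈ range n | ((2 ^ e : ℕ) : ℤ) ∣ x + (i : ℕ)} : ℕ) : ℤ) := by
    norm_cast
    simp_rw [vB_card, card_filter]
    rw [sum_comm]
    push_cast
    rfl
  rw [h1]
  unfold hh
  rw [padicValNat_factorial (p := 2) (n := n) (b := B + 1)
    (by have := Nat.log_lt_of_lt_pow' (b := 2) (x := B) (y := n); 
        rcases Nat.eq_zero_or_pos n with rfl | hpos
        · simp
        · have := Nat.log_lt_of_lt_pow hpos.ne' hn; omega)]
  norm_cast
  apply sum_le_sum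
  intro e _
  exact count_dvd x (2 ^ e) (by positivity) n

/-- lower bound with a spike -/
lemma W_spike (x : ℤ) (l r : ℕ) (hl : l < 2 ^ B) (hr : r < 2 ^ B) (w : ℕ)
    (hw : w ≤ vB B (x + l)) :
    (w : ℤ) + hh l + hh r ≤ W B (x + l + 1 + r) - W B x := by
  have h1 := W_lower B x l hl
  have h2 := W_succ B (x + l)
  have h3 := W_lower B (x + l + 1) r hr
  have : (w : ℤ) ≤ vB B (x + l) := by exact_mod_cast hw
  omega

/-- upper bound for sums of consecutive valuations near a maximal spike `z`. -/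
lemma W_upper (z k₁ : ℤ) (n : ℕ) (h : ∀ i : ℕ, i < n → vB B (z + (k₁ + i)) ≤ vB B z) :
    W B (z + (k₁ + n)) - W B (z + k₁) ≤ Vs (k₁ + n) - Vs k₁
      + (if k₁ ≤ 0 ∧ 0 < k₁ + n then (vB B z : ℤ) else 0) := by
  induction n with
  | zero =>
    rw [if_neg (by push_cast; omega)]
    simp
  | succ k ih =>
    have ih := ih (fun i hi => h i (by omega))
    have hk := h k (by omega)
    have e1 : z + (k₁ + ((k + 1 : ℕ) : ℤ)) = (z + (k₁ + k)) + 1 := by push_cast; ring
    have e2 : k₁ + ((k + 1 : ℕ) : ℤ) = (k₁ + k) + 1 := by push_cast; ring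
    rw [e1, W_succ, e2]
    rcases eq_or_ne (k₁ + (k : ℤ)) 0 with h0 | h0
    · rw [h0] at ih ⊢
      rw [Vs_succ_zero]
      rw [if_neg (by omega)] at ih
      rw [if_pos (by omega)]
      rw [add_zero] at ih ⊢
      omega
    · rw [Vs_succ _ h0]
      have := vB_add_le B h0 hk
      have : (if k₁ ≤ 0 ∧ 0 < k₁ + (k : ℤ) then (vB B z : ℤ) else 0)
          = (if k₁ ≤ 0 ∧ 0 < k₁ + (k : ℤ) + 1 then (vB B z : ℤ) else 0) := by
        congr 1
        apply propext
        constructor <;> (rintro ⟨a, b⟩; constructor <;> omega)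
      rw [← this]
      omega

/-- exact value of sums of consecutive valuations near a spike `z`. -/
lemma W_exact (z k₁ : ℤ) (n : ℕ)
    (h : ∀ i : ℕ, i < n → (k₁ + i).natAbs < 2 ^ (vB B z)) :
    W B (z + (k₁ + n)) - W B (z + k₁) = Vs (k₁ + n) - Vs k₁
      + (if k₁ ≤ 0 ∧ 0 < k₁ + n then (vB B z : ℤ) else 0) := by
  induction n with
  | zero =>
    rw [if_neg (by push_cast; omega)]
    simp
  | succ k ih =>
    have ih := ih (fun i hi => h i (by omega))
    have hk := h k (by omega)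
    have e1 : z + (k₁ + ((k + 1 : ℕ) : ℤ)) = (z + (k₁ + k)) + 1 := by push_cast; ring
    have e2 : k₁ + ((k + 1 : ℕ) : ℤ) = (k₁ + k) + 1 := by push_cast; ring
    rw [e1, W_succ, e2]
    rcases eq_or_ne (k₁ + (k : ℤ)) 0 with h0 | h0
    · rw [h0] at ih ⊢
      rw [Vs_succ_zero]
      rw [if_neg (by omega)] at ih
      rw [if_pos (by omega)]
      rw [add_zero] at ih ⊢
      omega
    · rw [Vs_succ _ h0]
      have := vB_add_eq B h0 (le_refl (vB B z)) hk
      have : (if k₁ ≤ 0 ∧ 0 < k₁ + (k : ℤ) then (vB B z : ℤ) else 0)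
          = (if k₁ ≤ 0 ∧ 0 < k₁ + (k : ℤ) + 1 then (vB B z : ℤ) else 0) := by
        congr 1
        apply propext
        constructor <;> (rintro ⟨a, b⟩; constructor <;> omega)
      rw [← this]
      omega

end vB

end Pool.Agent.helper83.BC
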