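import Pool.Agent.helper83.BCLoc4
import Pool.Agent.helper83.BCCauchy

set_option autoImplicit false

namespace Pool.Agent.helper83.BC

open Finset

/-- 2-adic valuation of a rational number -/
def vq (x : ℚ) : ℤ := padicValRat 2 x

lemma vq_mul {x y : ℚ} (hx : x ≠ 0) (hy : y ≠ 0) : vq (x * y) = vq x + vq y :=
  padicValRat.mul hx hy

lemma vq_div {x y : ℚ} (hx : x ≠ 0) (hy : y ≠ 0) : vq (x / y) = vq x - vq y :=
  padicValRat.div hx hy

lemma vq_int (x : ℤ) : vq (x : ℚ) = vz x := by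
  unfold vq vz vv
  rw [padicValRat.of_int]; rfl

lemma vq_natCast (n : ℕ) : vq (n : ℚ) = vv n := by
  unfold vq vv
  rw [padicValRat.of_nat]

lemma vq_factorial (n : ℕ) : vq ((n.factorial : ℕ) : ℚ) = hh n := by
  rw [vq_natCast]; rfl

lemma vq_two_pow (n : ℕ) : vq ((2 : ℚ) ^ n) = n := by
  unfold vq
  rw [padicValRat.pow]
  have : padicValRat 2 (2 : ℚ) = 1 := by
    have := padicValRat.self (p := 2) (by norm_num)
    simpa using this
  rw [this]; ring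

lemma vq_four_pow (n : ℕ) : vq ((4 : ℚ) ^ n) = 2 * n := by
  have : (4 : ℚ) ^ n = 2 ^ (2 * n) := by rw [pow_mul]; norm_num
  rw [this, vq_two_pow]; push_cast; ring

lemma vq_neg_one_pow (n : ℕ) : vq ((-1 : ℚ) ^ n) = 0 := by
  unfold vq
  rw [padicValRat.pow]
  simp

/-- valuation of `num` -/
lemma vq_num (n i : ℕ) (hi : 1 ≤ i) : vq (num n i) = hh (i - 1) - Vs ((i : ℤ) - n) := by
  induction n with
  | zero =>
    have : num 0 i = 1 := by simp [num]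
    rw [this]
    have h1 : Vs ((i : ℤ) - (0 : ℕ)) = hh (i - 1) := by
      have := Vs_nat (i - 1)
      have e : (((i - 1 : ℕ) : ℤ) + 1) = (i : ℤ) - (0 : ℕ) := by omega
      rwa [e] at this
    rw [h1]
    simp [vq]
  | succ n ih =>
    have hIcc : Icc 1 (n + 1) = insert (n + 1) (Icc 1 n) := by
      ext x; simp only [mem_Icc, mem_insert]; omega
    rcases eq_or_ne i (n + 1) with rfl | hne
    · have : num (n + 1) (n + 1) = num n (n + 1) := by
        unfold num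
        rw [hIcc, erase_insert (by simp), erase_eq_of_notMem (by simp)]
      rw [this, ih]
      have e1 : ((n + 1 : ℕ) : ℤ) - n = 0 + 1 := by push_cast; ring
      have e2 : ((n + 1 : ℕ) : ℤ) - ((n + 1 : ℕ) : ℤ) = 0 := by ring
      rw [e1, e2, Vs_succ_zero]
    · have h1 : num (n + 1) i = ((i : ℚ) - ((n + 1 : ℕ) : ℚ)) * num n i := by
        unfold num
        rw [hIcc, erase_insert_of_ne (Ne.symm hne), prod_insert (by simp)]
      have h2 : ((i : ℚ) - ((n + 1 : ℕ) : ℚ)) ≠ 0 := by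
        intro h
        apply hne
        have : (i : ℚ) = ((n + 1 : ℕ) : ℚ) := by linarith
        exact_mod_cast this
      rw [h1, vq_mul h2 (num_ne_zero n i), ih]
      have h3 : ((i : ℚ) - ((n + 1 : ℕ) : ℚ)) = (((i : ℤ) - ((n + 1 : ℕ) : ℤ) : ℤ) : ℚ) := by
        push_cast; ring
      rw [h3, vq_int]
      have h4 := Vs_succ ((i : ℤ) - ((n + 1 : ℕ) : ℤ)) (by omega)
      have e3 : (i : ℤ) - ((n + 1 : ℕ) : ℤ) + 1 = (i : ℤ) - n := by push_cast; ring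
      rw [e3] at h4
      unfold vz
      omega

/-- valuation of `den` -/
lemma vq_den (κ n i : ℕ) (h : i + n < κ) :
    vq (den κ n i) = hh (κ - i - 1) - hh (κ - i - n - 1) ∧ den κ n i ≠ 0 := by
  induction n with
  | zero =>
    have : den κ 0 i = 1 := by simp [den]
    rw [this]; simp [vq]
  | succ n ih =>
    have ih := ih (by omega)
    have hIcc : Icc 1 (n + 1) = insert (n + 1) (Icc 1 n) := by
      ext x; simp only [mem_Icc, mem_insert]; omega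
    have h1 : den κ (n + 1) i = ((κ - i - n - 1 : ℕ) : ℚ) * den κ n i := by
      unfold den
      rw [hIcc, prod_insert (by simp)]
      congr 1
      have : ((κ - i - n - 1 : ℕ) : ℚ) = (((κ - i - n - 1 : ℕ) : ℤ) : ℚ) := by push_cast; rfl
      rw [this]
      have : ((κ - i - n - 1 : ℕ) : ℤ) = (κ : ℤ) - i - n - 1 := by omega
      rw [this]; push_cast; ring
    have h2 : ((κ - i - n - 1 : ℕ) : ℚ) ≠ 0 := by
      have : κ - i - n - 1 ≠ 0 := by omega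
      exact_mod_cast this
    rw [h1]
    refine ⟨?_, mul_ne_zero h2 ih.2⟩
    rw [vq_mul h2 ih.2, ih.1, vq_natCast]
    have h3 := hh_succ (κ - i - n - 2)
    have e1 : κ - i - n - 2 + 1 = κ - i - n - 1 := by omega
    have e2 : κ - i - (n + 1) - 1 = κ - i - n - 2 := by omega
    rw [e1] at h3
    rw [e2]
    omega

/-- parameters of the problem: `weight = 4 κ` if `ρ = 1` and `weight = 4 κ + 2` if `ρ = 0`. -/
structure Par where
  κ : ℕ
  ρ : ℕ
  d : ℕ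
  L : ℕ
  hρ : ρ ≤ 1
  hd1 : 3 * d + 1 ≤ κ + ρ
  hd2 : κ + ρ < 3 * d + 4
  hL1 : 3 * L + ρ ≤ 2 * κ
  hL2 : 2 * κ < 3 * L + ρ + 3

namespace Par

variable (p : Par)

def phi (i : ℕ) : ℚ :=
  4 ^ i * ((p.κ - 1 - i).factorial : ℕ) /
    (((2 * i - 1).factorial : ℕ) * ((p.κ + p.ρ - 1 - 3 * i).factorial : ℕ))

def psi (t : ℕ) : ℚ :=
  (-1) ^ t * 4 ^ t * ((2 * p.κ - 2 * t - 1).factorial : ℕ) /
    (((2 * p.κ - p.ρ - 3 * t).factorial : ℕ) * ((t - 1).factorial : ℕ) * 2 ^ p.ρ)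

lemma fact_ne (n : ℕ) : ((n.factorial : ℕ) : ℚ) ≠ 0 := by
  exact_mod_cast Nat.factorial_ne_zero n

lemma phi_ne (i : ℕ) : p.phi i ≠ 0 := by
  unfold phi
  have h1 := fact_ne (p.κ - 1 - i)
  have h2 := fact_ne (2 * i - 1)
  have h3 := fact_ne (p.κ + p.ρ - 1 - 3 * i)
  positivity

lemma psi_ne (t : ℕ) : p.psi t ≠ 0 := by
  unfold psi
  have h1 := fact_ne (2 * p.κ - 2 * t - 1)
  have h2 := fact_ne (2 * p.κ - p.ρ - 3 * t)
  have h3 := fact_ne (t - 1)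
  have h4 : ((-1 : ℚ)) ^ t ≠ 0 := pow_ne_zero _ (by norm_num)
  have h5 : ((4 : ℚ)) ^ t ≠ 0 := pow_ne_zero _ (by norm_num)
  have h6 : ((2 : ℚ)) ^ p.ρ ≠ 0 := pow_ne_zero _ (by norm_num)
  apply div_ne_zero
  · exact mul_ne_zero (mul_ne_zero h4 h5) h1
  · exact mul_ne_zero (mul_ne_zero h2 h3) h6

lemma vq_phi (i : ℕ) (hi : 1 ≤ i) : vq (p.phi i) =
    2 * i + hh (p.κ - 1 - i) - ((i - 1 : ℕ) + hh (i - 1)) - hh (p.κ + p.ρ - 1 - 3 * i) := by
  unfold phi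
  have h1 := fact_ne (p.κ - 1 - i)
  have h2 := fact_ne (2 * i - 1)
  have h3 := fact_ne (p.κ + p.ρ - 1 - 3 * i)
  have h5 : ((4 : ℚ)) ^ i ≠ 0 := pow_ne_zero _ (by norm_num)
  rw [vq_div (mul_ne_zero h5 h1) (mul_ne_zero h2 h3), vq_mul h5 h1, vq_mul h2 h3,
    vq_factorial, vq_factorial, vq_factorial, vq_four_pow]
  have e : 2 * i - 1 = 2 * (i - 1) + 1 := by omega
  rw [e, hh_two_mul_succ]
  ring

lemma vq_psi (t : ℕ) (ht : t < p.κ) : vq (p.psi t) =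
    2 * t + ((p.κ - t - 1 : ℕ) + hh (p.κ - t - 1)) - hh (2 * p.κ - p.ρ - 3 * t) - hh (t - 1)
      - p.ρ := by
  unfold psi
  have h1 := fact_ne (2 * p.κ - 2 * t - 1)
  have h2 := fact_ne (2 * p.κ - p.ρ - 3 * t)
  have h3 := fact_ne (t - 1)
  have h4 : ((-1 : ℚ)) ^ t ≠ 0 := pow_ne_zero _ (by norm_num)
  have h5 : ((4 : ℚ)) ^ t ≠ 0 := pow_ne_zero _ (by norm_num)
  have h6 : ((2 : ℚ)) ^ p.ρ ≠ 0 := pow_ne_zero _ (by norm_num)
  rw [vq_div (mul_ne_zero (mul_ne_zero h4 h5) h1) (mul_ne_zero (mul_ne_zero h2 h3) h6),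
    vq_mul (mul_ne_zero h4 h5) h1, vq_mul h4 h5, vq_mul (mul_ne_zero h2 h3) h6, vq_mul h2 h3,
    vq_factorial, vq_factorial, vq_factorial, vq_four_pow, vq_neg_one_pow, vq_two_pow]
  have e : 2 * p.κ - 2 * t - 1 = 2 * (p.κ - t - 1) + 1 := by omega
  rw [e, hh_two_mul_succ]
  ring

/-- the combinatorial data at `n` -/
def dat (n : ℕ) : Dat where
  mu := (p.κ : ℤ) - 2 * n - 1
  al := (p.κ : ℤ) - 3 * n + p.ρ - 2
  be := 2 * (p.κ : ℤ) - 3 * n - p.ρ - 1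
  c := 2 * (n : ℤ) + p.κ - p.ρ
  hsum := by ring

lemma vB_zero (B : ℕ) : vB B 0 = B :=
  le_antisymm (vB_le B 0) (le_vB B le_rfl (by simp))

lemma W_pos (B : ℕ) (x : ℤ) (h1 : 1 ≤ x) (h2 : x ≤ 2 ^ B) : W B x = B + H (x - 1) := by
  have := W_exact' B 0 x (by
    rw [vB_zero]
    constructor
    · have : (0:ℤ) < 2 ^ B := by positivity
      omega
    · exact h2)
  rw [zero_add, W_zero, zero_add, if_pos h1, vB_zero, Vs_pos x h1] at this
  omega

/-- valuations of the row weights -/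
lemma vq_Ra_phi (B : ℕ) (hB : 2 * (p.κ : ℤ) + 2 ≤ 2 ^ B) (n i : ℕ) (hn : n ≤ p.d) (hi1 : 1 ≤ i)
    (hi2 : i ≤ p.d) :
    vq (Ra p.phi p.κ n i) = (p.dat n).fa B ((i : ℤ) - n) + n + 1 := by
  have h1 := p.hd1
  have h2 := p.hρ
  have hden := vq_den p.κ n i (by omega)
  unfold Ra
  rw [vq_div (mul_ne_zero (p.phi_ne i) (num_ne_zero n i)) hden.2,
    vq_mul (p.phi_ne i) (num_ne_zero n i), p.vq_phi i hi1, vq_num n i hi1, hden.1]
  unfold Dat.fa
  simp only [dat]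
  rw [W_pos B ((p.κ : ℤ) - 2 * n - 1 + 1 - (i - n)) (by omega) (by omega),
    W_pos B ((p.κ : ℤ) - 3 * n + p.ρ - 2 + 2 - 3 * (i - n)) (by omega) (by omega)]
  have e1 : H ((p.κ : ℤ) - 2 * n - 1 + 1 - (i - n) - 1) = hh (p.κ - i - n - 1) := by
    unfold H; congr 1; omega
  have e2 : H ((p.κ : ℤ) - 3 * n + p.ρ - 2 + 2 - 3 * (i - n) - 1)
      = hh (p.κ + p.ρ - 1 - 3 * i) := by
    unfold H; congr 1; omega
  have e3 : p.κ - 1 - i = p.κ - i - 1 := by omega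
  rw [e1, e2, e3]
  omega

lemma vq_Ra_psi (B : ℕ) (hB : 2 * (p.κ : ℤ) + 2 ≤ 2 ^ B) (n t : ℕ) (hn : n ≤ p.d) (ht1 : 1 ≤ t)
    (ht2 : t ≤ p.L) :
    vq (Ra p.psi p.κ n t) = (p.dat n).fb B ((t : ℤ) - n) + n + p.κ - 1 - p.ρ := by
  have h1 := p.hd1
  have h2 := p.hρ
  have h3 := p.hL1
  have hden := vq_den p.κ n t (by omega)
  unfold Ra
  rw [vq_div (mul_ne_zero (p.psi_ne t) (num_ne_zero n t)) hden.2,
    vq_mul (p.psi_ne t) (num_ne_zero n t), p.vq_psi t (by omega), vq_num n t ht1, hden.1]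
  unfold Dat.fb
  simp only [dat]
  rw [W_pos B ((p.κ : ℤ) - 2 * n - 1 + 1 - (t - n)) (by omega) (by omega),
    W_pos B (2 * (p.κ : ℤ) - 3 * n - p.ρ - 1 + 2 - 3 * (t - n)) (by omega) (by omega)]
  have e1 : H ((p.κ : ℤ) - 2 * n - 1 + 1 - (t - n) - 1) = hh (p.κ - t - n - 1) := by
    unfold H; congr 1; omega
  have e2 : H (2 * (p.κ : ℤ) - 3 * n - p.ρ - 1 + 2 - 3 * (t - n) - 1)
      = hh (2 * p.κ - p.ρ - 3 * t) := by
    unfold H; congr 1; omega
  rw [e1, e2]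
  omega

/-- the slopes -/
def sl (i : ℕ) : ℤ := (p.κ : ℤ) - p.ρ + 2 * i + hh (p.κ - 2 * i) + hh (p.κ - 2 * i - 1)
  - hh (p.κ + p.ρ - 1 - 3 * i) - hh (2 * p.κ - p.ρ - 3 * i)

/-- the partial sums of the slopes -/
def F (n : ℕ) : ℤ := ∑ i ∈ range n, p.sl (i + 1)

lemma lam_eq (hκ : 1 ≤ p.κ) (B : ℕ) (hB : 2 * (p.κ : ℤ) + 2 ≤ 2 ^ B) (n : ℕ) (j : ℤ) (i : ℕ)
    (hi : (i : ℤ) = n + j) (hi2 : i ≤ p.d) :
    (p.dat n).lam B j = p.sl i := by
  have h1 := p.hd1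
  have h2 := p.hρ
  unfold Dat.lam sl
  simp only [dat]
  have hj : j = i - n := by omega
  subst hj
  rw [W_pos B ((p.κ : ℤ) - 2 * n - 1 + 2 - 2 * (i - n)) (by omega) (by omega),
    W_pos B ((p.κ : ℤ) - 2 * n - 1 + 1 - 2 * (i - n)) (by omega) (by omega),
    W_pos B ((p.κ : ℤ) - 3 * n + p.ρ - 2 + 2 - 3 * (i - n)) (by omega) (by omega),
    W_pos B (2 * (p.κ : ℤ) - 3 * n - p.ρ - 1 + 2 - 3 * (i - n)) (by omega) (by omega)]
  have e1 : H ((p.κ : ℤ) - 2 * n - 1 + 2 - 2 * (i - n) - 1) = hh (p.κ - 2 * i) := by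
    unfold H; congr 1; omega
  have e2 : H ((p.κ : ℤ) - 2 * n - 1 + 1 - 2 * (i - n) - 1) = hh (p.κ - 2 * i - 1) := by
    unfold H; congr 1; omega
  have e3 : H ((p.κ : ℤ) - 3 * n + p.ρ - 2 + 2 - 3 * (i - n) - 1)
      = hh (p.κ + p.ρ - 1 - 3 * i) := by
    unfold H; congr 1; omega
  have e4 : H (2 * (p.κ : ℤ) - 3 * n - p.ρ - 1 + 2 - 3 * (i - n) - 1)
      = hh (2 * p.κ - p.ρ - 3 * i) := by
    unfold H; congr 1; omega
  rw [e1, e2, e3, e4]
  omega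

lemma sl_zero (hκ : 1 ≤ p.κ) : p.sl 0 = 0 := by
  have h2 := p.hρ
  unfold sl
  interval_cases h : p.ρ
  · have e1 : p.κ - 2 * 0 = p.κ := by omega
    have e2 : p.κ - 2 * 0 - 1 = p.κ - 1 := by omega
    have e3 : p.κ + 0 - 1 - 3 * 0 = p.κ - 1 := by omega
    have e4 : 2 * p.κ - 0 - 3 * 0 = 2 * p.κ := by omega
    rw [e2, e1, e3, e4, hh_two_mul]; push_cast; ring
  · have e1 : p.κ - 2 * 0 = p.κ := by omega
    have e2 : p.κ - 2 * 0 - 1 = p.κ - 1 := by omega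
    have e3 : p.κ + 1 - 1 - 3 * 0 = p.κ := by omega
    have e4 : 2 * p.κ - 1 - 3 * 0 = 2 * (p.κ - 1) + 1 := by omega
    rw [e2, e1, e3, e4, hh_two_mul_succ]; push_cast; omega

lemma Ap_eq' (hκ : 1 ≤ p.κ) (B : ℕ) (hB : 2 * (p.κ : ℤ) + 2 ≤ 2 ^ B) (n P : ℕ) (h : n + P ≤ p.d) :
    (p.dat n).Ap B P = p.F (n + P) - p.F n := by
  induction P with
  | zero => simp [Dat.Ap]
  | succ P ih =>
    have ih := ih (by omega)
    unfold Dat.Ap at ih ⊢
    rw [sum_range_succ, ih, p.lam_eq hκ B hB n (P + 1) (n + P + 1) (by push_cast; ring) (by omega)]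
    unfold F
    have : n + (P + 1) = n + P + 1 := by ring
    rw [this, sum_range_succ _ (n + P)]
    ring

lemma Bm_eq' (hκ : 1 ≤ p.κ) (B : ℕ) (hB : 2 * (p.κ : ℤ) + 2 ≤ 2 ^ B) (n P : ℕ) (h : P ≤ n) (hn : n ≤ p.d) :
    (p.dat n).Bm B P = p.F n - p.F (n - P) := by
  induction P with
  | zero => simp [Dat.Bm]
  | succ P ih =>
    have ih := ih (by omega)
    unfold Dat.Bm at ih ⊢
    rw [sum_range_succ, ih, p.lam_eq hκ B hB n (-(P : ℤ)) (n - P) (by omega) (by omega)]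
    unfold F
    have : n - P = (n - (P + 1)) + 1 := by omega
    rw [this, sum_range_succ _ (n - (P + 1))]
    ring

/-- the hypotheses of the local theorem at a vertex -/
lemma hyp (B : ℕ) (hB : 2 * (p.κ : ℤ) + 2 ≤ 2 ^ B) (n : ℕ) (hn : n < p.d) (σ : ℝ) (hσ : 0 < σ)
    (hA : ∀ P : ℕ, 1 ≤ P → n + P ≤ p.d → (P : ℝ) * σ ≤ ((p.F (n + P) - p.F n : ℤ) : ℝ))
    (hBm : ∀ P : ℕ, 1 ≤ P → P ≤ n → ((p.F n - p.F (n - P) : ℤ) : ℝ) < P * σ) :
    ∃ σm : ℝ, σm < σ ∧ (p.dat n).Hyp B σ σm := by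
  have h1 := p.hd1
  have h1' := p.hd2
  have h2 := p.hρ
  have hκ : 1 ≤ p.κ := by omega
  -- choose σm
  set S : Finset ℝ := insert 0 ((Icc 1 n).image (fun P => ((p.F n - p.F (n - P) : ℤ) : ℝ) / P))
    with hS
  have hne : S.Nonempty := insert_nonempty _ _
  have hlt : S.max' hne < σ := by
    rw [max'_lt_iff]
    intro y hy
    rw [hS, mem_insert, mem_image] at hy
    rcases hy with rfl | ⟨P, hP, rfl⟩
    · exact hσ
    · rw [mem_Icc] at hP
      have hP0 : (0 : ℝ) < P := by exact_mod_cast hP.1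
      rw [div_lt_iff₀ hP0]
      have := hBm P hP.1 hP.2
      linarith
  have hz0 : (0 : ℝ) ≤ S.max' hne := le_max' _ _ (mem_insert_self _ _)
  refine ⟨S.max' hne, hlt, hlt, ?_, ?_⟩
  · intro P hP
    rcases le_or_gt (n + P) p.d with h | h
    · left
      rw [p.Ap_eq' hκ B hB n P h]
      exact hA P hP h
    · right
      intro hTF
      have := hTF 0 (by simp only [dat]; omega) (by simp only [dat]; omega)
      rw [vB_zero] at this
      have := vB_le B ((p.dat n).mu - P)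
      omega
  · intro P hP
    rcases le_or_gt P n with h | h
    · left
      rw [p.Bm_eq' hκ B hB n P h hn.le]
      have hP0 : (0 : ℝ) < P := by exact_mod_cast hP
      have : ((p.F n - p.F (n - P) : ℤ) : ℝ) / P ≤ S.max' hne := by
        apply le_max'
        rw [hS, mem_insert]
        right
        exact mem_image_of_mem _ (mem_Icc.2 ⟨hP, h⟩)
      rw [div_le_iff₀ hP0] at this
      linarith
    · rcases Nat.lt_or_ge 1 (n + P) with h3 | h3
      · right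
        intro hTF
        have := hTF ((p.dat n).mu + P) (by simp only [dat]; omega) (by simp only [dat]; omega)
        omega
      · left
        have hn0 : n = 0 := by omega
        have hP1 : P = 1 := by omega
        subst hn0 hP1
        have : (p.dat 0).Bm B 1 = 0 := by
          unfold Dat.Bm
          rw [sum_range_one, p.lam_eq hκ B hB 0 _ 0 (by simp) (by omega), p.sl_zero (by omega)]
        rw [this]
        simpa using hz0

end Par

end Pool.Agent.helper83.BC
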