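import Pool.Agent.helper83.BCVals

set_option autoImplicit false

namespace Pool.Agent.helper83.BC

open Finset

namespace Par

variable (p : Par)

lemma vB_pos_eq (B : ℕ) (x : ℤ) (h1 : 1 ≤ x) (h2 : x < 2 ^ B) : (vB B x : ℤ) = vz x := by
  have := vB_add_eq B (z := 0) (i := x) (w := B) (by omega) (by rw [vB_zero]) (by
    have : (x.natAbs : ℤ) < 2 ^ B := by omega
    exact_mod_cast this)
  rw [zero_add] at this
  exact this

/-- all the local inequalities at a vertex `n < d` -/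
theorem vertex_vals (n : ℕ) (hn : n < p.d) (σ : ℝ) (hσ : 0 < σ)
    (hA : ∀ P : ℕ, 1 ≤ P → n + P ≤ p.d → (P : ℝ) * σ ≤ ((p.F (n + P) - p.F n : ℤ) : ℝ))
    (hBm : ∀ P : ℕ, 1 ≤ P → P ≤ n → ((p.F n - p.F (n - P) : ℤ) : ℝ) < P * σ) :
    (∀ i t : ℕ, n < i → i ≤ p.d → n < t → t ≤ p.L →
      σ ≤ ((vq (Ra p.phi p.κ n i) + vq (Ra p.psi p.κ n t) - vz ((p.κ : ℤ) - i - t) : ℤ) : ℝ)) ∧
    (∀ i t : ℕ, 1 ≤ i → i ≤ n → 1 ≤ t → t ≤ n →
      ((vq (Ra p.phi p.κ n i) + vq (Ra p.psi p.κ n t) + vz ((p.κ : ℤ) - i - t) : ℤ) : ℝ) < σ) ∧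
    (∀ i i' : ℕ, n < i → i ≤ p.d → 1 ≤ i' → i' ≤ n →
      0 < vq (Ra p.phi p.κ n i) - vq (Ra p.phi p.κ n i') - vz ((i : ℤ) - i')) ∧
    (∀ t t' : ℕ, n < t → t ≤ p.L → 1 ≤ t' → t' ≤ n →
      0 < vq (Ra p.psi p.κ n t) - vq (Ra p.psi p.κ n t') - vz ((t : ℤ) - t')) := by
  have g1 := p.hd1
  have g1' := p.hd2
  have g2 := p.hρ
  have g3 := p.hL1
  have g3' := p.hL2
  set B : ℕ := 6 * p.κ + 20 with hBdef
  have hB2 : (B : ℤ) < 2 ^ B := by exact_mod_cast Nat.lt_two_pow_self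
  have hB : 2 * (p.κ : ℤ) + 2 ≤ 2 ^ B := by omega
  obtain ⟨σm, hσm, hyp⟩ := p.hyp B hB n hn σ hσ hA hBm
  have hN : 3 * (((2 * p.κ + 2 : ℕ) : ℤ) + 2) < 2 ^ B := by push_cast; omega
  have main := Dat.loc_main B (2 * p.κ + 2) hN
  obtain ⟨hC, hCA⟩ := main _ _ _ hyp
  obtain ⟨hR, _⟩ := main _ _ _ (hyp.refl B)
  obtain ⟨_, hCA'⟩ := main _ _ _ (hyp.swap B)
  refine ⟨?_, ?_, ?_, ?_⟩
  · intro i t hi1 hi2 ht1 ht2
    have h := hC ((i : ℤ) - n) ((t : ℤ) - n) (by omega) (by omega) (by push_cast; omega)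
    have e : (p.dat n).Tp B ((i : ℤ) - n) ((t : ℤ) - n)
        = vq (Ra p.phi p.κ n i) + vq (Ra p.psi p.κ n t) - vz ((p.κ : ℤ) - i - t) := by
      rw [p.vq_Ra_phi B hB n i hn.le (by omega) hi2, p.vq_Ra_psi B hB n t hn.le (by omega) ht2]
      unfold Dat.Tp Dat.u
      have e1 : (p.dat n).mu + 1 - ((i : ℤ) - n + (t - n)) = (p.κ : ℤ) - i - t := by
        simp only [dat]; ring
      rw [e1, vB_pos_eq B _ (by omega) (by omega)]
      simp only [dat]; ring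
    rwa [e] at h
  · intro i t hi1 hi2 ht1 ht2
    have h := hR (1 - ((i : ℤ) - n)) (1 - ((t : ℤ) - n)) (by omega) (by omega)
      (by push_cast; omega)
    rw [Dat.refl_Tp] at h
    have e0 : (1 : ℤ) - (1 - ((i : ℤ) - n)) = i - n := by ring
    have e0' : (1 : ℤ) - (1 - ((t : ℤ) - n)) = t - n := by ring
    rw [e0, e0'] at h
    have e : (p.dat n).Tm B ((i : ℤ) - n) ((t : ℤ) - n)
        = vq (Ra p.phi p.κ n i) + vq (Ra p.psi p.κ n t) + vz ((p.κ : ℤ) - i - t) := by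
      rw [p.vq_Ra_phi B hB n i hn.le (by omega) (by omega),
        p.vq_Ra_psi B hB n t hn.le (by omega) (by omega)]
      unfold Dat.Tm Dat.u
      have e1 : (p.dat n).mu + 1 - ((i : ℤ) - n + (t - n)) = (p.κ : ℤ) - i - t := by
        simp only [dat]; ring
      rw [e1, vB_pos_eq B _ (by omega) (by omega)]
      simp only [dat]; ring
    rw [e] at h
    push_cast at h ⊢
    linarith
  · intro i i' hi1 hi2 ht1 ht2
    have h := hCA ((i : ℤ) - n) ((i' : ℤ) - n) (by omega) (by omega) (by push_cast; omega)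
    have e : (p.dat n).Xa B ((i : ℤ) - n) ((i' : ℤ) - n)
        = vq (Ra p.phi p.κ n i) - vq (Ra p.phi p.κ n i') - vz ((i : ℤ) - i') := by
      rw [p.vq_Ra_phi B hB n i hn.le (by omega) hi2, p.vq_Ra_phi B hB n i' hn.le ht1 (by omega)]
      unfold Dat.Xa
      have e1 : (i : ℤ) - n - (i' - n) = i - i' := by ring
      rw [e1]; ring
    rwa [e] at h
  · intro t t' hi1 hi2 ht1 ht2
    have h := hCA' ((t : ℤ) - n) ((t' : ℤ) - n) (by omega) (by omega) (by push_cast; omega)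
    have e : (p.dat n).swap.Xa B ((t : ℤ) - n) ((t' : ℤ) - n)
        = vq (Ra p.psi p.κ n t) - vq (Ra p.psi p.κ n t') - vz ((t : ℤ) - t') := by
      rw [p.vq_Ra_psi B hB n t hn.le (by omega) hi2, p.vq_Ra_psi B hB n t' hn.le ht1 (by omega)]
      unfold Dat.Xa
      rw [Dat.swap_fa, Dat.swap_fa]
      have e1 : (t : ℤ) - n - (t' - n) = t - t' := by ring
      rw [e1]; ring
    rwa [e] at h

/-- the column inequality at `n = d` -/
theorem last_b (t t' : ℕ) (h1 : p.d < t) (h2 : t ≤ p.L) (h3 : 1 ≤ t') (h4 : t' ≤ p.d) :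
    0 < vq (Ra p.psi p.κ p.d t) - vq (Ra p.psi p.κ p.d t') - vz ((t : ℤ) - t') := by
  have g1 := p.hd1
  have g1' := p.hd2
  have g2 := p.hρ
  have g3 := p.hL1
  set B : ℕ := 6 * p.κ + 20 with hBdef
  have hB2 : (B : ℤ) < 2 ^ B := by exact_mod_cast Nat.lt_two_pow_self
  have hB : 2 * (p.κ : ℤ) + 2 ≤ 2 ^ B := by omega
  have e : (p.dat p.d).swap.Xa B ((t : ℤ) - p.d) ((t' : ℤ) - p.d)
      = vq (Ra p.psi p.κ p.d t) - vq (Ra p.psi p.κ p.d t') - vz ((t : ℤ) - t') := by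
    rw [p.vq_Ra_psi B hB p.d t le_rfl (by omega) h2, p.vq_Ra_psi B hB p.d t' le_rfl h3 (by omega)]
    unfold Dat.Xa
    rw [Dat.swap_fa, Dat.swap_fa]
    have e1 : (t : ℤ) - p.d - (t' - p.d) = t - t' := by ring
    rw [e1]; ring
  rw [← e]
  obtain ⟨m, hm1, hm2, hu, _⟩ := exists_argmax (fun x => (p.dat p.d).swap.u B x)
    ((t' : ℤ) - p.d + 1) ((t : ℤ) - p.d) (by omega)
  apply Dat.caseAspike B (p.dat p.d).swap ((t : ℤ) - p.d) ((t' : ℤ) - p.d) m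
    (3 * ((p.dat p.d).mu + 1 - m)) (by omega) (by omega) (by omega) hm2 hu (by omega)
  · simp only [Dat.swap, dat]; omega
  · simp only [Dat.swap, dat]; omega
  · apply le_vB B (vB_le B _)
    exact Dvd.dvd.mul_left (pow_vB_dvd B ((p.dat p.d).mu + 1 - m)) 3

/-- crude bound for the inverse at `n = d` -/
theorem last_d (i t : ℕ) (h1 : 1 ≤ i) (h2 : i ≤ p.d) (h3 : 1 ≤ t) (h4 : t ≤ p.d) :
    vq (Ra p.phi p.κ p.d i) + vq (Ra p.psi p.κ p.d t) + vz ((p.κ : ℤ) - i - t) ≤ 2 * p.κ := by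
  have g1 := p.hd1
  have g1' := p.hd2
  have g2 := p.hρ
  have g3 := p.hL1
  have g3' := p.hL2
  have hden1 := vq_den p.κ p.d i (by omega)
  have hden2 := vq_den p.κ p.d t (by omega)
  unfold Ra
  rw [vq_div (mul_ne_zero (p.phi_ne i) (num_ne_zero p.d i)) hden1.2,
    vq_mul (p.phi_ne i) (num_ne_zero p.d i), p.vq_phi i h1, vq_num p.d i h1, hden1.1,
    vq_div (mul_ne_zero (p.psi_ne t) (num_ne_zero p.d t)) hden2.2,
    vq_mul (p.psi_ne t) (num_ne_zero p.d t), p.vq_psi t (by omega), vq_num p.d t h3, hden2.1]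
  rw [Vs_nonpos _ (by omega), Vs_nonpos _ (by omega)]
  have a1 := H_le (-((i : ℤ) - p.d)) (by omega)
  have a2 := H_le (-((t : ℤ) - p.d)) (by omega)
  have a3 := hh_le (p.κ - i - p.d - 1)
  have a4 := hh_le (p.κ - t - p.d - 1)
  have a5 := hh_lower (p.κ + p.ρ - 1 - 3 * i)
  have a6 := hh_lower (2 * p.κ - p.ρ - 3 * t)
  have a7 := vz_le ((p.κ : ℤ) - i - t) (by omega)
  have e3 : p.κ - 1 - i = p.κ - i - 1 := by omega
  rw [e3]
  omega

end Par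

end Pool.Agent.helper83.BC
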